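import Pool.Agent.H646.CS.Stm2

set_option autoImplicit false

/-!
# Assembly, first part: the parameters `B` and the space `X0`
-/

namespace Pool.Agent.H646.CS

open MeasureTheory ProbabilityTheory Set Topology TopologicalSpace Filter
open Pool.Agent.H646.CR (P en en_surj dn b2r IsPD mu IsSys GG KK lamK qq cc QQ XX0)
open scoped ENNReal

/-- The space and the parameters. -/
structure Good (X0 : Set (P × KK)) (B : Set P) (D : ℕ → P) : Prop where
  sys : IsSys GG KK lamK qq cc QQ X0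
  gB : IsGδ B
  dB : Dense B
  dD : DenseRange D
  no : ∀ s ∈ B, ∀ (j n : ℕ) (l : Ix → ℕ) (l' : ℕ)
    (η : Measure (St GG KK (Hn GG n) (Mn KK n))), Rel0 (1 / 10 ^ 8) qq QQ l l' (D j) s η →
    η {ω | (ω.1.1, ω.1.2.1) ∉ X0} ≠ 0

theorem slice_null (lam : Measure KK) [IsProbabilityMeasure lam] (n : ℕ) (s : P)
    (N : Set (P × Mn KK n)) (hN : MeasurableSet N) (h : mu (lamn lam n) s N = 0)
    (z : ZMod (n + 1)) : lam {k | ((s, (k, z)) : P × Mn KK n) ∈ N} = 0 := by
  unfold mu at h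
  have hfin : IsFiniteMeasure (((n : ℝ≥0∞) + 1)⁻¹ • (Measure.count : Measure (ZMod (n + 1)))) := by
    refine ⟨?_⟩
    rw [Measure.smul_apply, smul_eq_mul]
    refine ENNReal.mul_lt_top ?_ ?_
    · exact ENNReal.inv_lt_top.2 (by positivity)
    · rw [Measure.count_apply_finite _ finite_univ]
      exact ENNReal.natCast_lt_top _
  have hm1 : Measurable (fun y : Mn KK n => ((s, y) : P × Mn KK n)) := measurable_prodMk_left
  have hfl : SFinite (lamn lam n) := by
    unfold lamn
    infer_instance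
  rw [Measure.dirac_prod, Measure.map_apply hm1 hN] at h
  unfold lamn at h
  rw [Measure.measure_prod_null (hm1 hN)] at h
  have h2 : ∀ᵐ k ∂lam, ¬ ((s, (k, z)) : P × Mn KK n) ∈ N := by
    filter_upwards [h] with k hk
    intro hz
    have h3 : (((n : ℝ≥0∞) + 1)⁻¹ • (Measure.count : Measure (ZMod (n + 1))))
        (Prod.mk k ⁻¹' ((fun y : Mn KK n => ((s, y) : P × Mn KK n)) ⁻¹' N)) = 0 := hk
    rw [Measure.smul_apply, smul_eq_mul, mul_eq_zero] at h3
    rcases h3 with h3 | h3
    · rw [ENNReal.inv_eq_zero] at h3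
      exact absurd h3 (by simp)
    · rw [Measure.count_eq_zero_iff] at h3
      have : z ∈ (Prod.mk k ⁻¹' ((fun y : Mn KK n => ((s, y) : P × Mn KK n)) ⁻¹' N)) := hz
      rw [h3] at this
      exact this
  rw [ae_iff] at h2
  simpa using h2

theorem good_of (hsys : IsSys GG KK lamK qq cc QQ XX0) (htopo : S_topo) (hcnt : S_cnt)
    (hclC : S_clC) (hacx : S_acx) (hnull : S_null) (htgt : S_tgt) :
    ∃ (X0 : Set (P × KK)) (B : Set P) (D : ℕ → P), Good X0 B D := by
  have hprob := hsys.prob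
  obtain ⟨D, hD, B, hB, hBd, hno⟩ := htopo (ℕ × (Ix → ℕ) × ℕ × ℕ)
    (fun i t s => ∃ η : Measure (St GG KK (Hn GG i.1) (Mn KK i.1)),
      RelC (lamn lamK i.1) qq QQ i.2.2.2 i.2.1 i.2.2.1 t s η)
    (fun i t => hclC GG KK (Hn GG i.1) (Mn KK i.1) qq QQ hsys.q_cont (lamn lamK i.1)
      (htgt GG KK lamK qq cc QQ XX0 hsys i.1) i.2.2.2 i.2.1 i.2.2.1 t)
    (fun i s => hcnt GG KK (Hn GG i.1) (Mn KK i.1) lamK qq cc QQ XX0 hsys (lamn lamK i.1)
      (htgt GG KK lamK qq cc QQ XX0 hsys i.1) i.2.2.2 i.2.1 i.2.2.1 s)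
  have hsing : ∀ (j n : ℕ) (l : Ix → ℕ) (l' : ℕ), ∀ s ∈ B,
      ∀ η : Measure (St GG KK (Hn GG n) (Mn KK n)), Rel0 (1 / 10 ^ 8) qq QQ l l' (D j) s η →
      Sing (lamn lamK n) s η := by
    intro j n l l' s hs η hη
    by_contra hcon
    obtain ⟨C, η', h'⟩ := hacx GG KK (Hn GG n) (Mn KK n) qq QQ hsys.q_cont (lamn lamK n)
      (htgt GG KK lamK qq cc QQ XX0 hsys n) l l' (D j) s η hη hcon
    exact hno s hs (n, l, l', C) j ⟨η', h'⟩
  have hN : ∀ (j n : ℕ) (l : Ix → ℕ) (l' : ℕ), ∃ N : Set (P × Mn KK n), MeasurableSet N ∧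
      (∀ s, mu (lamn lamK n) s N = 0) ∧
        ∀ s ∈ B, ∀ η : Measure (St GG KK (Hn GG n) (Mn KK n)),
          Rel0 (1 / 10 ^ 8) qq QQ l l' (D j) s η → η {ω | ω.1 ∈ N} ≠ 0 :=
    fun j n l l' => hnull GG KK (Hn GG n) (Mn KK n) qq QQ hsys.q_cont (lamn lamK n)
      (htgt GG KK lamK qq cc QQ XX0 hsys n) l l' (D j) B (hsing j n l l')
  choose N hNm hN0 hNp using hN
  set X0 : Set (P × KK) := XX0 ∩ ⋂ (g : GG) (j : ℕ) (n : ℕ) (l : Ix → ℕ) (l' : ℕ)
    (z : ZMod (n + 1)), {x | (((g • x).1, ((g • x).2, z)) : P × Mn KK n) ∉ N j n l l'} with hX0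
  have hmem : ∀ x, x ∈ X0 ↔ x ∈ XX0 ∧ ∀ (g : GG) (j n : ℕ) (l : Ix → ℕ) (l' : ℕ)
      (z : ZMod (n + 1)), (((g • x).1, ((g • x).2, z)) : P × Mn KK n) ∉ N j n l l' := by
    intro x
    simp only [hX0, mem_inter_iff, mem_iInter, mem_setOf_eq]
  have hms : ∀ g : GG, Measurable fun x : P × KK => g • x :=
    fun g => (continuous_const_smul g).measurable
  have hmap : ∀ (g : GG) (n : ℕ) (z : ZMod (n + 1)),
      Measurable fun x : P × KK => (((g • x).1, ((g • x).2, z)) : P × Mn KK n) :=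
    fun g n z => (measurable_fst.comp (hms g)).prodMk
      ((measurable_snd.comp (hms g)).prodMk measurable_const)
  refine ⟨X0, B, D, ?_, hB, hBd, hD, ?_⟩
  · refine ⟨hsys.inf, hsys.prob, hsys.fst_smul, hsys.pres, hsys.q_cont, hsys.q_c, hsys.rt, ?_, ?_,
      ?_, ?_, ?_⟩
    · refine hsys.X0_meas.inter ?_
      refine MeasurableSet.iInter fun g => MeasurableSet.iInter fun j => MeasurableSet.iInter
        fun n => MeasurableSet.iInter fun l => MeasurableSet.iInter fun l' =>
        MeasurableSet.iInter fun z => ?_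
      exact (hmap g n z) (hNm j n l l').compl
    · intro g x hx
      rw [hmem] at hx ⊢
      refine ⟨hsys.X0_inv g x hx.1, fun g' j n l l' z => ?_⟩
      rw [← mul_smul]
      exact hx.2 (g' * g) j n l l' z
    · intro g x hx
      exact hsys.X0_free g x ((hmem x).1 hx).1
    · intro s
      have hsub : {k | ((s, k) : P × KK) ∉ X0} ⊆ {k | ((s, k) : P × KK) ∉ XX0} ∪
          ⋃ (g : GG) (j : ℕ) (n : ℕ) (l : Ix → ℕ) (l' : ℕ) (z : ZMod (n + 1)),
          {k | (((g • ((s, k) : P × KK)).1, ((g • ((s, k) : P × KK)).2, z)) : P × Mn KK n) ∈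
            N j n l l'} := by
        intro k hk
        by_contra hcon
        simp only [mem_union, mem_iUnion, mem_setOf_eq, not_or, not_exists, not_not] at hcon
        exact hk ((hmem _).2 ⟨hcon.1, hcon.2⟩)
      refine measure_mono_null hsub (measure_union_null (hsys.X0_full s) ?_)
      refine measure_iUnion_null fun g => measure_iUnion_null fun j => measure_iUnion_null
        fun n => measure_iUnion_null fun l => measure_iUnion_null fun l' =>
        measure_iUnion_null fun z => ?_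
      have h1 := slice_null lamK n s (N j n l l') (hNm j n l l') (hN0 j n l l' s) z
      have hm2 : Measurable fun k : KK => (g • ((s, k) : P × KK)).2 :=
        measurable_snd.comp ((hms g).comp measurable_prodMk_left)
      have hm3 : MeasurableSet {k | ((s, (k, z)) : P × Mn KK n) ∈ N j n l l'} :=
        (measurable_const.prodMk (measurable_id.prodMk measurable_const) :
          Measurable fun k : KK => ((s, (k, z)) : P × Mn KK n)) (hNm j n l l')
      rw [← hsys.pres g s, Measure.map_apply hm2 hm3] at h1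
      refine measure_mono_null ?_ h1
      intro k hk
      have h4 : (g • ((s, k) : P × KK)).1 = s := hsys.fst_smul g (s, k)
      show ((s, ((g • ((s, k) : P × KK)).2, z)) : P × Mn KK n) ∈ N j n l l'
      have h5 : (((g • ((s, k) : P × KK)).1, ((g • ((s, k) : P × KK)).2, z)) : P × Mn KK n) ∈
            N j n l l' := hk
      rwa [h4] at h5
    · intro ρ h1 h2 h3
      refine hsys.X0_ue ρ h1 h2 (measure_mono_null ?_ h3)
      intro x hx hx0
      exact hx ((hmem x).1 hx0).1
  · intro s hs j n l l' η hη h0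
    refine hNp j n l l' s hs η hη (measure_mono_null ?_ h0)
    intro ω hω
    have h1 : ω.1 ∈ N j n l l' := hω
    intro hcon
    have h2 := ((hmem _).1 hcon).2 1 j n l l' ω.1.2.2
    rw [one_smul] at h2
    exact h2 h1

end Pool.Agent.H646.CS
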