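import Pool.Agent.H646.CS.Asm

set_option autoImplicit false

/-!
# Assembly, second part: no bireducible compact realization
-/

namespace Pool.Agent.H646.CS

open MeasureTheory ProbabilityTheory Set Topology TopologicalSpace Filter
open Pool.Agent.H646.CR (P en en_surj dn b2r IsPD mu IsSys GG KK lamK qq cc QQ XX0)
open scoped ENNReal

theorem polish (K : Type) [TopologicalSpace K] [CompactSpace K] [MetrizableSpace K] :
    PolishSpace K := by
  let := metrizableSpaceMetric K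
  infer_instance

theorem mu_prob (lam : Measure KK) [IsProbabilityMeasure lam] (s : P) :
    IsProbabilityMeasure (mu lam s) := by
  unfold mu
  infer_instance

/-- An enumeration of the maps `(y, i) ↦ (w • y, i')`. -/
noncomputable def pe (Γ : Type) [Group Γ] [Countable Γ] (N : ℕ) : ℕ → Γ × Fin (N + 1) :=
  (exists_surjective_nat (Γ × Fin (N + 1))).choose

theorem pe_surj (Γ : Type) [Group Γ] [Countable Γ] (N : ℕ) : Function.Surjective (pe Γ N) :=
  (exists_surjective_nat (Γ × Fin (N + 1))).choose_spec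

/-- The maps on `Y × {0, ..., N}`. -/
noncomputable def actN (Γ Y : Type) [Group Γ] [Countable Γ] [MulAction Γ Y] (N : ℕ) (k : ℕ)
    (z : Y × Fin (N + 1)) : Y × Fin (N + 1) := ((pe Γ N k).1 • z.1, (pe Γ N k).2)

section

variable {Γ Y : Type} [Group Γ] [Countable Γ] [TopologicalSpace Y] [CompactSpace Y]
    [MetrizableSpace Y] [MeasurableSpace Y] [BorelSpace Y] [MulAction Γ Y]
    [ContinuousConstSMul Γ Y] {α : P × KK → Y} {β : Y → P × KK} {X0 : Set (P × KK)} {B : Set P}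

theorem exists_limW (hS : IsSys GG KK lamK qq cc QQ X0) (mB : MeasurableSet B) (hyex : S_yex)
    (hbi : IsBi Γ Y GG (X0 ∩ {x | x.1 ∈ B}) α β) (ι : P × KK → ℕ) (mι : Measurable ι)
    (hι : ∀ x x', x ∈ X0 ∩ {x : P × KK | x.1 ∈ B} → x' ∈ X0 ∩ {x : P × KK | x.1 ∈ B} →
      α x = α x' → ι x = ι x' → x = x') (s : P) (hs : s ∈ B) :
    ∃ (N : ℕ) (l : Ix → ℕ) (l' : ℕ) (ζ : Measure ((P × KK) × (GG → Y × Fin (N + 1)))),
      LimW (actN Γ Y N) qq QQ l l' s ζ := by
  classical
  have := hS.prob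
  have hmp := mu_prob lamK s
  have hYp := polish Y
  set X1 : Set (P × KK) := X0 ∩ {x | x.1 ∈ B} with hX1
  have mX1 : MeasurableSet X1 := hS.X0_meas.inter (measurable_fst mB)
  have hinv : ∀ (g : GG) (x : P × KK), x ∈ X1 → g • x ∈ X1 := by
    intro g x hx
    refine ⟨hS.X0_inv g x hx.1, ?_⟩
    show (g • x).1 ∈ B
    rw [hS.fst_smul]
    exact hx.2
  have hms : Measurable (Prod.mk s : KK → P × KK) := measurable_prodMk_left
  have hX1full : mu lamK s X1ᶜ = 0 := by
    unfold mu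
    rw [Measure.dirac_prod, Measure.map_apply hms mX1.compl]
    refine measure_mono_null ?_ (hS.X0_full s)
    intro k hk h0
    exact hk ⟨h0, hs⟩
  -- choice of `N`
  have hlim : Tendsto (fun N : ℕ => mu lamK s {x | N ≤ ι x}) atTop (𝓝 0) := by
    have h1 := tendsto_measure_iInter_atTop (μ := mu lamK s) (s := fun N : ℕ => {x | N ≤ ι x})
      (fun N => (mι (measurableSet_Ici (a := N))).nullMeasurableSet)
      (fun a b hab x hx => le_trans hab hx) ⟨0, measure_ne_top _ _⟩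
    have h2 : (⋂ N : ℕ, {x : P × KK | N ≤ ι x}) = ∅ := by
      ext x
      simp only [mem_iInter, mem_empty_iff_false, iff_false, not_forall]
      exact ⟨ι x + 1, fun h => absurd h (by simp)⟩
    rw [h2, measure_empty] at h1
    exact h1
  have hev : ∀ᶠ N : ℕ in atTop, mu lamK s {x | N ≤ ι x} < ENNReal.ofReal (1 / 10 ^ 12) :=
    hlim.eventually (gt_mem_nhds (by
      rw [ENNReal.ofReal_pos]
      positivity))
  obtain ⟨N, hN⟩ := hev.exists
  set Θ : P × KK → Y × Fin (N + 1) := fun x => (α x, ⟨min (ι x) N, by omega⟩) with hΘ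
  have mΘ : Measurable Θ := by
    refine hbi.mα.prodMk ?_
    exact (measurable_from_nat (f := fun k : ℕ => (⟨min k N, by omega⟩ : Fin (N + 1)))).comp mι
  set X2 : Set (P × KK) := X1 ∩ {x | ι x < N} with hX2
  have mX2 : MeasurableSet X2 := mX1.inter (mι (measurableSet_Iio (a := N)))
  have hinj : Function.Injective (fun x : X2 => Θ x.1) := by
    rintro ⟨x, hx⟩ ⟨x', hx'⟩ h
    have h1 : α x = α x' := congrArg Prod.fst h
    have h2 : min (ι x) N = min (ι x') N := congrArg (fun z : Y × Fin (N + 1) => z.2.1) h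
    have h3 : ι x < N := hx.2
    have h4 : ι x' < N := hx'.2
    rw [min_eq_left h3.le, min_eq_left h4.le] at h2
    exact Subtype.ext (hι x x' hx.1 hx'.1 h1 h2)
  have hSB : StandardBorelSpace X2 := mX2.standardBorel
  have hemb : MeasurableEmbedding (fun x : X2 => Θ x.1) :=
    (mΘ.comp measurable_subtype_coe).measurableEmbedding hinj
  have hneX : Nonempty (P × KK) := ⟨(s, 0)⟩
  obtain ⟨Ψ, mΨ, hΨ⟩ := hemb.exists_measurable_extend (g := fun x : X2 => (x : P × KK))
    measurable_subtype_coe (fun _ => hneX)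
  refine ⟨N, ?_⟩
  refine hyex GG KK lamK qq cc QQ X0 hS (Y × Fin (N + 1)) (actN Γ Y N) Θ Ψ X2 s ?_ mΘ mΨ mX2 ?_
    ?_ ?_
  · intro k
    exact ((continuous_const_smul _).comp continuous_fst).prodMk continuous_const
  · intro x hx
    exact congrFun hΨ ⟨x, hx⟩
  · intro x hx g
    obtain ⟨w, hw⟩ := (hbi.αr x (g • x) hx.1 (hinv g x hx.1)).1 ⟨g, rfl⟩
    obtain ⟨k, hk⟩ := pe_surj Γ N (w, (Θ (g • x)).2)
    refine ⟨k, ?_⟩
    unfold actN
    rw [hk]
    exact Prod.ext hw.symm rfl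
  · refine (measure_mono ?_).trans ((measure_union_le X1ᶜ {x | N ≤ ι x}).trans ?_)
    · intro x hx
      by_cases h1 : x ∈ X1
      · right
        by_contra h2
        exact hx ⟨h1, (not_le.1 h2 : ι x < N)⟩
      · exact Or.inl h1
    · rw [hX1full, zero_add]
      exact hN.le

/-- From a realization to a limit process over some `D j`. -/
theorem exists_limit {D : ℕ → P} (hG : Good X0 B D) (hycl : S_ycl) (hyex : S_yex)
    (hbi : IsBi Γ Y GG (X0 ∩ {x | x.1 ∈ B}) α β) (ι : P × KK → ℕ) (mι : Measurable ι)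
    (hι : ∀ x x', x ∈ X0 ∩ {x : P × KK | x.1 ∈ B} → x' ∈ X0 ∩ {x : P × KK | x.1 ∈ B} →
      α x = α x' → ι x = ι x' → x = x') :
    ∃ (j N : ℕ) (l : Ix → ℕ) (l' : ℕ) (ζ : Measure ((P × KK) × (GG → Y × Fin (N + 1)))),
      LimW (actN Γ Y N) qq QQ l l' (D j) ζ := by
  have hYp := polish Y
  have hcl : ∀ i : ℕ × (Ix → ℕ) × ℕ,
      IsClosed {d | ∃ ζ : Measure ((P × KK) × (GG → Y × Fin (i.1 + 1))),
        LimW (actN Γ Y i.1) qq QQ i.2.1 i.2.2 d ζ} := by
    intro i
    refine hycl GG KK qq QQ (Y × Fin (i.1 + 1)) (actN Γ Y i.1) hG.sys.q_cont ?_ i.2.1 i.2.2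
    intro k
    exact ((continuous_const_smul _).comp continuous_fst).prodMk continuous_const
  have hsub : B ⊆ ⋃ i : ℕ × (Ix → ℕ) × ℕ,
      {d | ∃ ζ : Measure ((P × KK) × (GG → Y × Fin (i.1 + 1))),
        LimW (actN Γ Y i.1) qq QQ i.2.1 i.2.2 d ζ} := by
    intro s hs
    obtain ⟨N, l, l', ζ, h⟩ := exists_limW hG.sys hG.gB.measurableSet hyex hbi ι mι hι s hs
    exact mem_iUnion.2 ⟨(N, l, l'), ζ, h⟩
  have hdense := hG.gB.dense_iUnion_interior_of_closed hG.dB hcl hsub
  obtain ⟨x, hx⟩ := hdense.nonempty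
  obtain ⟨i, hi⟩ := mem_iUnion.1 hx
  obtain ⟨y, hy1, j, hj⟩ := hG.dD.inter_open_nonempty _ isOpen_interior ⟨x, hi⟩
  have h1 := interior_subset hy1
  rw [← hj] at h1
  obtain ⟨ζ, hζ⟩ := h1
  exact ⟨j, i.1, i.2.1, i.2.2, ζ, hζ⟩

/-- The contradiction. -/
theorem no_bi {D : ℕ → P} (hG : Good X0 B D) (hycl : S_ycl) (hyex : S_yex) (htrm : S_trm)
    (htra : S_tra) (htrc : S_trc) (htr2 : S_tr2) (htgt : S_tgt) (hln : S_ln)
    (hbi : IsBi Γ Y GG (X0 ∩ {x | x.1 ∈ B}) α β) : False := by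
  classical
  have hS := hG.sys
  have := hS.prob
  have hYp := polish Y
  have mB := hG.gB.measurableSet
  set X1 : Set (P × KK) := X0 ∩ {x | x.1 ∈ B} with hX1
  have mX1 : MeasurableSet X1 := hS.X0_meas.inter (measurable_fst mB)
  have hinv : ∀ (g : GG) (x : P × KK), x ∈ X1 → g • x ∈ X1 := by
    intro g x hx
    refine ⟨hS.X0_inv g x hx.1, ?_⟩
    show (g • x).1 ∈ B
    rw [hS.fst_smul]
    exact hx.2
  -- enumeration of the fibres of `α`
  have hSB : StandardBorelSpace X1 := mX1.standardBorel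
  obtain ⟨ι₁, mι₁, hι₁⟩ := hln X1 Y (fun x => α x.1) (hbi.mα.comp measurable_subtype_coe) (by
    intro y
    by_cases hex : ∃ x : X1, α x.1 = y
    · obtain ⟨x₀, hx₀⟩ := hex
      refine (countable_range (fun g : GG => (⟨g • x₀.1, hinv g x₀.1 x₀.2⟩ : X1))).mono ?_
      intro x hx
      have h1 : α x.1 = y := hx
      obtain ⟨g, hg⟩ := (hbi.αr x₀.1 x.1 x₀.2 x.2).2 ⟨1, by rw [one_smul, hx₀, h1]⟩
      exact ⟨g, Subtype.ext hg⟩
    · have : {x : X1 | α x.1 = y} = ∅ := by
        ext x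
        simp only [mem_empty_iff_false, iff_false]
        intro h
        exact hex ⟨x, h⟩
      rw [this]
      exact countable_empty)
  set ι : P × KK → ℕ := fun x => if h : x ∈ X1 then ι₁ ⟨x, h⟩ else 0 with hιdef
  have mι : Measurable ι := Measurable.dite (s := X1) mι₁ measurable_const mX1
  have hι : ∀ x x', x ∈ X1 → x' ∈ X1 → α x = α x' → ι x = ι x' → x = x' := by
    intro x x' hx hx' h1 h2
    rw [hιdef] at h2
    simp only [dif_pos hx, dif_pos hx'] at h2
    exact congrArg Subtype.val (hι₁ ⟨x, hx⟩ ⟨x', hx'⟩ h1 h2)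
  obtain ⟨j, N, l, l', ζ, hζ⟩ := exists_limit hG hycl hyex hbi ι mι hι
  -- enumeration of the fibres of `β`
  obtain ⟨ιβ, mιβ, hιβ⟩ := hln Y (P × KK) β hbi.mβ (by
    intro x
    by_cases hex : ∃ y, β y = x
    · obtain ⟨y₀, hy₀⟩ := hex
      refine (countable_range (fun w : Γ => w • y₀)).mono ?_
      intro y hy
      have h1 : β y = x := hy
      obtain ⟨w, hw⟩ := (hbi.βr y₀ y).2 ⟨1, by rw [one_smul, hy₀, h1]⟩
      exact ⟨w, hw⟩
    · have : {y | β y = x} = ∅ := by
        ext y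
        simp only [mem_empty_iff_false, iff_false]
        intro h
        exact hex ⟨y, h⟩
      rw [this]
      exact countable_empty)
  set Ξ : Y × Fin (N + 1) → (P × KK) × ℕ := fun z => (β z.1, Nat.pair (ιβ z.1) z.2.1) with hΞ
  have hco : IsCo GG (actN Γ Y N) X1 Ξ := by
    refine ⟨mX1, hinv, fun g x hx => hS.X0_free g x hx.1, ?_, ?_, fun z => hbi.βX z.1, ?_⟩
    · refine (hbi.mβ.comp measurable_fst).prodMk ?_
      have h1 : Measurable fun z : Y × Fin (N + 1) => (ιβ z.1, z.2) :=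
        (mιβ.comp measurable_fst).prodMk measurable_snd
      exact (measurable_of_countable (fun p : ℕ × Fin (N + 1) => Nat.pair p.1 p.2.1)).comp h1
    · rintro ⟨y, i⟩ ⟨y', i'⟩ h
      have h1 : β y = β y' := congrArg Prod.fst h
      have h2 : Nat.pair (ιβ y) i.1 = Nat.pair (ιβ y') i'.1 := congrArg Prod.snd h
      rw [Nat.pair_eq_pair] at h2
      rw [Prod.ext_iff]
      exact ⟨hιβ y y' h1 h2.1, Fin.ext h2.2⟩
    · intro z k
      obtain ⟨g, hg⟩ := (hbi.βr z.1 ((pe Γ N k).1 • z.1)).1 ⟨(pe Γ N k).1, rfl⟩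
      exact ⟨g, hg.symm⟩
  have hact : ∀ k, Continuous (actN Γ Y N k) := fun k =>
    ((continuous_const_smul _).comp continuous_fst).prodMk continuous_const
  obtain ⟨n, k, k', hne, hgen, hdig⟩ := htrc GG KK (Y × Fin (N + 1)) (actN Γ Y N) qq QQ X1 Ξ
    hS.q_cont hact hco l l' (D j) ζ hζ
  have hW := htra GG KK (Y × Fin (N + 1)) (actN Γ Y N) qq QQ X1 Ξ hco l l' (D j) ζ hζ n hne
  have mtr : Measurable (tr (G := GG) n Ξ) := htrm GG KK (Y × Fin (N + 1)) n Ξ hco.mΞ
  have mE : MeasurableSet {ω : (P × KK) × (GG → Y × Fin (N + 1)) | (Ξ (ω.2 1)).2 ≤ n} := by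
    have h1 : Measurable fun ω : (P × KK) × (GG → Y × Fin (N + 1)) => (Ξ (ω.2 1)).2 :=
      measurable_snd.comp (hco.mΞ.comp ((measurable_pi_apply 1).comp measurable_snd))
    exact h1 (measurableSet_Iic (a := n))
  have hnull : ∀ A : Set (St GG KK (Hn GG n) (Mn KK n)), MeasurableSet A →
      ζ (tr (G := GG) n Ξ ⁻¹' A) = 0 → trM (G := GG) n Ξ ζ A = 0 := by
    intro A hA h0
    unfold trM
    rw [Measure.smul_apply, Measure.map_apply mtr hA, Measure.restrict_apply (mtr hA)]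
    rw [measure_mono_null inter_subset_left h0, smul_zero]
  set X2 : Set (P × Mn KK n) := {y | ((y.1, y.2.1) : P × KK) ∈ X1} with hX2
  have mX2 : MeasurableSet X2 :=
    (measurable_fst.prodMk (measurable_fst.comp measurable_snd) :
      Measurable fun y : P × Mn KK n => ((y.1, y.2.1) : P × KK)) mX1
  have hpar : trM (G := GG) n Ξ ζ {ω | ω.2.1.1 ≠ D j} = 0 := by
    refine hnull _ ?_ hζ.par
    exact (measurable_fst.comp (measurable_fst.comp measurable_snd) :
      Measurable fun ω : St GG KK (Hn GG n) (Mn KK n) => ω.2.1.1)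
      (measurableSet_singleton (D j)).compl
  have hX2' : trM (G := GG) n Ξ ζ {ω | ω.1 ∉ X2} = 0 := by
    refine hnull _ (measurable_fst mX2.compl) ?_
    have : (tr (G := GG) n Ξ ⁻¹' {ω | ω.1 ∉ X2}) = ∅ := by
      ext ω
      simp only [mem_empty_iff_false, iff_false]
      intro h
      exact h (hco.ΞX (ω.2 1))
    rw [this, measure_empty]
  obtain ⟨s, η', hrel, hη'⟩ := htr2 GG KK (Hn GG n) (Mn KK n) qq QQ hS.q_cont
    (htgt GG KK lamK qq cc QQ X0 hS n).fst_smul X2 mX2 k k' (D j) (trM (G := GG) n Ξ ζ) hW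
    hpar hX2' hgen hdig
  have hpr := hrel.w0.prob
  have hsB : s ∈ B := by
    by_contra hs
    have h1 : η' univ = 0 := by
      refine measure_mono_null ?_ (measure_union_null hrel.fib hη')
      intro ω _
      by_cases h2 : ω.1.1 = s
      · right
        intro h3
        have h4 : ω.1.1 ∈ B := h3.2
        rw [h2] at h4
        exact hs h4
      · exact Or.inl h2
    rw [measure_univ] at h1
    exact one_ne_zero h1
  refine hG.no s hsB j n k k' η' hrel (measure_mono_null ?_ hη')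
  intro ω hω h
  exact hω h.1

end

theorem core_of (hsys : IsSys GG KK lamK qq cc QQ XX0) (htopo : S_topo) (hcnt : S_cnt)
    (hclC : S_clC) (hacx : S_acx) (hnull : S_null) (htgt : S_tgt) (hycl : S_ycl)
    (hyex : S_yex) (htrm : S_trm) (htra : S_tra) (htrc : S_trc) (htr2 : S_tr2) (hln : S_ln) :
    Core := by
  obtain ⟨X0, B, D, hG⟩ := good_of hsys htopo hcnt hclC hacx hnull htgt
  refine ⟨X0, B, hG.sys, hG.gB.measurableSet, hG.dB.nonempty, ?_⟩
  intro Γ Y _ _ _ _ _ _ _ _ _ α β hbi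
  exact no_bi hG hycl hyex htrm htra htrc htr2 htgt hln hbi

end Pool.Agent.H646.CS
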