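import Pool.Agent.H646.CR.Conc

set_option autoImplicit false

/-!
# Countable Borel equivalence relations which are not bireducible with a compact action: definitions

Paper proof: see `Pool/Agent/H646/CS/PLAN.md`.  The basic notions (`P`, `en`, `dn`, `b2r`, `IsPD`,
`mu`, `IsSys`) and the concrete system are those of `Pool.Agent.H646.CR`.
-/

namespace Pool.Agent.H646.CS

open MeasureTheory ProbabilityTheory Set Topology TopologicalSpace Filter
open Pool.Agent.H646.CR (P en en_surj dn b2r IsPD mu IsSys)
open scoped ENNReal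

/-- Label arrays: `L g u = true` means that the point with name `g` is `u •` the base point. -/
abbrev Lab (G H : Type) : Type := G → H → Bool

/-- State space of the labelled processes: base point (in the target system, on which `H` acts),
point of the source system (on which `G` acts), labels. -/
abbrev St (G K H M : Type) : Type := (P × M) × ((P × K) × Lab G H)

/-- The target systems: `H` acts on `P × M` over `P`, preserving the probability measure `m` in each
fibre. -/
structure IsTgt (H M : Type) [Group H] [Countable H] [TopologicalSpace M] [CompactSpace M]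
    [MetrizableSpace M] [MeasurableSpace M] [BorelSpace M]
    [MulAction H (P × M)] [ContinuousConstSMul H (P × M)] (m : Measure M) : Prop where
  prob : IsProbabilityMeasure m
  fst_smul : ∀ (h : H) (x : P × M), (h • x).1 = x.1
  pres : ∀ (h : H) (s : P), Measure.map (fun k => (h • ((s, k) : P × M)).2) m = m

section proc

variable {G K H M : Type} [Group G] [Countable G] [TopologicalSpace K] [CompactSpace K]
  [MetrizableSpace K] [MeasurableSpace K] [BorelSpace K]
  [MulAction G (P × K)] [ContinuousConstSMul G (P × K)]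
  [Group H] [Countable H] [TopologicalSpace M] [CompactSpace M]
  [MetrizableSpace M] [MeasurableSpace M] [BorelSpace M]
  [MulAction H (P × M)] [ContinuousConstSMul H (P × M)]

/-- Change of base point for label arrays. -/
def shL (g : G) (u : H) (L : Lab G H) : Lab G H := fun h w => L (h * g) (w * u)

/-- Change of base point for states. -/
def T (g : G) (u : H) (ω : St G K H M) : St G K H M := (u • ω.1, (g • ω.2.1, shL g u ω.2.2))

/-- The common properties of the labelled processes. -/
structure W0 (η : Measure (St G K H M)) : Prop where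
  prob : IsProbabilityMeasure η
  lab_one : η {ω | ω.2.2 1 1 = false} = 0
  lab_uniq : ∀ (g : G) (u w : H), u ≠ w → η {ω | ω.2.2 g u = true ∧ ω.2.2 g w = true} = 0
  inv : ∀ (g : G) (u : H) (D : Set (St G K H M)), MeasurableSet D →
    η ({ω | ω.2.2 g u = true} ∩ T g u ⁻¹' D) = η ({ω | ω.2.2 g⁻¹ u⁻¹ = true} ∩ D)

/-- The closed event that the label of `g` is the one predicted by the continuous function
number `l`. -/
def FX (l : ℕ) (g : G) : Set (St G K H M) :=
  {ω | ∃ m : ℕ, |dn (P × M) l ω.1 - m| ≤ 1 / 4 ∧ ω.2.2 g (en H m) = true}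

/-- The closed event that the digit is the one predicted by the continuous function
number `l`. -/
def HX (q : P × K → Bool) (l : ℕ) : Set (St G K H M) :=
  {ω | |dn (P × M) l ω.1 - b2r (q ω.2.1)| ≤ 1 / 4}

/-- The index set of the data: `(i, false)` belongs to `Q i`, `(i, true)` to its inverse. -/
abbrev Ix : Type := Fin 4 × Bool

/-- The elements with index in `Ix`. -/
def Q8 (Q : Fin 4 → G) (i : Ix) : G := if i.2 then (Q i.1)⁻¹ else Q i.1

/-- The system over the parameter `t` is approximately contained in the target system over `s`. -/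
structure Rel0 (ε : ℝ) (q : P × K → Bool) (Q : Fin 4 → G) (l : Ix → ℕ) (l' : ℕ)
    (t s : P) (η : Measure (St G K H M)) : Prop where
  w0 : W0 η
  fib : η {ω | ω.1.1 ≠ s} = 0
  par : η {ω | ω.2.1.1 ≠ t} = 0
  gen : ∀ i, ENNReal.ofReal (1 - ε) ≤ η (FX (l i) (Q8 Q i))
  dig : ENNReal.ofReal (1 - ε) ≤ η (HX q l')

/-- The same, and the law of the base point has bounded density. -/
def RelC (m : Measure M) (q : P × K → Bool) (Q : Fin 4 → G) (C : ℕ) (l : Ix → ℕ) (l' : ℕ)
    (t s : P) (η : Measure (St G K H M)) : Prop :=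
  Rel0 (1 / 10 ^ 7) q Q l l' t s η ∧ Measure.map Prod.fst η ≤ (C : ℝ≥0∞) • mu m s

/-- The singular part of the law of the base point has mass at least one half. -/
def Sing (m : Measure M) (s : P) (η : Measure (St G K H M)) : Prop :=
  2⁻¹ ≤ (Measure.map Prod.fst η).singularPart (mu m s) univ

/-- State space of couplings (the real coordinate is an auxiliary height). -/
abbrev Cp (G K H M : Type) : Type :=
  ((P × M) × (((P × K) × Lab G H) × ((P × K) × Lab G H))) × ℝ

/-- The height condition. -/
def Ht (F F' : P × M → ℝ≥0∞) (x : P × M) (r : ℝ) : Prop :=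
  0 < r ∧ ENNReal.ofReal r * F x < 1 ∧ ENNReal.ofReal r * F' x < 1

/-- Change of base point for couplings. -/
def TC (g : G) (u : H) (ω : Cp G K H M) : Cp G K H M :=
  ((u • ω.1.1, ((g • ω.1.2.1.1, shL g u ω.1.2.1.2), (g • ω.1.2.2.1, shL g u ω.1.2.2.2))), ω.2)

/-- Both processes have the label `u` at `g`, and the height condition holds at both points. -/
def NC (F F' : P × M → ℝ≥0∞) (g : G) (u : H) : Set (Cp G K H M) :=
  {ω | ω.1.2.1.2 g u = true ∧ ω.1.2.2.2 g u = true ∧ Ht F F' ω.1.1 ω.2 ∧
    Ht F F' (u • ω.1.1) ω.2}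

end proc

section target

variable (G K : Type) [Group G] [Countable G] [TopologicalSpace K] [CompactSpace K]
  [MetrizableSpace K] [MeasurableSpace K] [BorelSpace K]
  [MulAction G (P × K)] [ContinuousConstSMul G (P × K)]

/-- The group of the target system number `n`. -/
abbrev Hn (G : Type) (n : ℕ) : Type := G × Multiplicative (ZMod (n + 1))

/-- The space of the target system number `n`. -/
abbrev Mn (K : Type) (n : ℕ) : Type := K × ZMod (n + 1)

variable {G K}

noncomputable instance (n : ℕ) : MulAction (Hn G n) (P × Mn K n) where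
  smul h x := ((h.1 • ((x.1, x.2.1) : P × K)).1,
    ((h.1 • ((x.1, x.2.1) : P × K)).2, Multiplicative.toAdd h.2 + x.2.2))
  one_smul x := by
    show (((1 : G) • ((x.1, x.2.1) : P × K)).1,
      (((1 : G) • ((x.1, x.2.1) : P × K)).2, Multiplicative.toAdd 1 + x.2.2)) = x
    rw [one_smul, toAdd_one, zero_add]
  mul_smul h₁ h₂ x := by
    show (((h₁.1 * h₂.1) • ((x.1, x.2.1) : P × K)).1,
      (((h₁.1 * h₂.1) • ((x.1, x.2.1) : P × K)).2, Multiplicative.toAdd (h₁.2 * h₂.2) + x.2.2)) =
      ((h₁.1 • (((h₂.1 • ((x.1, x.2.1) : P × K)).1, (h₂.1 • ((x.1, x.2.1) : P × K)).2) : P × K)).1,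
      ((h₁.1 • (((h₂.1 • ((x.1, x.2.1) : P × K)).1, (h₂.1 • ((x.1, x.2.1) : P × K)).2) :
        P × K)).2, Multiplicative.toAdd h₁.2 + (Multiplicative.toAdd h₂.2 + x.2.2)))
    rw [mul_smul, toAdd_mul, add_assoc]

omit [Countable G] [TopologicalSpace K] [CompactSpace K] [MetrizableSpace K] [MeasurableSpace K]
  [BorelSpace K] [ContinuousConstSMul G (P × K)] in
theorem smul_Mn (n : ℕ) (h : Hn G n) (x : P × Mn K n) :
    h • x = ((h.1 • ((x.1, x.2.1) : P × K)).1,
    ((h.1 • ((x.1, x.2.1) : P × K)).2, Multiplicative.toAdd h.2 + x.2.2)) := rfl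

instance (n : ℕ) : ContinuousConstSMul (Hn G n) (P × Mn K n) where
  continuous_const_smul h := by
    have h1 : Continuous fun x : P × Mn K n => h.1 • ((x.1, x.2.1) : P × K) :=
      (continuous_const_smul h.1).comp (continuous_fst.prodMk (continuous_fst.comp continuous_snd))
    exact (continuous_fst.comp h1).prodMk ((continuous_snd.comp h1).prodMk
      ((continuous_of_discreteTopology (f := fun z : ZMod (n + 1) =>
        Multiplicative.toAdd h.2 + z)).comp (continuous_snd.comp continuous_snd)))

/-- The measure of the target system number `n`. -/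
noncomputable def lamn (lam : Measure K) (n : ℕ) : Measure (Mn K n) :=
  lam.prod (((n : ℝ≥0∞) + 1)⁻¹ • Measure.count)

end target

section lim

variable {G K : Type} [Group G] [Countable G] [TopologicalSpace K] [CompactSpace K]
  [MetrizableSpace K] [MeasurableSpace K] [BorelSpace K]
  [MulAction G (P × K)] [ContinuousConstSMul G (P × K)]
  {Z : Type} [TopologicalSpace Z] [CompactSpace Z] [MetrizableSpace Z] [MeasurableSpace Z]
  [BorelSpace Z]

/-- The closed event that the point with name `g` is the one predicted by the continuous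
function number `l`. -/
def FY (act : ℕ → Z → Z) (l : ℕ) (g : G) : Set ((P × K) × (G → Z)) :=
  {ω | ∃ m : ℕ, |dn Z l (ω.2 1) - m| ≤ 1 / 4 ∧ ω.2 g = act m (ω.2 1)}

/-- The closed event that the digit is the one predicted by the continuous function
number `l`. -/
def HY (q : P × K → Bool) (l : ℕ) : Set ((P × K) × (G → Z)) :=
  {ω | |dn Z l (ω.2 1) - b2r (q ω.1)| ≤ 1 / 4}

/-- The processes with values in the realization. -/
structure LimW (act : ℕ → Z → Z) (q : P × K → Bool) (Q : Fin 4 → G) (l : Ix → ℕ) (l' : ℕ)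
    (d : P) (ζ : Measure ((P × K) × (G → Z))) : Prop where
  prob : IsProbabilityMeasure ζ
  inv : ∀ h : G, Measure.map (fun ω => (h • ω.1, fun g => ω.2 (g * h))) ζ = ζ
  par : ζ {ω | ω.1.1 ≠ d} = 0
  gen : ∀ i, ENNReal.ofReal (1 - 1 / 10 ^ 11) ≤ ζ (FY act (l i) (Q8 Q i))
  dig : ENNReal.ofReal (1 - 1 / 10 ^ 11) ≤ ζ (HY q l')

/-- The labelled process of a process with values in `Z`; `Ξ : Z → (P × K) × ℕ` is injective, and
the labels are only given if both points have a number at most `n`. -/
noncomputable def tr (n : ℕ) (Ξ : Z → (P × K) × ℕ) (ω : (P × K) × (G → Z)) :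
    St G K (Hn G n) (Mn K n) :=
  (((Ξ (ω.2 1)).1.1, ((Ξ (ω.2 1)).1.2, ((Ξ (ω.2 1)).2 : ZMod (n + 1)))), (ω.1, fun g u =>
    @decide ((Ξ (ω.2 1)).2 ≤ n ∧ (Ξ (ω.2 g)).2 ≤ n ∧ (Ξ (ω.2 g)).1 = u.1 • (Ξ (ω.2 1)).1 ∧
      (((Ξ (ω.2 g)).2 : ZMod (n + 1)) = Multiplicative.toAdd u.2 +
        ((Ξ (ω.2 1)).2 : ZMod (n + 1)))) (Classical.propDecidable _)))

/-- The law of the labelled process. -/
noncomputable def trM (n : ℕ) (Ξ : Z → (P × K) × ℕ) (ζ : Measure ((P × K) × (G → Z))) :
    Measure (St G K (Hn G n) (Mn K n)) :=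
  (ζ {ω | (Ξ (ω.2 1)).2 ≤ n})⁻¹ • Measure.map (tr n Ξ) (ζ.restrict {ω | (Ξ (ω.2 1)).2 ≤ n})

/-- A coordinatisation of the values: `X1` is an invariant Borel subset of the system on which the
action is free, `Ξ` is an injective Borel map, and the partial maps `act k` move points within
orbits. -/
structure IsCo (G : Type) [Group G] [MulAction G (P × K)] (act : ℕ → Z → Z) (X1 : Set (P × K))
    (Ξ : Z → (P × K) × ℕ) : Prop where
  mX1 : MeasurableSet X1
  X1_inv : ∀ (g : G) (x : P × K), x ∈ X1 → g • x ∈ X1
  X1_free : ∀ (g : G) (x : P × K), x ∈ X1 → g • x = x → g = 1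
  mΞ : Measurable Ξ
  inj : Function.Injective Ξ
  ΞX : ∀ z, (Ξ z).1 ∈ X1
  orb : ∀ z k, ∃ g : G, (Ξ (act k z)).1 = g • (Ξ z).1

end lim

end Pool.Agent.H646.CS
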