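import Pool.Agent.H646.CS.Stm
import Pool.Agent.H646.CR.PClosed
import Pool.Agent.H646.CR.PUsc

/-!
# Project CS: closedness of `Rel0`
-/

set_option autoImplicit false
set_option linter.unusedSectionVars false
set_option linter.style.haveILetI false

namespace Pool.Agent.H200.CScl0

open MeasureTheory ProbabilityTheory Set Topology TopologicalSpace Filter
open Pool.Agent.H646.CR (P en en_surj dn b2r IsPD mu IsSys S_usc)
open Pool.Agent.H646.CS
open Pool.Agent.H154.CRclosed (closed_null cont_ind cont_int closed_inv)
open scoped ENNReal BoundedContinuousFunction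

theorem usc : S_usc := Pool.Agent.H803.CR.Usc.holds

section sys

variable {G K H M : Type} [Group G] [Countable G] [TopologicalSpace K] [CompactSpace K]
  [MetrizableSpace K] [MeasurableSpace K] [BorelSpace K]
  [MulAction G (P × K)] [ContinuousConstSMul G (P × K)]
  [Group H] [Countable H] [TopologicalSpace M] [CompactSpace M]
  [MetrizableSpace M] [MeasurableSpace M] [BorelSpace M]
  [MulAction H (P × M)] [ContinuousConstSMul H (P × M)]

theorem clopen_lab (g : G) (u : H) (b : Bool) : IsClopen {ω : St G K H M | ω.2.2 g u = b} := by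
  have hc : Continuous fun ω : St G K H M => ω.2.2 g u :=
    (continuous_apply u).comp ((continuous_apply g).comp (continuous_snd.comp continuous_snd))
  exact (isClopen_discrete {b}).preimage hc

theorem clopen_lab2 (g : G) (u w : H) :
    IsClopen {ω : St G K H M | ω.2.2 g u = true ∧ ω.2.2 g w = true} :=
  (clopen_lab g u true).inter (clopen_lab g w true)

theorem cont_T (g : G) (u : H) : Continuous (T g u : St G K H M → St G K H M) := by
  unfold T shL
  refine Continuous.prodMk ?_ (Continuous.prodMk ?_ ?_)
  · exact (continuous_const_smul u).comp continuous_fst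
  · exact (continuous_const_smul g).comp (continuous_fst.comp continuous_snd)
  · refine continuous_pi fun h => continuous_pi fun w => ?_
    exact (continuous_apply (w * u)).comp ((continuous_apply (h * g)).comp
      (continuous_snd.comp continuous_snd))

theorem closed_FX (l : ℕ) (g : G) : IsClosed (FX l g : Set (St G K H M)) := by
  obtain ⟨N, hN⟩ : ∃ N : ℕ, ∀ x : P × M, |dn (P × M) l x| ≤ N := by
    obtain ⟨N, hN⟩ := exists_nat_ge ‖dn (P × M) l‖
    exact ⟨N, fun x => le_trans ((dn (P × M) l).norm_coe_le_norm x) hN⟩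
  have h1 : (FX l g : Set (St G K H M)) = ⋃ m ∈ Finset.range (N + 2),
      {ω : St G K H M | |dn (P × M) l ω.1 - m| ≤ 1 / 4 ∧ ω.2.2 g (en H m) = true} := by
    ext ω
    simp only [FX, mem_ofPred_eq, mem_iUnion, Finset.mem_range, exists_prop]
    constructor
    · rintro ⟨m, hm1, hm2⟩
      refine ⟨m, ?_, hm1, hm2⟩
      have h2 := hN ω.1
      have h3 := (abs_le.1 hm1).1
      have h4 := (abs_le.1 h2).2
      have h5 : (m : ℝ) < ((N + 2 : ℕ) : ℝ) := by
        push_cast
        linarith
      exact_mod_cast h5
    · rintro ⟨m, -, hm1, hm2⟩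
      exact ⟨m, hm1, hm2⟩
  rw [h1]
  refine isClosed_biUnion_finset fun m _ => ?_
  have h2 : Continuous fun ω : St G K H M => |dn (P × M) l ω.1 - (m : ℝ)| :=
    (((dn (P × M) l).continuous.comp continuous_fst).sub continuous_const).abs
  exact IsClosed.inter (isClosed_le h2 continuous_const) (clopen_lab g (en H m) true).isClosed

theorem closed_HX {q : P × K → Bool} (hq : Continuous q) (l : ℕ) :
    IsClosed (HX q l : Set (St G K H M)) := by
  refine isClosed_le ?_ continuous_const
  have hb : Continuous b2r := continuous_of_discreteTopology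
  exact (((dn (P × M) l).continuous.comp continuous_fst).sub
    (hb.comp (hq.comp (continuous_fst.comp continuous_snd)))).abs

/-- the base point is in the fibre over `s` -/
theorem closed_fib : IsClosed {p : P × ProbabilityMeasure (St G K H M) |
    (p.2 : Measure (St G K H M)) {ω | ω.1.1 ≠ p.1} = 0} := by
  have e : {p : P × ProbabilityMeasure (St G K H M) |
      (p.2 : Measure (St G K H M)) {ω | ω.1.1 ≠ p.1} = 0} =
      ⋂ n : ℕ, ⋂ b : Bool, ({p : P × ProbabilityMeasure (St G K H M) | p.1 n = b}ᶜ ∪ Prod.snd ⁻¹' {η : ProbabilityMeasure (St G K H M) |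
        (η : Measure (St G K H M)) {ω | ω.1.1 n ≠ b} = 0}) := by
    ext ⟨s, η⟩
    simp only [mem_ofPred_eq, mem_iInter, mem_union, mem_compl_iff, mem_preimage]
    have h1 : {ω : St G K H M | ω.1.1 ≠ s} = ⋃ n : ℕ, {ω : St G K H M | ω.1.1 n ≠ s n} := by
      ext ω
      simp only [mem_ofPred_eq, mem_iUnion]
      exact Function.ne_iff
    rw [h1, measure_iUnion_null_iff]
    constructor
    · intro h n b
      by_cases hb : s n = b
      · right
        rw [← hb]
        exact h n
      · left
        exact hb
    · intro h n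
      rcases h n (s n) with h2 | h2
      · exact absurd rfl h2
      · exact h2
  rw [e]
  refine isClosed_iInter fun n => isClosed_iInter fun b => IsClosed.union ?_ ?_
  · have hc : Continuous fun p : P × ProbabilityMeasure (St G K H M) => p.1 n :=
      (continuous_apply n).comp continuous_fst
    exact ((isClopen_discrete {b}).preimage hc).compl.isClosed
  · refine IsClosed.preimage continuous_snd (closed_null usc ?_)
    have hc : Continuous fun ω : St G K H M => ω.1.1 n :=
      (continuous_apply n).comp (continuous_fst.comp continuous_fst)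
    exact ((isClopen_discrete {b}).preimage hc).compl.isOpen

end sys

theorem holds : S_cl0 := by
  intro G K H M _ _ _ _ _ _ _ _ _ _ _ _ _ _ _ _ _ _ q Q hq ε l l' t
  have e : {p : P × ProbabilityMeasure (St G K H M) |
      Rel0 ε q Q l l' t p.1 (p.2 : Measure (St G K H M))} =
      ((Prod.snd ⁻¹' {η : ProbabilityMeasure (St G K H M) |
          (η : Measure (St G K H M)) {ω | ω.2.2 1 1 = false} = 0}) ∩
      ((Prod.snd ⁻¹' (⋂ (g : G) (u : H) (w : H) (_ : u ≠ w),
        {η : ProbabilityMeasure (St G K H M) |
          (η : Measure (St G K H M)) {ω | ω.2.2 g u = true ∧ ω.2.2 g w = true} = 0})) ∩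
      ((Prod.snd ⁻¹' (⋂ (g : G) (u : H),
        {η : ProbabilityMeasure (St G K H M) | ∀ D : Set (St G K H M), MeasurableSet D →
          (η : Measure (St G K H M)) ({ω | ω.2.2 g u = true} ∩ T g u ⁻¹' D)
            = (η : Measure (St G K H M)) ({ω | ω.2.2 g⁻¹ u⁻¹ = true} ∩ D)})) ∩
      ({p | (p.2 : Measure (St G K H M)) {ω | ω.1.1 ≠ p.1} = 0} ∩
      ((Prod.snd ⁻¹' {η : ProbabilityMeasure (St G K H M) |
          (η : Measure (St G K H M)) {ω | ω.2.1.1 ≠ t} = 0}) ∩
      ((Prod.snd ⁻¹' (⋂ i : Ix, {η : ProbabilityMeasure (St G K H M) |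
          ENNReal.ofReal (1 - ε) ≤ (η : Measure (St G K H M)) (FX (l i) (Q8 Q i))})) ∩
      (Prod.snd ⁻¹' {η : ProbabilityMeasure (St G K H M) |
          ENNReal.ofReal (1 - ε) ≤ (η : Measure (St G K H M)) (HX q l')}))))))) := by
    ext ⟨s, η⟩
    simp only [mem_ofPred_eq, mem_inter_iff, mem_preimage, mem_iInter]
    constructor
    · intro hr
      exact ⟨hr.w0.lab_one, hr.w0.lab_uniq, hr.w0.inv, hr.fib, hr.par, hr.gen, hr.dig⟩
    · rintro ⟨h1, h2, h3, h4, h5, h6, h7⟩
      exact ⟨⟨inferInstance, h1, h2, h3⟩, h4, h5, h6, h7⟩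
  rw [e]
  refine IsClosed.inter ?_ (IsClosed.inter ?_ (IsClosed.inter ?_ (IsClosed.inter ?_
    (IsClosed.inter ?_ (IsClosed.inter ?_ ?_)))))
  · exact (closed_null usc (clopen_lab 1 1 false).isOpen).preimage continuous_snd
  · refine IsClosed.preimage continuous_snd ?_
    refine isClosed_iInter fun g => isClosed_iInter fun u => isClosed_iInter fun w =>
      isClosed_iInter fun _ => ?_
    exact closed_null usc (clopen_lab2 g u w).isOpen
  · refine IsClosed.preimage continuous_snd ?_
    refine isClosed_iInter fun g => isClosed_iInter fun u => ?_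
    exact closed_inv (clopen_lab g u true) (clopen_lab g⁻¹ u⁻¹ true) (cont_T g u)
  · exact closed_fib
  · refine IsClosed.preimage continuous_snd ?_
    refine closed_null usc ?_
    have h1 : IsClosed {ω : St G K H M | ω.2.1.1 = t} :=
      isClosed_eq (continuous_fst.comp (continuous_fst.comp continuous_snd)) continuous_const
    exact h1.isOpen_compl
  · refine IsClosed.preimage continuous_snd ?_
    exact isClosed_iInter fun i => usc (St G K H M) _ _ (closed_FX (l i) (Q8 Q i))
  · exact (usc (St G K H M) _ _ (closed_HX hq l')).preimage continuous_snd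

end Pool.Agent.H200.CScl0
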