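import Pool.Agent.H646.CS.Stm

set_option autoImplicit false

/-!
# `S_cnt` from `S_pair`
-/

namespace Pool.Agent.H177.CScnt

open MeasureTheory ProbabilityTheory Set Topology TopologicalSpace Filter
open Pool.Agent.H646.CR (P en en_surj dn b2r IsPD mu IsSys)
open Pool.Agent.H646.CS
open scoped ENNReal

/-- a compact metrizable space is second countable -/
lemma sc_of_compact (K : Type) [TopologicalSpace K] [CompactSpace K] [MetrizableSpace K] :
    SecondCountableTopology K := by
  let _ := metrizableSpaceMetric K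
  infer_instance

lemma pt (a b : ℝ≥0∞) (ha : a < ⊤) (hb : b < ⊤) : a ≤ min a b + edist a.toReal b.toReal := by
  rcases le_total a b with h | h
  · rw [min_eq_left h]
    exact le_self_add
  · rw [min_eq_right h, edist_dist, Real.dist_eq]
    have h1 : b.toReal ≤ a.toReal := ENNReal.toReal_mono ha.ne h
    rw [abs_of_nonneg (sub_nonneg.2 h1), ENNReal.ofReal_sub _ ENNReal.toReal_nonneg,
      ENNReal.ofReal_toReal ha.ne, ENNReal.ofReal_toReal hb.ne, add_tsub_cancel_of_le h]

theorem holds (hp : S_pair) : S_cnt := by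
  intro G K H M _ _ _ _ _ _ _ _ _ _ _ _ _ _ _ _ _ _ lam q c Q X0 hsys m hm C l l' s
  have := hm.prob
  have : SecondCountableTopology M := sc_of_compact M
  have hμ : IsProbabilityMeasure (mu m s) := by
    unfold mu
    infer_instance
  have key : ∀ t : ↥{t | ∃ η : Measure (St G K H M), RelC m q Q C l l' t s η},
      ∃ (η : Measure (St G K H M)) (F : P × M → ℝ≥0∞), Rel0 (1 / 10 ^ 7) q Q l l' t.1 s η ∧
        Measurable F ∧ (∀ x, F x < ⊤) ∧ Measure.map Prod.fst η = (mu m s).withDensity F := by
    rintro ⟨t, η, hη, hle⟩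
    have := hη.w0.prob
    have hac : Measure.map Prod.fst η ≪ mu m s :=
      (Measure.absolutelyContinuous_of_le hle).trans Measure.smul_absolutelyContinuous
    have : IsProbabilityMeasure (Measure.map Prod.fst η) :=
      Measure.isProbabilityMeasure_map measurable_fst.aemeasurable
    have h1 := Measure.withDensity_rnDeriv_eq (Measure.map Prod.fst η) (mu m s) hac
    have hm1 : Measurable ((Measure.map Prod.fst η).rnDeriv (mu m s)) :=
      Measure.measurable_rnDeriv _ _
    refine ⟨η, fun x => (((Measure.map Prod.fst η).rnDeriv (mu m s) x).toNNReal : ℝ≥0∞), hη,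
      hm1.ennreal_toNNReal.coe_nnreal_ennreal, fun x => ENNReal.coe_lt_top, ?_⟩
    rw [← h1]
    apply withDensity_congr_ae
    have h2 := Measure.rnDeriv_lt_top (Measure.map Prod.fst η) (mu m s)
    rw [h1]
    filter_upwards [h2] with x hx
    exact (ENNReal.coe_toNNReal hx.ne).symm
  choose η F h1 h2 h3 h4 using key
  have hF1 : ∀ t, ∫⁻ x, F t x ∂(mu m s) = 1 := by
    intro t
    have := (h1 t).w0.prob
    rw [← setLIntegral_univ, ← withDensity_apply _ MeasurableSet.univ, ← h4 t,
      Measure.map_apply measurable_fst MeasurableSet.univ, preimage_univ, measure_univ]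
  have hint : ∀ t, Integrable (fun x => (F t x).toReal) (mu m s) := by
    intro t
    apply integrable_toReal_of_lintegral_ne_top (h2 t).aemeasurable
    rw [hF1 t]
    exact ENNReal.one_ne_top
  have hsep : ∀ t t', edist ((hint t).toL1 _) ((hint t').toL1 _) ≤ ENNReal.ofReal (1 / 100) →
      t = t' := by
    intro t t' hd
    rw [Integrable.edist_toL1_toL1] at hd
    apply Subtype.ext
    apply hp G K H M lam q c Q X0 hsys m hm l l' t.1 t'.1 s (η t) (η t') (F t) (F t') (h1 t)
      (h1 t') (h2 t) (h2 t') (h3 t) (h3 t') (h4 t) (h4 t')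
    have h5 : (1 : ℝ≥0∞) ≤ (∫⁻ x, min (F t x) (F t' x) ∂(mu m s)) + ENNReal.ofReal (1 / 100) := by
      calc (1 : ℝ≥0∞) = ∫⁻ x, F t x ∂(mu m s) := (hF1 t).symm
        _ ≤ ∫⁻ x, (min (F t x) (F t' x) + edist (F t x).toReal (F t' x).toReal) ∂(mu m s) :=
          lintegral_mono fun x => pt _ _ (h3 t x) (h3 t' x)
        _ = (∫⁻ x, min (F t x) (F t' x) ∂(mu m s)) +
            ∫⁻ x, edist (F t x).toReal (F t' x).toReal ∂(mu m s) :=
          lintegral_add_left ((h2 t).min (h2 t')) _
        _ ≤ _ := by gcongr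
    have h6 : ENNReal.ofReal (99 / 100) = 1 - ENNReal.ofReal (1 / 100) := by
      rw [← ENNReal.ofReal_one, ← ENNReal.ofReal_sub _ (by norm_num)]
      norm_num
    rw [h6]
    exact tsub_le_iff_right.2 h5
  have hcnt : Countable ↥{t | ∃ η : Measure (St G K H M), RelC m q Q C l l' t s η} := by
    have : Fact ((1 : ℝ≥0∞) ≠ ∞) := ⟨ENNReal.one_ne_top⟩
    have hpd : Pairwise (Function.onFun Disjoint
        (fun t => Metric.eball ((hint t).toL1 _) (ENNReal.ofReal (1 / 200)))) := by
      intro t t' hne
      show Disjoint _ _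
      rw [Set.disjoint_left]
      intro g hg hg'
      apply hne
      apply hsep
      have e : ENNReal.ofReal (1 / 100) = ENNReal.ofReal (1 / 200) + ENNReal.ofReal (1 / 200) := by
        rw [← ENNReal.ofReal_add (by norm_num) (by norm_num)]
        norm_num
      rw [e]
      refine le_trans (edist_triangle_left _ _ g) (add_le_add ?_ ?_)
      · exact (Metric.mem_eball.1 hg).le
      · exact (Metric.mem_eball.1 hg').le
    exact hpd.countable_of_isOpen_disjoint (fun t => Metric.isOpen_eball)
      (fun t => ⟨_, Metric.mem_eball_self (by positivity)⟩)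
  exact Set.countable_coe_iff.1 hcnt

end Pool.Agent.H177.CScnt
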