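import Pool.Agent.H646.CS.Stm2

/-! # Project CS of helper646, piece `S_fin`: from the core theorem to the final statement (helper402)

The first section is copied from `CR/PFin1.lean` (helper675). -/

set_option autoImplicit false

namespace Pool.Agent.H402.CSfin

open MeasureTheory ProbabilityTheory Set Topology TopologicalSpace Filter
open scoped ENNReal
open Pool.Agent.H646.CR (P en en_surj mu IsSys GG KK lamK qq cc QQ)
open Pool.Agent.H646.CS (IsCBER Aperiodic IsSmooth Reduces CompactRealizable Final IsBi Core S_fin)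

section sys

variable {q : P × KK → Bool} {c : ℕ → GG} {Q : Fin 4 → GG} {X0 : Set (P × KK)} {lam : Measure KK}

theorem meas_smul (g : GG) : Measurable (fun x : P × KK => g • x) :=
  (continuous_const_smul g).measurable

theorem mu_map (lam : Measure KK) [IsProbabilityMeasure lam] (s : P) :
    mu lam s = Measure.map (Prod.mk s) lam := by
  unfold mu
  rw [Measure.dirac_prod]

theorem mu_prob (lam : Measure KK) [IsProbabilityMeasure lam] (s : P) :
    IsProbabilityMeasure (mu lam s) := by
  unfold mu
  infer_instance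

theorem mu_inv (hS : IsSys GG KK lam q c Q X0) (s : P) (g : GG) :
    Measure.map (fun x => g • x) (mu lam s) = mu lam s := by
  have := hS.prob
  have hms : Measurable (Prod.mk s : KK → P × KK) := measurable_prodMk_left
  rw [mu_map, Measure.map_map (meas_smul g) hms]
  have h2 : Measurable (fun k : KK => (g • ((s, k) : P × KK)).2) :=
    measurable_snd.comp ((meas_smul g).comp hms)
  have e : ((fun x : P × KK => g • x) ∘ Prod.mk s) =
      Prod.mk s ∘ (fun k : KK => (g • ((s, k) : P × KK)).2) := by
    funext k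
    refine Prod.ext ?_ rfl
    exact hS.fst_smul g (s, k)
  rw [e, ← Measure.map_map hms h2, hS.pres g s]

theorem mu_X0 (hS : IsSys GG KK lam q c Q X0) (s : P) : mu lam s X0ᶜ = 0 := by
  have := hS.prob
  have hms : Measurable (Prod.mk s : KK → P × KK) := measurable_prodMk_left
  rw [mu_map, Measure.map_apply hms hS.X0_meas.compl]
  exact hS.X0_full s

theorem mu_fst (lam : Measure KK) [IsProbabilityMeasure lam] (s : P) :
    ∀ᵐ x ∂(mu lam s), x.1 = s := by
  have hms : Measurable (Prod.mk s : KK → P × KK) := measurable_prodMk_left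
  have hm : MeasurableSet {x : P × KK | x.1 = s} := measurable_fst (measurableSet_singleton s)
  rw [mu_map, ae_map_iff hms.aemeasurable hm]
  exact Eventually.of_forall fun k => rfl

theorem mu_smul_singleton (hS : IsSys GG KK lam q c Q X0) (s : P) (g : GG) (x : P × KK) :
    mu lam s {g • x} = mu lam s {x} := by
  have h1 := congrArg (fun m : Measure (P × KK) => m {g • x}) (mu_inv hS s g)
  rw [Measure.map_apply (meas_smul g) (measurableSet_singleton _)] at h1
  rw [← h1]
  congr 1
  ext y
  simp

theorem smul_inj (hS : IsSys GG KK lam q c Q X0) (x : P × KK) (hx : x ∈ X0) :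
    Function.Injective (fun g : GG => g • x) := by
  intro g h e
  simp only at e
  have h1 : (h⁻¹ * g) • x = x := by
    rw [mul_smul, e, inv_smul_smul]
  have h2 := hS.X0_free _ x hx h1
  rwa [inv_mul_eq_one, eq_comm] at h2

theorem mu_atom (hS : IsSys GG KK lam q c Q X0) (s : P) (x : P × KK) (hx : x ∈ X0) :
    mu lam s {x} = 0 := by
  have := hS.prob
  have := hS.inf
  have := mu_prob lam s
  by_contra hne
  have hinj := smul_inj hS x hx
  have h1 : ∑' g : GG, mu lam s {g • x} = mu lam s (⋃ g : GG, {g • x}) := by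
    rw [measure_iUnion]
    · intro g h hgh
      rw [Function.onFun, disjoint_singleton]
      exact fun e => hgh (hinj e)
    · intro g
      exact measurableSet_singleton _
  simp_rw [mu_smul_singleton hS s _ x] at h1
  rw [ENNReal.tsum_const_eq_top_of_ne_zero hne] at h1
  exact measure_ne_top _ _ h1.symm

theorem mu_countable (hS : IsSys GG KK lam q c Q X0) (s : P) (C : Set (P × KK)) (hC : C.Countable)
    (hCX : C ⊆ X0) : mu lam s C = 0 := by
  have h1 : C = ⋃ x ∈ C, {x} := by simp
  rw [h1, measure_biUnion_null_iff hC]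
  intro x hx
  exact mu_atom hS s x (hCX hx)

/-- Invariant sets have measure zero or one. -/
theorem zero_one (hS : IsSys GG KK lam q c Q X0) (s : P) (A : Set (P × KK)) (hA : MeasurableSet A)
    (hinv : ∀ (g : GG) (x : P × KK), x ∈ A → g • x ∈ A) :
    mu lam s A = 0 ∨ mu lam s Aᶜ = 0 := by
  have := hS.prob
  have := mu_prob lam s
  by_cases h0 : mu lam s A = 0
  · exact Or.inl h0
  right
  set m := mu lam s with hm
  have hcp : IsProbabilityMeasure ((m A)⁻¹ • m.restrict A) := by
    constructor
    rw [Measure.smul_apply, Measure.restrict_apply_univ, smul_eq_mul,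
      ENNReal.inv_mul_cancel h0 (measure_ne_top _ _)]
  have hpre : ∀ g : GG, (fun x : P × KK => g • x) ⁻¹' A = A := by
    intro g
    ext x
    constructor
    · intro hx
      have := hinv g⁻¹ _ hx
      rwa [inv_smul_smul] at this
    · intro hx
      exact hinv g x hx
  have hue := hS.X0_ue ((m A)⁻¹ • m.restrict A) hcp ?_ ?_
  · have hfst : Measure.map Prod.fst ((m A)⁻¹ • m.restrict A) = Measure.dirac s := by
      ext D hD
      rw [Measure.map_apply measurable_fst hD, Measure.dirac_apply' _ hD]
      by_cases hs : s ∈ D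
      · rw [indicator_of_mem hs, Pi.one_apply]
        have : ((m A)⁻¹ • m.restrict A) (Prod.fst ⁻¹' D)ᶜ = 0 := by
          rw [Measure.smul_apply]
          have h1 : m (Prod.fst ⁻¹' D)ᶜ = 0 := by
            have h2 := mu_fst lam s
            rw [ae_iff] at h2
            refine measure_mono_null ?_ h2
            intro x hx h3
            apply hx
            show x.1 ∈ D
            rw [h3]
            exact hs
          have h2 : (m.restrict A) (Prod.fst ⁻¹' D)ᶜ = 0 :=
            le_antisymm ((Measure.restrict_apply_le _ _).trans h1.le) bot_le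
          rw [h2, smul_zero]
        exact (prob_compl_eq_zero_iff (measurable_fst hD)).1 this
      · rw [indicator_of_notMem hs]
        rw [Measure.smul_apply]
        have h1 : m (Prod.fst ⁻¹' D) = 0 := by
          have h2 := mu_fst lam s
          rw [ae_iff] at h2
          refine measure_mono_null ?_ h2
          intro x hx h3
          apply hs
          rw [← h3]
          exact hx
        have h2 : (m.restrict A) (Prod.fst ⁻¹' D) = 0 :=
          le_antisymm ((Measure.restrict_apply_le _ _).trans h1.le) bot_le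
        rw [h2, smul_zero]
    rw [hfst] at hue
    have h3 : ((m A)⁻¹ • m.restrict A) Aᶜ = m Aᶜ := by
      rw [hue]
      rfl
    rw [← h3, Measure.smul_apply, Measure.restrict_apply hA.compl]
    simp
  · intro g
    rw [Measure.map_smul]
    congr 1
    ext D hD
    rw [Measure.map_apply (meas_smul g) hD, Measure.restrict_apply (meas_smul g hD),
      Measure.restrict_apply hD]
    have h1 := congrArg (fun m : Measure (P × KK) => m (D ∩ A)) (mu_inv hS s g)
    rw [Measure.map_apply (meas_smul g) (hD.inter hA), preimage_inter, hpre g] at h1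
    exact h1
  · rw [Measure.smul_apply]
    have h2 : (m.restrict A) X0ᶜ = 0 :=
      le_antisymm ((Measure.restrict_apply_le _ _).trans (mu_X0 hS s).le) bot_le
    rw [h2, smul_zero]

end sys

/-- **Piece `S_fin`.** -/
theorem holds : S_fin := by
  intro hCore
  obtain ⟨X0, B, hS, hB, ⟨s, hs⟩, hcore⟩ := hCore
  have := hS.prob
  have := hS.inf
  have hprob := mu_prob lamK s
  set Xs : Set (P × KK) := {x | x ∈ X0 ∧ x.1 ∈ B} with hXs
  have hXm : MeasurableSet Xs := hS.X0_meas.inter (measurable_fst hB)
  have hXinv : ∀ (g : GG) (x : P × KK), x ∈ Xs → g • x ∈ Xs := by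
    intro g x hx
    refine ⟨hS.X0_inv g x hx.1, ?_⟩
    show (g • x).1 ∈ B
    rw [hS.fst_smul]
    exact hx.2
  have hXfull : mu lamK s Xsᶜ = 0 := by
    have h1 := mu_X0 hS s
    have h2 := mu_fst lamK s
    rw [ae_iff] at h2
    refine measure_mono_null ?_ (measure_union_null h1 h2)
    intro x hx
    by_cases h3 : x ∈ X0
    · right
      intro h4
      apply hx
      refine ⟨h3, ?_⟩
      show x.1 ∈ B
      rw [h4]
      exact hs
    · exact Or.inl h3
  have hne : ¬ Xs.Countable := by
    intro hc
    have h1 := mu_countable hS s Xs hc (fun x hx => hx.1)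
    have h2 : mu lamK s univ = 0 := by
      rw [← union_compl_self Xs]
      exact measure_union_null h1 hXfull
    rw [measure_univ] at h2
    exact one_ne_zero h2
  have hSB : StandardBorelSpace Xs := hXm.standardBorel
  set E : Xs → Xs → Prop := fun x y => ∃ g : GG, g • x.1 = y.1 with hE
  have hEq : Equivalence E := by
    refine ⟨fun x => ⟨1, one_smul _ _⟩, ?_, ?_⟩
    · rintro x y ⟨g, hg⟩
      refine ⟨g⁻¹, ?_⟩
      rw [← hg, inv_smul_smul]
    · rintro x y z ⟨g, hg⟩ ⟨h, hh⟩
      refine ⟨h * g, ?_⟩
      rw [mul_smul, hg, hh]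
  have hEm : MeasurableSet {p : Xs × Xs | E p.1 p.2} := by
    have e : {p : Xs × Xs | E p.1 p.2} = ⋃ g : GG, {p : Xs × Xs | g • p.1.1 = p.2.1} := by
      ext p
      simp [hE]
    rw [e]
    refine MeasurableSet.iUnion fun g => ?_
    refine measurableSet_eq_fun ?_ ?_
    · exact (meas_smul g).comp (measurable_subtype_coe.comp measurable_fst)
    · exact measurable_subtype_coe.comp measurable_snd
  have hEc : ∀ x : Xs, {y : Xs | E x y}.Countable := by
    intro x
    have e : {y : Xs | E x y} = range (fun g : GG => (⟨g • x.1, hXinv g x.1 x.2⟩ : Xs)) := by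
      ext y
      constructor
      · rintro ⟨g, hg⟩
        exact ⟨g, Subtype.ext hg⟩
      · rintro ⟨g, hg⟩
        exact ⟨g, congrArg Subtype.val hg⟩
    rw [e]
    exact countable_range _
  have hEi : ∀ x : Xs, {y : Xs | E x y}.Infinite := by
    intro x
    refine (infinite_range_of_injective (f := fun g : GG => (⟨g • x.1, hXinv g x.1 x.2⟩ : Xs)) ?_).mono ?_
    · intro g h e
      have e' : g • x.1 = h • x.1 := congrArg Subtype.val e
      exact smul_inj hS x.1 x.2.1 e'
    · rintro _ ⟨g, rfl⟩
      exact ⟨g, rfl⟩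
  have hns : ¬ ∃ f : Xs → ℝ, Measurable f ∧ ∀ x y : Xs, E x y ↔ f x = f y := by
    rintro ⟨f, hf, hfE⟩
    classical
    obtain ⟨a, ha⟩ := exists_eventuallyEq_const_of_forall_separating
      (l := ae (mu lamK s)) (f := fun x : P × KK => if h : x ∈ Xs then f ⟨x, h⟩ else 0)
      (MeasurableSet : Set ℝ → Prop) (by
        intro U hU
        have hA : MeasurableSet (Subtype.val '' (f ⁻¹' U)) := hXm.subtype_image (hf hU)
        have h01 := zero_one hS s _ hA (by
          rintro g _ ⟨x, hx, rfl⟩
          refine ⟨⟨g • x.1, hXinv g x.1 x.2⟩, ?_, rfl⟩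
          have h1 : E x ⟨g • x.1, hXinv g x.1 x.2⟩ := ⟨g, rfl⟩
          have h2 := (hfE _ _).1 h1
          show f _ ∈ U
          rw [← h2]
          exact hx)
        have hX' : ∀ᵐ x ∂(mu lamK s), x ∈ Xs := by
          rw [ae_iff]
          exact hXfull
        rcases h01 with h | h
        · right
          have h' : ∀ᵐ x ∂(mu lamK s), x ∉ (Subtype.val '' (f ⁻¹' U) : Set (P × KK)) := by
            rw [ae_iff]
            simp only [not_not]
            exact h
          filter_upwards [hX', h'] with x h1 h2 h3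
          rw [dif_pos h1] at h3
          exact h2 ⟨⟨x, h1⟩, h3, rfl⟩
        · left
          have h' : ∀ᵐ x ∂(mu lamK s), x ∈ (Subtype.val '' (f ⁻¹' U) : Set (P × KK)) := by
            rw [ae_iff]
            exact h
          filter_upwards [hX', h'] with x h1 h2
          rw [dif_pos h1]
          obtain ⟨y, hy, rfl⟩ := h2
          exact hy)
    have hX' : ∀ᵐ x ∂(mu lamK s), x ∈ Xs := by
      rw [ae_iff]
      exact hXfull
    have ha' : ∀ᵐ x ∂(mu lamK s), ∃ h : x ∈ Xs, f ⟨x, h⟩ = a := by
      filter_upwards [hX', ha] with x h1 h2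
      refine ⟨h1, ?_⟩
      rw [dif_pos h1] at h2
      exact h2
    obtain ⟨x₀, hx₀, hfx₀⟩ := ha'.exists
    have hzero : mu lamK s (range (fun g : GG => g • x₀)) = 0 := by
      refine mu_countable hS s _ (countable_range _) ?_
      rintro _ ⟨g, rfl⟩
      exact hS.X0_inv g x₀ hx₀.1
    have hone : ∀ᵐ x ∂(mu lamK s), x ∈ range (fun g : GG => g • x₀) := by
      filter_upwards [ha'] with x hx
      obtain ⟨h1, h2⟩ := hx
      have h3 : E ⟨x₀, hx₀⟩ ⟨x, h1⟩ := (hfE _ _).2 (hfx₀.trans h2.symm)
      obtain ⟨g, hg⟩ := h3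
      exact ⟨g, hg⟩
    have hone' : ∀ᵐ x ∂(mu lamK s), x ∉ range (fun g : GG => g • x₀) := by
      rw [ae_iff]
      simp only [not_not]
      exact hzero
    obtain ⟨x, hx1, hx2⟩ := (hone.and hone').exists
    exact hx2 hx1
  have hunc : Uncountable Xs := by
    rw [← not_countable_iff]
    intro h
    exact hne (countable_coe_iff.1 h)
  have hne0 : Nonempty Xs := by
    by_contra h
    rw [not_nonempty_iff] at h
    exact hne (countable_coe_iff.1 inferInstance)
  obtain ⟨x₁⟩ := hne0
  -- no Borel transversal
  have hnsm : ¬ IsSmooth E := by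
    rintro ⟨T, hT, hTu⟩
    classical
    apply hns
    let act : ℕ → Xs → Xs := fun n x => ⟨en GG n • x.1, hXinv _ x.1 x.2⟩
    have hact : ∀ n, Measurable (act n) := fun n =>
      Measurable.subtype_mk ((meas_smul (en GG n)).comp measurable_subtype_coe)
    have hex : ∀ x : Xs, ∃ n, act n x ∈ T := by
      intro x
      obtain ⟨y, ⟨hyT, g, hg⟩, -⟩ := hTu x
      obtain ⟨n, hn⟩ := en_surj GG g
      refine ⟨n, ?_⟩
      have e : act n x = y := by
        refine Subtype.ext ?_
        show en GG n • x.1 = y.1
        rw [hn, hg]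
      rw [e]
      exact hyT
    have hN : Measurable (fun x => Nat.find (hex x)) :=
      measurable_find hex fun k => hact k hT
    have hp : Measurable (fun x : Xs => act (Nat.find (hex x)) x) := by
      have h1 : Measurable (fun z : ℕ × Xs => act z.1 z.2) :=
        measurable_from_prod_countable_right fun n => hact n
      exact h1.comp (hN.prodMk measurable_id)
    have hpT : ∀ x : Xs, act (Nat.find (hex x)) x ∈ T := fun x => Nat.find_spec (hex x)
    have hpE : ∀ x : Xs, E x (act (Nat.find (hex x)) x) := fun x => ⟨_, rfl⟩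
    have hemb := measurableEmbedding_embeddingReal Xs
    refine ⟨fun x => embeddingReal Xs (act (Nat.find (hex x)) x), hemb.measurable.comp hp, ?_⟩
    intro x y
    constructor
    · intro hxy
      obtain ⟨z, -, hz⟩ := hTu x
      have h1 := hz _ ⟨hpT x, hpE x⟩
      have h2 := hz _ ⟨hpT y, hEq.trans hxy (hpE y)⟩
      show embeddingReal Xs _ = embeddingReal Xs _
      rw [h1, h2]
    · intro hxy
      have h1 := hemb.injective hxy
      have h2 := hpE x
      rw [h1] at h2
      exact hEq.trans h2 (hEq.symm (hpE y))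
  refine ⟨Xs, inferInstance, hSB, E, hunc, ⟨hEq, hEm, hEc⟩, hEi, hnsm, ?_⟩
  rintro Y _ _ F - ⟨a, ha, haE⟩ ⟨b, hb, hbE⟩
    ⟨Γ, iG, iC, Kt, iT, iCp, iPol, iMA, iCS, iMS, iB, f, hf⟩
  classical
  refine hcore Γ Kt (fun x => if h : x ∈ Xs then f (a ⟨x, h⟩) else f (a x₁))
    (fun y => (b (f.symm y)).1) ?_
  have hΘ : ∀ (x : P × KK) (h : x ∈ Xs),
      (if h : x ∈ Xs then f (a ⟨x, h⟩) else f (a x₁)) = f (a ⟨x, h⟩) := fun x h => dif_pos h
  refine ⟨?_, ?_, fun y => (b (f.symm y)).2, ?_, ?_⟩
  · exact Measurable.dite (s := Xs) (f.measurable.comp ha) measurable_const hXm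
  · exact measurable_subtype_coe.comp (hb.comp f.symm.measurable)
  · intro x x' hx hx'
    rw [hΘ x hx, hΘ x' hx']
    exact (haE ⟨x, hx⟩ ⟨x', hx'⟩).trans (hf _ _)
  · intro y y'
    have h1 := (hf (f.symm y) (f.symm y')).symm.trans (hbE (f.symm y) (f.symm y'))
    rw [f.apply_symm_apply, f.apply_symm_apply] at h1
    exact h1

end Pool.Agent.H402.CSfin
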