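import Pool.Agent.H646.CS.Stm

set_option autoImplicit false

/-!
# Project CS (MP_894ea6_lc): heights (`S_ht`)
-/

namespace Pool.Agent.H155.CS_ht

open MeasureTheory Set
open scoped ENNReal

/-- real form of the height condition -/
theorem mem_iff (a b r : ℝ) :
    (0 < r ∧ ENNReal.ofReal r * ENNReal.ofReal a < 1 ∧ ENNReal.ofReal r * ENNReal.ofReal b < 1) ↔
      0 < r ∧ r * max a b < 1 := by
  constructor
  · rintro ⟨h0, h1, h2⟩
    rw [← ENNReal.ofReal_mul h0.le, ENNReal.ofReal_lt_one] at h1 h2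
    refine ⟨h0, ?_⟩
    rcases le_total a b with h | h
    · rw [max_eq_right h]
      exact h2
    · rw [max_eq_left h]
      exact h1
  · rintro ⟨h0, h1⟩
    refine ⟨h0, ?_, ?_⟩
    · rw [← ENNReal.ofReal_mul h0.le, ENNReal.ofReal_lt_one]
      exact (mul_le_mul_of_nonneg_left (le_max_left a b) h0.le).trans_lt h1
    · rw [← ENNReal.ofReal_mul h0.le, ENNReal.ofReal_lt_one]
      exact (mul_le_mul_of_nonneg_left (le_max_right a b) h0.le).trans_lt h1

/-- the first part, in real numbers -/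
theorem part1 (a b : ℝ) (ha : 0 < a) (hb : 0 < b) :
    ENNReal.ofReal a * ENNReal.ofReal b * volume {r : ℝ | 0 < r ∧
      ENNReal.ofReal r * ENNReal.ofReal a < 1 ∧ ENNReal.ofReal r * ENNReal.ofReal b < 1} =
      min (ENNReal.ofReal a) (ENNReal.ofReal b) := by
  have hM : 0 < max a b := lt_max_of_lt_left ha
  have hset : {r : ℝ | 0 < r ∧ ENNReal.ofReal r * ENNReal.ofReal a < 1 ∧
      ENNReal.ofReal r * ENNReal.ofReal b < 1} = Ioo 0 (1 / max a b) := by
    ext r
    rw [mem_ofPred_eq, mem_iff a b r, mem_Ioo, lt_div_iff₀ hM]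
  rw [hset, Real.volume_Ioo, sub_zero, ← ENNReal.ofReal_mul ha.le,
    ← ENNReal.ofReal_mul (mul_pos ha hb).le, ← ENNReal.ofReal_min]
  have h : a * b * (1 / max a b) = min a b := by
    have h1 : min a b * max a b = a * b := min_mul_max a b
    rw [← h1]
    field_simp
  rw [h]

/-- the second part, in real numbers -/
theorem part2 (a b c d : ℝ) (ha : 0 < a) (hb : 0 < b) (hc : 0 ≤ c) :
    ENNReal.ofReal a * ENNReal.ofReal b * volume {r : ℝ | (0 < r ∧
      ENNReal.ofReal r * ENNReal.ofReal a < 1 ∧ ENNReal.ofReal r * ENNReal.ofReal b < 1) ∧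
      ¬ (0 < r ∧ ENNReal.ofReal r * ENNReal.ofReal c < 1 ∧
        ENNReal.ofReal r * ENNReal.ofReal d < 1)} ≤
      (ENNReal.ofReal c - ENNReal.ofReal a) + (ENNReal.ofReal d - ENNReal.ofReal b) := by
  have hM : 0 < max a b := lt_max_of_lt_left ha
  have hN : 0 ≤ max c d := le_max_of_le_left hc
  rcases le_or_gt (max c d) (max a b) with hle | hlt
  · have hset : {r : ℝ | (0 < r ∧
        ENNReal.ofReal r * ENNReal.ofReal a < 1 ∧ ENNReal.ofReal r * ENNReal.ofReal b < 1) ∧
        ¬ (0 < r ∧ ENNReal.ofReal r * ENNReal.ofReal c < 1 ∧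
          ENNReal.ofReal r * ENNReal.ofReal d < 1)} = ∅ := by
      rw [eq_empty_iff_forall_notMem]
      intro r hr
      rw [mem_ofPred_eq, mem_iff a b r, mem_iff c d r] at hr
      exact hr.2 ⟨hr.1.1, (mul_le_mul_of_nonneg_left hle hr.1.1.le).trans_lt hr.1.2⟩
    rw [hset, measure_empty, mul_zero]
    exact zero_le
  · have hN' : 0 < max c d := hM.trans hlt
    have hsub : {r : ℝ | (0 < r ∧
        ENNReal.ofReal r * ENNReal.ofReal a < 1 ∧ ENNReal.ofReal r * ENNReal.ofReal b < 1) ∧
        ¬ (0 < r ∧ ENNReal.ofReal r * ENNReal.ofReal c < 1 ∧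
          ENNReal.ofReal r * ENNReal.ofReal d < 1)} ⊆ Icc (1 / max c d) (1 / max a b) := by
      intro r hr
      rw [mem_ofPred_eq, mem_iff a b r, mem_iff c d r] at hr
      obtain ⟨⟨h0, h1⟩, h2⟩ := hr
      have h3 : 1 ≤ r * max c d := by
        by_contra h
        exact h2 ⟨h0, not_le.1 h⟩
      exact ⟨(div_le_iff₀ hN').2 h3, ((lt_div_iff₀ hM).2 h1).le⟩
    refine (mul_le_mul_right (measure_mono hsub) _).trans ?_
    rw [Real.volume_Icc, ← ENNReal.ofReal_mul ha.le, ← ENNReal.ofReal_mul (mul_pos ha hb).le,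
      ← ENNReal.ofReal_sub _ ha.le, ← ENNReal.ofReal_sub _ hb.le]
    have h1 : a * b * (1 / max a b - 1 / max c d) ≤ max c d - max a b := by
      have e : a * b * (1 / max a b - 1 / max c d) =
          (max c d - max a b) * (a * b / (max a b * max c d)) := by
        field_simp
      rw [e]
      have h2 : a * b / (max a b * max c d) ≤ 1 := by
        rw [div_le_one (mul_pos hM hN')]
        exact mul_le_mul (le_max_left a b) ((le_max_right a b).trans hlt.le) hb.le hM.le
      exact (mul_le_mul_of_nonneg_left h2 (sub_nonneg.2 hlt.le)).trans_eq (mul_one _)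
    refine (ENNReal.ofReal_le_ofReal h1).trans ?_
    rcases le_total c d with h | h
    · rw [max_eq_right h]
      refine (ENNReal.ofReal_le_ofReal (sub_le_sub_left (le_max_right a b) d)).trans ?_
      exact le_add_self
    · rw [max_eq_left h]
      refine (ENNReal.ofReal_le_ofReal (sub_le_sub_left (le_max_left a b) c)).trans ?_
      exact le_self_add

theorem holds : Pool.Agent.H646.CS.S_ht := by
  intro a b c d ha hb hc hd
  rcases eq_or_ne a 0 with rfl | ha0
  · simp
  rcases eq_or_ne b 0 with rfl | hb0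
  · simp
  have ha' : 0 < a.toReal := ENNReal.toReal_pos ha0 ha.ne
  have hb' : 0 < b.toReal := ENNReal.toReal_pos hb0 hb.ne
  have h1 := part1 a.toReal b.toReal ha' hb'
  have h2 := part2 a.toReal b.toReal c.toReal d.toReal ha' hb' ENNReal.toReal_nonneg
  rw [ENNReal.ofReal_toReal ha.ne, ENNReal.ofReal_toReal hb.ne] at h1
  rw [ENNReal.ofReal_toReal ha.ne, ENNReal.ofReal_toReal hb.ne, ENNReal.ofReal_toReal hc.ne,
    ENNReal.ofReal_toReal hd.ne] at h2
  exact ⟨h1, h2⟩

end Pool.Agent.H155.CS_ht
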