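import Pool.Agent.H646.CS.Stm2
import Pool.Graph.R_seed8.Helper281.Sc.LN

set_option autoImplicit false

/-! S_ln of the project CS. -/

namespace Pool.Agent.H646.CSln

open MeasureTheory Set Topology TopologicalSpace
open Pool.Agent.H646.CS

theorem holds : S_ln := by
  classical
  intro X Y _ _ _ _ f hf hc
  let := upgradeStandardBorel X
  let := upgradeStandardBorel Y
  have hR : MeasurableSet {p : Y × X | f p.2 = p.1} :=
    measurableSet_eq_fun (hf.comp measurable_snd) measurable_fst
  obtain ⟨G, hG1, hG2, hG3⟩ := Pool.Agent.Helper281.LN.lusin_novikov hR hc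
  have hex : ∀ x, ∃ n, (f x, x) ∈ G n := by
    intro x
    have : (f x, x) ∈ ⋃ n, G n := by
      rw [hG2]
      rfl
    exact mem_iUnion.1 this
  refine ⟨fun x => Nat.find (hex x), ?_, ?_⟩
  · refine measurable_find hex fun n => ?_
    exact (hf.prodMk measurable_id) (hG1 n)
  · intro x x' h1 h2
    have h3 := Nat.find_spec (hex x)
    have h4 := Nat.find_spec (hex x')
    simp only at h2
    rw [← h2, ← h1] at h4
    exact hG3 _ _ _ _ h3 h4

end Pool.Agent.H646.CSln
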