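import Pool.Agent.H646.CS.Stm

/-!
Project CS, minimax for a compact convex set of probability measures with large singular parts.
-/

set_option autoImplicit false
set_option linter.unusedSectionVars false

namespace Pool.Agent.H980.CSmm

open MeasureTheory ProbabilityTheory Set Topology TopologicalSpace Filter
open Pool.Agent.H646.CR (dn)
open scoped ENNReal

variable {X : Type} [TopologicalSpace X] [CompactSpace X] [MetrizableSpace X] [MeasurableSpace X]
  [BorelSpace X]

lemma integrable_cont (ρ : Measure X) [IsProbabilityMeasure ρ] (f : C(X, ℝ)) :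
    Integrable (fun x => f x) ρ := by
  refine Integrable.of_bound f.continuous.measurable.aestronglyMeasurable ‖f‖
    (Eventually.of_forall fun x => f.norm_coe_le_norm x)

/-- a single measure -/
lemma step1 (μ ρ : Measure X) [IsProbabilityMeasure μ] [IsProbabilityMeasure ρ]
    (h : 2⁻¹ ≤ ρ.singularPart μ univ) {ε : ℝ} (hε : 0 < ε) :
    ∃ f : C(X, ℝ), (∀ x, 0 ≤ f x ∧ f x ≤ 1) ∧ ∫ x, f x ∂μ < ε ∧ 1 / 4 < ∫ x, f x ∂ρ := by
  let _ : MetricSpace X := metrizableSpaceMetric X
  obtain ⟨s, hs, h1, h2⟩ := Measure.mutuallySingular_singularPart ρ μ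
  have hle : ρ.singularPart μ ≤ ρ := Measure.singularPart_le ρ μ
  have : IsFiniteMeasure (ρ.singularPart μ) := isFiniteMeasure_of_le ρ hle
  have h3 : (4 : ℝ≥0∞)⁻¹ < ρ.singularPart μ sᶜ := by
    have h4 : ρ.singularPart μ univ ≤ ρ.singularPart μ s + ρ.singularPart μ sᶜ := by
      rw [← union_compl_self s]
      exact measure_union_le _ _
    rw [h1, zero_add] at h4
    refine lt_of_lt_of_le ?_ (h.trans h4)
    rw [ENNReal.inv_lt_inv]
    norm_num
  obtain ⟨K, hKs, hK, hK4⟩ := hs.compl.exists_lt_isCompact h3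
  have hμK : μ K < ENNReal.ofReal ε := by
    have : μ K = 0 := measure_mono_null hKs h2
    rw [this]
    exact ENNReal.ofReal_pos.2 hε
  obtain ⟨U, hU, hUo, hμU⟩ := Set.exists_isOpen_lt_of_lt K _ hμK
  obtain ⟨f, hf0, hf1, hf⟩ := exists_continuous_zero_one_of_isClosed (s := Uᶜ) (t := K)
    hUo.isClosed_compl hK.isClosed
    (disjoint_left.2 (fun x hx hxK => hx (hU hxK)))
  refine ⟨f, fun x => ⟨(hf x).1, (hf x).2⟩, ?_, ?_⟩
  · have h5 : ∫ x, f x ∂μ ≤ ∫ x, U.indicator (fun _ => (1 : ℝ)) x ∂μ := by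
      refine integral_mono (integrable_cont μ f)
        ((integrable_const (1 : ℝ)).indicator hUo.measurableSet) (fun x => ?_)
      by_cases hx : x ∈ U
      · rw [indicator_of_mem hx]; exact (hf x).2
      · rw [indicator_of_notMem hx]
        have : f x = 0 := hf0 hx
        exact le_of_eq this
    rw [integral_indicator_const _ hUo.measurableSet, smul_eq_mul, mul_one] at h5
    refine lt_of_le_of_lt h5 ?_
    rw [Measure.real]
    exact (ENNReal.toReal_lt_of_lt_ofReal hμU)
  · have h5 : ∫ x, K.indicator (fun _ => (1 : ℝ)) x ∂ρ ≤ ∫ x, f x ∂ρ := by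
      refine integral_mono ((integrable_const (1 : ℝ)).indicator hK.isClosed.measurableSet)
        (integrable_cont ρ f) (fun x => ?_)
      by_cases hx : x ∈ K
      · rw [indicator_of_mem hx]
        have : f x = 1 := hf1 hx
        exact le_of_eq this.symm
      · rw [indicator_of_notMem hx]; exact (hf x).1
    rw [integral_indicator_const _ hK.isClosed.measurableSet, smul_eq_mul, mul_one] at h5
    refine lt_of_lt_of_le ?_ h5
    rw [Measure.real]
    have h6 : (4 : ℝ≥0∞)⁻¹ < ρ K := lt_of_lt_of_le hK4 (hle K)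
    have h7 := ENNReal.toReal_strict_mono (measure_ne_top ρ K) h6
    rw [ENNReal.toReal_inv] at h7
    norm_num at h7 ⊢
    exact h7

/-- continuity of the integral of a continuous function -/
lemma cont_int (f : C(X, ℝ)) :
    Continuous fun ρ : ProbabilityMeasure X => ∫ x, f x ∂(ρ : Measure X) :=
  ProbabilityMeasure.continuous_integral_boundedContinuousFunction
    (BoundedContinuousFunction.mkOfCompact f)

/-- the finite-dimensional minimax argument -/
lemma step2 (μ : Measure X) [IsProbabilityMeasure μ] (𝓜 : Set (ProbabilityMeasure X))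
    (hcl : IsClosed 𝓜)
    (hconv : ∀ ρ ∈ 𝓜, ∀ ρ' ∈ 𝓜, ∀ a b : ℝ≥0∞, a + b = 1 →
      ∃ ρ'' ∈ 𝓜, (ρ'' : Measure X) = a • (ρ : Measure X) + b • (ρ' : Measure X))
    (hsing : ∀ ρ ∈ 𝓜, 2⁻¹ ≤ (ρ : Measure X).singularPart μ univ) (hne : 𝓜.Nonempty)
    {ε : ℝ} (hε : 0 < ε) :
    ∃ f : C(X, ℝ), (∀ x, 0 ≤ f x ∧ f x ≤ 1) ∧ ∫ x, f x ∂μ < ε ∧
      ∀ ρ ∈ 𝓜, 1 / 4 < ∫ x, f x ∂(ρ : Measure X) := by
  classical
  have hM : IsCompact 𝓜 := hcl.isCompact
  set A : Type := {f : C(X, ℝ) // (∀ x, 0 ≤ f x ∧ f x ≤ 1) ∧ ∫ x, f x ∂μ < ε} with hA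
  obtain ⟨t, ht⟩ := hM.elim_finite_subcover
    (fun f : A => {ρ : ProbabilityMeasure X | 1 / 4 < ∫ x, f.1 x ∂(ρ : Measure X)})
    (fun f => isOpen_lt continuous_const (cont_int f.1))
    (by
      intro ρ hρ
      obtain ⟨f, f1, f2, f3⟩ := step1 μ (ρ : Measure X) (hsing ρ hρ) hε
      exact mem_iUnion.2 ⟨⟨f, f1, f2⟩, f3⟩)
  -- the finite-dimensional picture
  set ev : ProbabilityMeasure X → (t → ℝ) := fun ρ i => ∫ x, i.1.1 x ∂(ρ : Measure X) with hev
  have hevc : Continuous ev := continuous_pi fun i => cont_int i.1.1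
  have hVc : IsCompact (ev '' 𝓜) := hM.image hevc
  have hVconv : Convex ℝ (ev '' 𝓜) := by
    rintro _ ⟨ρ, hρ, rfl⟩ _ ⟨ρ', hρ', rfl⟩ a b ha hb hab
    obtain ⟨ρ'', h1, h2⟩ := hconv ρ hρ ρ' hρ' (ENNReal.ofReal a) (ENNReal.ofReal b)
      (by rw [← ENNReal.ofReal_add ha hb, hab, ENNReal.ofReal_one])
    refine ⟨ρ'', h1, ?_⟩
    funext i
    simp only [hev, Pi.add_apply, Pi.smul_apply, smul_eq_mul]
    rw [h2, integral_add_measure
      ((integrable_cont _ i.1.1).smul_measure ENNReal.ofReal_ne_top)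
      ((integrable_cont _ i.1.1).smul_measure ENNReal.ofReal_ne_top),
      integral_smul_measure, integral_smul_measure, ENNReal.toReal_ofReal ha,
      ENNReal.toReal_ofReal hb, smul_eq_mul, smul_eq_mul]
  set W : Set (t → ℝ) := {w | ∀ i, w i ≤ 1 / 4} with hW
  have hWc : IsClosed W := by
    have : W = ⋂ i, {w : t → ℝ | w i ≤ 1 / 4} := by
      ext w
      simp [hW]
    rw [this]
    exact isClosed_iInter fun i => isClosed_le (continuous_apply i) continuous_const
  have hWconv : Convex ℝ W := by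
    intro w hw w' hw' a b ha hb hab i
    simp only [Pi.add_apply, Pi.smul_apply, smul_eq_mul]
    have h1 := mul_le_mul_of_nonneg_left (hw i) ha
    have h2 := mul_le_mul_of_nonneg_left (hw' i) hb
    have h3 : a * (1 / 4) + b * (1 / 4) = 1 / 4 := by rw [← add_mul, hab, one_mul]
    linarith
  have hdisj : Disjoint (ev '' 𝓜) W := by
    rw [disjoint_left]
    rintro _ ⟨ρ, hρ, rfl⟩ hw
    obtain ⟨f, hf⟩ := mem_iUnion.1 (ht hρ)
    obtain ⟨hft, hf'⟩ := mem_iUnion.1 hf
    have h1 : ev ρ ⟨f, hft⟩ ≤ 1 / 4 := hw ⟨f, hft⟩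
    have h2 : 1 / 4 < ∫ x, f.1 x ∂(ρ : Measure X) := hf'
    exact absurd h1 (not_le.2 h2)
  obtain ⟨φ, u, v, hφ1, huv, hφ2⟩ :=
    geometric_hahn_banach_compact_closed hVconv hVc hWconv hWc hdisj
  -- the coefficients
  set c : t → ℝ := fun i => -φ (Pi.single i 1) with hc
  have hφsum : ∀ w : t → ℝ, φ w = -∑ i, c i * w i := by
    intro w
    have h1 : w = ∑ i, w i • (Pi.single i (1 : ℝ) : t → ℝ) := by
      funext k
      rw [Finset.sum_apply]
      simp only [Pi.smul_apply, smul_eq_mul, Pi.single_apply, mul_ite, mul_one, mul_zero]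
      rw [Finset.sum_ite_eq]
      simp
    conv_lhs => rw [h1]
    rw [map_sum, ← Finset.sum_neg_distrib]
    refine Finset.sum_congr rfl fun i _ => ?_
    rw [map_smul, smul_eq_mul, hc]
    ring
  have hcnn : ∀ i, 0 ≤ c i := by
    intro i
    by_contra hneg
    push Not at hneg
    -- use the point `1/4 - s e_i` of `W`
    set S : ℝ := ∑ k, c k * (1 / 4) with hS
    have key : ∀ s : ℝ, 0 ≤ s → v < -S + s * c i := by
      intro s hs
      have hw : (fun k : t => (1 / 4 : ℝ) - if k = i then s else 0) ∈ W := by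
        intro k
        simp only
        split_ifs <;> linarith
      have h1 := hφ2 _ hw
      rw [hφsum] at h1
      have h2 : ∑ k, c k * ((1 / 4 : ℝ) - if k = i then s else 0) = S - c i * s := by
        rw [hS]
        simp only [mul_sub, Finset.sum_sub_distrib, mul_ite, mul_zero]
        rw [Finset.sum_ite_eq']
        simp
      rw [h2] at h1
      linarith
    have h3 := key ((|v| + |S| + 1) / (-c i)) (by
      apply div_nonneg _ (by linarith)
      have := abs_nonneg v
      have := abs_nonneg S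
      linarith)
    have h4 : (|v| + |S| + 1) / (-c i) * c i = -(|v| + |S| + 1) := by
      have hci : c i ≠ 0 := hneg.ne
      field_simp
    rw [h4] at h3
    have h5 := neg_abs_le v
    have h6 := neg_abs_le S
    linarith
  have hlt : ∀ ρ ∈ 𝓜, (∑ i, c i) * (1 / 4) < ∑ i, c i * ev ρ i := by
    intro ρ hρ
    have h1 := hφ1 _ (mem_image_of_mem ev hρ)
    have h2 := hφ2 (fun _ => 1 / 4) (fun i => le_rfl)
    rw [hφsum] at h1 h2
    rw [Finset.sum_mul]
    linarith
  obtain ⟨ρ₀, hρ₀⟩ := hne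
  have hcpos : 0 < ∑ i, c i := by
    rcases (Finset.sum_nonneg (fun i (_ : i ∈ Finset.univ) => hcnn i)).eq_or_lt with h0 | h0
    · exfalso
      have h1 := hlt ρ₀ hρ₀
      have h2 : ∀ i, c i = 0 := by
        intro i
        exact (Finset.sum_eq_zero_iff_of_nonneg (fun i _ => hcnn i)).1 h0.symm i
          (Finset.mem_univ i)
      simp only [h2, zero_mul, Finset.sum_const_zero] at h1
      exact lt_irrefl _ h1
    · exact h0
  set N : ℝ := ∑ i, c i with hN
  set d : t → ℝ := fun i => c i / N with hd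
  have hdnn : ∀ i, 0 ≤ d i := fun i => div_nonneg (hcnn i) hcpos.le
  have hd1 : ∑ i, d i = 1 := by
    rw [hd, ← Finset.sum_div]
    exact div_self hcpos.ne'
  set F : C(X, ℝ) := ∑ i, d i • i.1.1 with hF
  have hFx : ∀ x, F x = ∑ i, d i * i.1.1 x := by
    intro x
    rw [hF, ContinuousMap.sum_apply]
    rfl
  have hFint : ∀ (ρ : Measure X) [IsProbabilityMeasure ρ],
      ∫ x, F x ∂ρ = ∑ i, d i * ∫ x, i.1.1 x ∂ρ := by
    intro ρ _
    simp only [hFx]
    rw [integral_finsetSum]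
    · refine Finset.sum_congr rfl fun i _ => ?_
      rw [integral_const_mul]
    · intro i _
      exact (integrable_cont ρ i.1.1).const_mul _
  refine ⟨F, fun x => ⟨?_, ?_⟩, ?_, fun ρ hρ => ?_⟩
  · rw [hFx]
    exact Finset.sum_nonneg fun i _ => mul_nonneg (hdnn i) (i.1.2.1 x).1
  · rw [hFx]
    refine le_trans (Finset.sum_le_sum (g := d) fun i _ => ?_) hd1.le
    have := mul_le_mul_of_nonneg_left (i.1.2.1 x).2 (hdnn i)
    linarith
  · rw [hFint]
    have h1 : ∃ i, 0 < d i := by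
      by_contra hcon
      push Not at hcon
      have : ∑ i, d i ≤ 0 := Finset.sum_nonpos fun i _ => hcon i
      rw [hd1] at this
      linarith
    obtain ⟨i₀, hi₀⟩ := h1
    have h2 : ∑ i, d i * ∫ x, i.1.1 x ∂μ < ∑ i, d i * ε := by
      refine Finset.sum_lt_sum (fun i _ => mul_le_mul_of_nonneg_left i.1.2.2.le (hdnn i))
        ⟨i₀, Finset.mem_univ _, mul_lt_mul_of_pos_left i₀.1.2.2 hi₀⟩
    rw [← Finset.sum_mul, hd1, one_mul] at h2
    exact h2
  · rw [hFint]
    have h1 := hlt ρ hρ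
    have h2 : ∑ i, d i * ∫ x, i.1.1 x ∂(ρ : Measure X) = (∑ i, c i * ev ρ i) / N := by
      rw [Finset.sum_div]
      refine Finset.sum_congr rfl fun i _ => ?_
      simp only [hd, hev]
      ring
    rw [h2, lt_div_iff₀ hcpos]
    linarith

lemma cl_near {a b δ : ℝ} (ha0 : 0 ≤ a) (ha1 : a ≤ 1) (h : |a - b| ≤ δ) :
    |a - max 0 (min 1 b)| ≤ δ := by
  rw [abs_le] at h ⊢
  obtain ⟨h1, h2⟩ := h
  rcases le_total b 0 with hb | hb
  · have : max 0 (min 1 b) = 0 := max_eq_left ((min_le_right _ _).trans hb)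
    rw [this]
    constructor <;> linarith
  · rcases le_total 1 b with hb1 | hb1
    · have : max 0 (min 1 b) = 1 := by rw [min_eq_left hb1]; norm_num
      rw [this]
      constructor <;> linarith
    · have : max 0 (min 1 b) = b := by rw [min_eq_right hb1, max_eq_right hb]
      rw [this]
      exact ⟨h1, h2⟩

/-- replacing a function by a member of the dense sequence -/
lemma near_int (ρ : Measure X) [IsProbabilityMeasure ρ] (F : C(X, ℝ))
    (hF : ∀ x, 0 ≤ F x ∧ F x ≤ 1) {δ : ℝ} (k : ℕ) (hk : dist F (dn X k) < δ) :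
    |∫ x, F x ∂ρ - ∫ x, max 0 (min 1 (dn X k x)) ∂ρ| ≤ δ := by
  have hc : Continuous fun x => max 0 (min 1 (dn X k x)) :=
    continuous_const.max (continuous_const.min (dn X k).continuous)
  have hi : Integrable (fun x => max 0 (min 1 (dn X k x))) ρ :=
    integrable_cont ρ ⟨_, hc⟩
  rw [← integral_sub (integrable_cont ρ F) hi]
  have h1 : ∀ x, ‖F x - max 0 (min 1 (dn X k x))‖ ≤ δ := by
    intro x
    rw [Real.norm_eq_abs]
    apply cl_near (hF x).1 (hF x).2
    have := ContinuousMap.dist_apply_le_dist (f := F) (g := dn X k) x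
    rw [Real.dist_eq] at this
    exact this.trans hk.le
  have h2 := norm_integral_le_of_norm_le_const (μ := ρ) (Eventually.of_forall h1)
  rw [probReal_univ, mul_one, Real.norm_eq_abs] at h2
  exact h2

theorem holds : Pool.Agent.H646.CS.S_mm := by
  intro X _ _ _ _ _ μ 𝓜 hμ hcl hconv hsing ε hε
  rcases 𝓜.eq_empty_or_nonempty with he | hne
  · -- take a function close to zero
    obtain ⟨k, hk⟩ := (denseRange_denseSeq C(X, ℝ)).exists_dist_lt (0 : C(X, ℝ))
      (show (0 : ℝ) < ε / 2 by linarith)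
    refine ⟨k, ?_, ?_⟩
    · have h1 := near_int μ (0 : C(X, ℝ)) (fun x => by simp) k hk
      simp only [ContinuousMap.zero_apply, integral_zero, zero_sub, abs_neg] at h1
      have h2 := (abs_le.1 h1).2
      linarith
    · intro ρ hρ
      rw [he] at hρ
      exact absurd hρ (notMem_empty _)
  · obtain ⟨F, hF, hFμ, hFρ⟩ := step2 μ 𝓜 hcl hconv hsing hne hε
    obtain ⟨ρ₀, hρ₀, hmin⟩ := hcl.isCompact.exists_isMinOn hne (cont_int F).continuousOn
    have h0 := hFρ ρ₀ hρ₀
    set δ : ℝ := min ((∫ x, F x ∂(ρ₀ : Measure X) - 1 / 4) / 2) ((ε - ∫ x, F x ∂μ) / 2) with hδ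
    have hδ0 : 0 < δ := lt_min (by linarith) (by linarith)
    have hδ1 : δ ≤ (∫ x, F x ∂(ρ₀ : Measure X) - 1 / 4) / 2 := min_le_left _ _
    have hδ2 : δ ≤ (ε - ∫ x, F x ∂μ) / 2 := min_le_right _ _
    obtain ⟨k, hk⟩ := (denseRange_denseSeq C(X, ℝ)).exists_dist_lt F hδ0
    refine ⟨k, ?_, fun ρ hρ => ?_⟩
    · have h1 := near_int μ F hF k hk
      have h2 := (abs_le.1 h1).1
      linarith
    · have h1 := near_int (ρ : Measure X) F hF k hk
      have h2 := (abs_le.1 h1).2
      have h3 : ∫ x, F x ∂(ρ₀ : Measure X) ≤ ∫ x, F x ∂(ρ : Measure X) := hmin hρ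
      linarith

end Pool.Agent.H980.CSmm
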