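import Pool.Agent.H646.CS.Stm

set_option autoImplicit false
set_option linter.unusedSectionVars false

/-!
# Predicted labels of one process (S_one)
-/

namespace Pool.Agent.H249.CSone

open MeasureTheory ProbabilityTheory Set Topology TopologicalSpace Filter
open Pool.Agent.H646.CR (P en en_surj dn b2r IsPD mu IsSys)
open Pool.Agent.H646.CS
open scoped ENNReal

section

variable {G K H M : Type} [Group G] [Countable G] [TopologicalSpace K] [CompactSpace K]
    [MetrizableSpace K] [MeasurableSpace K] [BorelSpace K]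
    [MulAction G (P × K)] [ContinuousConstSMul G (P × K)]
    [Group H] [Countable H] [TopologicalSpace M] [CompactSpace M]
    [MetrizableSpace M] [MeasurableSpace M] [BorelSpace M]
    [MulAction H (P × M)] [ContinuousConstSMul H (P × M)]

theorem meas_lab (g : G) (u : H) (b : Bool) :
    MeasurableSet {ω : St G K H M | ω.2.2 g u = b} := by
  have h : Measurable fun ω : St G K H M => ω.2.2 g u :=
    (measurable_pi_apply u).comp ((measurable_pi_apply g).comp
      (measurable_snd.comp measurable_snd))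
  exact h (measurableSet_singleton b)

theorem meas_smul (u : H) : Measurable fun x : P × M => u • x :=
  (continuous_const_smul u).measurable

/-- the measure of the fibre is invariant -/
theorem mu_inv {m : Measure M} (tgt : IsTgt H M m) (s : P) (u : H) :
    Measure.map (fun x => u • x) (mu m s) = mu m s := by
  have := tgt.prob
  have e : mu m s = Measure.map (Prod.mk s) m := Measure.dirac_prod s
  rw [e, Measure.map_map (meas_smul u) measurable_prodMk_left]
  have h1 : ((fun x : P × M => u • x) ∘ Prod.mk s) =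
      Prod.mk s ∘ fun k : M => (u • ((s, k) : P × M)).2 := by
    funext k
    exact Prod.ext (tgt.fst_smul u (s, k)) rfl
  rw [h1, ← Measure.map_map measurable_prodMk_left]
  · rw [tgt.pres u s]
  · exact measurable_snd.comp ((meas_smul u).comp measurable_prodMk_left)

/-- the labels are almost surely unique -/
theorem uniq_null {η : Measure (St G K H M)} (w0 : W0 η) (g : G) :
    η (⋃ p : {p : H × H // p.1 ≠ p.2},
      {ω | ω.2.2 g p.1.1 = true ∧ ω.2.2 g p.1.2 = true}) = 0 :=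
  measure_iUnion_null fun p => w0.lab_uniq g p.1.1 p.1.2 p.2

/-- change of base point, summed over the labels: `D u` are sets of base points -/
theorem swap {η : Measure (St G K H M)} (w0 : W0 η) (g : G) (D : H → Set (P × M))
    (hD : ∀ u, MeasurableSet (D u)) (u : H) :
    η ({ω | ω.2.2 g u = true} ∩ {ω | u • ω.1 ∈ D u}) =
      η ({ω | ω.2.2 g⁻¹ u⁻¹ = true} ∩ {ω | ω.1 ∈ D u}) :=
  w0.inv g u {ω | ω.1 ∈ D u} (measurable_fst (hD u))

theorem meas_eq {θ : P × M → H} (hθ : ∀ u, MeasurableSet (θ ⁻¹' {u})) (D : H → Set (P × M))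
    (hD : ∀ u, MeasurableSet (D u)) : MeasurableSet {x | x ∈ D (θ x)} := by
  have e : {x | x ∈ D (θ x)} = ⋃ u, (θ ⁻¹' {u} ∩ D u) := by
    ext x
    simp only [mem_ofPred_eq, mem_iUnion, mem_inter_iff, mem_preimage, mem_singleton_iff]
    constructor
    · intro h
      exact ⟨θ x, rfl, h⟩
    · rintro ⟨u, rfl, h⟩
      exact h
  rw [e]
  exact MeasurableSet.iUnion fun u => (hθ u).inter (hD u)

/-- the first estimate -/
theorem first {η : Measure (St G K H M)} (w0 : W0 η) (g : G) {θ θ' : P × M → H} {ε : ℝ≥0∞}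
    (hθ : ∀ u, MeasurableSet (θ ⁻¹' {u})) (hθ' : ∀ u, MeasurableSet (θ' ⁻¹' {u}))
    (h1 : η {ω | ω.2.2 g (θ ω.1) = false} ≤ ε) (h2 : η {ω | ω.2.2 g⁻¹ (θ' ω.1) = false} ≤ ε) :
    η {ω | θ' (θ ω.1 • ω.1) ≠ (θ ω.1)⁻¹} ≤ 2 * ε := by
  -- the sets of base points after the change
  set D : H → Set (P × M) := fun u => {x | θ (u⁻¹ • x) = u ∧ θ' x ≠ u⁻¹} with hDdef
  have hD : ∀ u, MeasurableSet (D u) := by
    intro u
    have e : D u = (fun x => u⁻¹ • x) ⁻¹' (θ ⁻¹' {u}) ∩ (θ' ⁻¹' {u⁻¹})ᶜ := rfl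
    rw [e]
    exact ((meas_smul u⁻¹) (hθ u)).inter (hθ' u⁻¹).compl
  have s1 : {ω : St G K H M | θ' (θ ω.1 • ω.1) ≠ (θ ω.1)⁻¹} ⊆
      {ω | ω.2.2 g (θ ω.1) = false} ∪
        ⋃ u : H, ({ω | ω.2.2 g u = true} ∩ {ω | u • ω.1 ∈ D u}) := by
    intro ω hω
    by_cases hL : ω.2.2 g (θ ω.1) = true
    · right
      refine mem_iUnion.2 ⟨θ ω.1, hL, ?_⟩
      show θ ((θ ω.1)⁻¹ • θ ω.1 • ω.1) = θ ω.1 ∧ θ' (θ ω.1 • ω.1) ≠ (θ ω.1)⁻¹
      rw [inv_smul_smul]
      exact ⟨rfl, hω⟩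
    · left
      simpa using hL
  have s2 : (⋃ u : H, ({ω : St G K H M | ω.2.2 g⁻¹ u⁻¹ = true} ∩ {ω | ω.1 ∈ D u})) ⊆
      {ω | ω.2.2 g⁻¹ (θ' ω.1) = false} ∪ ⋃ p : {p : H × H // p.1 ≠ p.2},
        {ω | ω.2.2 g⁻¹ p.1.1 = true ∧ ω.2.2 g⁻¹ p.1.2 = true} := by
    intro ω hω
    obtain ⟨u, hu1, hu2⟩ := mem_iUnion.1 hω
    by_cases hL : ω.2.2 g⁻¹ (θ' ω.1) = true
    · right
      exact mem_iUnion.2 ⟨⟨(θ' ω.1, u⁻¹), hu2.2⟩, hL, hu1⟩
    · left
      simpa using hL
  have h3 : η (⋃ u : H, ({ω : St G K H M | ω.2.2 g⁻¹ u⁻¹ = true} ∩ {ω | ω.1 ∈ D u})) ≤ ε := by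
    refine (measure_mono s2).trans ((measure_union_le _ _).trans ?_)
    rw [uniq_null w0 g⁻¹, add_zero]
    exact h2
  have h4 : ∑' u : H, η ({ω : St G K H M | ω.2.2 g⁻¹ u⁻¹ = true} ∩ {ω | ω.1 ∈ D u}) =
      η (⋃ u : H, ({ω : St G K H M | ω.2.2 g⁻¹ u⁻¹ = true} ∩ {ω | ω.1 ∈ D u})) := by
    rw [measure_iUnion₀]
    · intro u v huv
      refine measure_mono_null ?_ (w0.lab_uniq g⁻¹ u⁻¹ v⁻¹ (fun h => huv (inv_injective h)))
      rintro ω ⟨⟨h5, -⟩, ⟨h6, -⟩⟩
      exact ⟨h5, h6⟩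
    · intro u
      exact ((meas_lab _ _ _).inter (measurable_fst (hD u))).nullMeasurableSet
  refine (measure_mono s1).trans ((measure_union_le _ _).trans ?_)
  rw [two_mul]
  refine add_le_add h1 ((measure_iUnion_le _).trans ?_)
  rw [tsum_congr (swap w0 g D hD), h4]
  exact h3

/-- the second estimate -/
theorem second {m : Measure M} (tgt : IsTgt H M m) {s : P} {η : Measure (St G K H M)}
    {F : P × M → ℝ≥0∞} (w0 : W0 η) (hF : Measurable F)
    (hη : Measure.map Prod.fst η = (mu m s).withDensity F) (g : G) {θ θ' : P × M → H}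
    {ε : ℝ≥0∞} (hθ : ∀ u, MeasurableSet (θ ⁻¹' {u})) (hθ' : ∀ u, MeasurableSet (θ' ⁻¹' {u}))
    (h2 : η {ω | ω.2.2 g⁻¹ (θ' ω.1) = false} ≤ ε) :
    ∫⁻ x in {x | θ' (θ x • x) = (θ x)⁻¹}, (F (θ x • x) - F x) ∂(mu m s) ≤ ε := by
  have := w0.prob
  set μ : Measure (P × M) := mu m s with hμ
  set A : Set (P × M) := {x | θ' (θ x • x) = (θ x)⁻¹} with hA
  have mA : MeasurableSet A := by
    refine meas_eq (θ := θ) hθ (fun u => {x | θ' (u • x) = u⁻¹}) fun u => ?_
    exact (meas_smul u) (hθ' u⁻¹)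
  -- the function after the change of base point
  set F' : P × M → ℝ≥0∞ := fun x => F (θ x • x) with hF'
  have mF' : Measurable F' := by
    intro S hS
    exact meas_eq (θ := θ) hθ (fun u => {x | F (u • x) ∈ S}) fun u => (hF.comp (meas_smul u)) hS
  set D : Set (P × M) := A ∩ {x | F x < F' x} with hD
  have mD : MeasurableSet D := mA.inter (measurableSet_lt hF mF')
  set Du : H → Set (P × M) := fun u => D ∩ θ ⁻¹' {u} with hDu
  have mDu : ∀ u, MeasurableSet (Du u) := fun u => mD.inter (hθ u)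
  set Dv : H → Set (P × M) := fun u => (fun x => u⁻¹ • x) ⁻¹' (Du u) with hDv
  have mDv : ∀ u, MeasurableSet (Dv u) := fun u => (meas_smul u⁻¹) (mDu u)
  have memDv : ∀ u x, x ∈ Dv u → θ' x = u⁻¹ := by
    intro u x hx
    have h3 : θ (u⁻¹ • x) = u := hx.2
    have h4 : θ' (θ (u⁻¹ • x) • u⁻¹ • x) = (θ (u⁻¹ • x))⁻¹ := hx.1.1
    rw [h3, smul_inv_smul] at h4
    exact h4
  have pre : ∀ u, (fun x : P × M => u • x) ⁻¹' (Dv u) = Du u := by
    intro u
    ext x
    show u⁻¹ • u • x ∈ Du u ↔ _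
    rw [inv_smul_smul]
  have unD : ⋃ u, Du u = D := by
    ext x
    simp only [hDu, mem_iUnion, mem_inter_iff, mem_preimage, mem_singleton_iff]
    constructor
    · rintro ⟨u, h, -⟩
      exact h
    · intro h
      exact ⟨θ x, h, rfl⟩
  have disjU : Pairwise (Function.onFun Disjoint Du) := by
    intro u v huv
    refine Set.disjoint_left.2 fun x hx hx' => huv ?_
    have h3 : θ x = u := hx.2
    have h4 : θ x = v := hx'.2
    rw [← h3, h4]
  have disjV : Pairwise (Function.onFun Disjoint Dv) := by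
    intro u v huv
    refine Set.disjoint_left.2 fun x hx hx' => huv ?_
    have h3 := memDv u x hx
    rw [memDv v x hx'] at h3
    exact (inv_injective h3).symm
  -- the law of the base point
  have law : ∀ S : Set (P × M), MeasurableSet S → ∫⁻ x in S, F x ∂μ = η {ω | ω.1 ∈ S} := by
    intro S hS
    rw [← withDensity_apply F hS, ← hη, Measure.map_apply measurable_fst hS]
    rfl
  -- the integral of the shifted function
  have e1 : ∫⁻ x in D, F' x ∂μ = η {ω | ω.1 ∈ ⋃ u, Dv u} := by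
    rw [← law _ (MeasurableSet.iUnion mDv), lintegral_iUnion mDv disjV, ← unD,
      lintegral_iUnion mDu disjU]
    refine tsum_congr fun u => ?_
    have h3 : ∫⁻ x in Du u, F' x ∂μ = ∫⁻ x in Du u, F (u • x) ∂μ := by
      refine setLIntegral_congr_fun (mDu u) fun x hx => ?_
      have h4 : θ x = u := hx.2
      show F (θ x • x) = F (u • x)
      rw [h4]
    rw [h3, ← pre u]
    exact MeasurePreserving.setLIntegral_comp_preimage ⟨meas_smul u, mu_inv tgt s u⟩ (mDv u) hF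
  have e2 : η {ω | ω.1 ∈ ⋃ u, Dv u} ≤ ε + ∫⁻ x in D, F x ∂μ := by
    have s1 : {ω : St G K H M | ω.1 ∈ ⋃ u, Dv u} ⊆ {ω | ω.2.2 g⁻¹ (θ' ω.1) = false} ∪
        ⋃ u : H, ({ω | ω.2.2 g⁻¹ u⁻¹ = true} ∩ {ω | ω.1 ∈ Dv u}) := by
      intro ω hω
      obtain ⟨u, hu⟩ := mem_iUnion.1 hω
      by_cases hL : ω.2.2 g⁻¹ (θ' ω.1) = true
      · right
        refine mem_iUnion.2 ⟨u, ?_, hu⟩
        show ω.2.2 g⁻¹ u⁻¹ = true
        rw [← memDv u _ hu]
        exact hL
      · left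
        simpa using hL
    refine (measure_mono s1).trans ((measure_union_le _ _).trans (add_le_add h2 ?_))
    refine (measure_iUnion_le _).trans ?_
    rw [← tsum_congr (swap w0 g Dv mDv)]
    have h5 : ∀ u, η ({ω | ω.2.2 g u = true} ∩ {ω | u • ω.1 ∈ Dv u}) ≤ ∫⁻ x in Du u, F x ∂μ := by
      intro u
      rw [law _ (mDu u)]
      refine measure_mono ?_
      rintro ω ⟨-, hω⟩
      have h6 : ω.1 ∈ (fun x : P × M => u • x) ⁻¹' (Dv u) := hω
      rw [pre u] at h6
      exact h6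
    refine (ENNReal.tsum_le_tsum h5).trans ?_
    rw [← lintegral_iUnion mDu disjU, unD]
  have e3 : ∫⁻ x in A, (F' x - F x) ∂μ = ∫⁻ x in D, (F' x - F x) ∂μ := by
    have mB : MeasurableSet {x | F x < F' x} := measurableSet_lt hF mF'
    have h3 : ∫⁻ x in A \ {x | F x < F' x}, (F' x - F x) ∂μ = 0 := by
      have h4 : ∫⁻ x in A \ {x | F x < F' x}, (F' x - F x) ∂μ =
          ∫⁻ x in A \ {x | F x < F' x}, 0 ∂μ :=
        setLIntegral_congr_fun (mA.diff mB) fun x hx =>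
          tsub_eq_zero_of_le (not_lt.1 hx.2)
      rw [h4, lintegral_zero]
    rw [← lintegral_inter_add_sdiff (fun x => F' x - F x) A mB, h3, add_zero]
  show ∫⁻ x in A, (F' x - F x) ∂μ ≤ ε
  have hfin : ∫⁻ x in D, F x ∂μ ≠ ⊤ := by
    rw [law D mD]
    exact measure_ne_top _ _
  rw [e3, lintegral_sub hF hfin]
  · rw [tsub_le_iff_right, e1]
    exact e2
  · filter_upwards [ae_restrict_mem mD] with x hx
    exact le_of_lt hx.2

end

theorem holds : S_one := by
  intro G K H M _ _ _ _ _ _ _ _ _ _ _ _ _ _ _ _ _ _ m tgt s η F w0 hF hη g θ θ' ε hθ hθ' h1 h2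
  exact ⟨first w0 g hθ hθ' h1 h2, second tgt w0 hF hη g hθ hθ' h2⟩

end Pool.Agent.H249.CSone
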