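import Pool.Agent.H646.CS.Stm

set_option autoImplicit false
set_option linter.unusedSectionVars false

/-!
Project CS (helper646), piece S_pd: positive definiteness of the agreement function, general form.
Adaptation of `Pool.Agent.H740.CRPD`.
-/

namespace Pool.Agent.H734.CSPD

open MeasureTheory ProbabilityTheory Set Topology TopologicalSpace Filter
open scoped ENNReal
open Pool.Agent.H646.CR (IsPD)

section

variable {G H Ω : Type} [Group G] [Group H] [Countable H] [MeasurableSpace Ω]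

/-- the hypotheses -/
structure Hyp (C : Measure Ω) (N : G → H → Set Ω) (T : G → H → Ω → Ω) : Prop where
  fin : IsFiniteMeasure C
  meas : ∀ g u, MeasurableSet (N g u)
  mem : ∀ g u h w ω, ω ∈ N g u → (T g u ω ∈ N h w ↔ ω ∈ N (h * g) (w * u))
  one : C (N 1 1)ᶜ = 0
  uniq : ∀ g u w, u ≠ w → C (N g u ∩ N g w) = 0
  inv : ∀ g u (D : Set Ω), MeasurableSet D → C (N g u ∩ T g u ⁻¹' D) = C (N g⁻¹ u⁻¹ ∩ D)

/-- the union of the events -/
def Ng (N : G → H → Set Ω) (g : G) : Set Ω := ⋃ u, N g u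

variable {C : Measure Ω} {N : G → H → Set Ω} {T : G → H → Ω → Ω}

theorem meas_Ng (hC : Hyp C N T) (g : G) : MeasurableSet (Ng N g) :=
  MeasurableSet.iUnion fun u => hC.meas g u

theorem sum_Ng (hC : Hyp C N T) (g : G) {E : Set Ω} (hE : MeasurableSet E) :
    C (Ng N g ∩ E) = ∑' u, C (N g u ∩ E) := by
  unfold Ng
  rw [iUnion_inter]
  refine measure_iUnion₀ ?_ fun u => ((hC.meas g u).inter hE).nullMeasurableSet
  intro u w huw
  refine measure_mono_null ?_ (hC.uniq g u w huw)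
  rintro ω ⟨⟨h1, -⟩, ⟨h2, -⟩⟩
  exact ⟨h1, h2⟩

/-- the key identity -/
theorem key (hC : Hyp C N T) (h : G) {E D : Set Ω} (hE : MeasurableSet E) (hD : MeasurableSet D)
    (hED : ∀ u, ∀ ω ∈ N h u, (ω ∈ E ↔ T h u ω ∈ D)) :
    C (Ng N h ∩ E) = C (Ng N h⁻¹ ∩ D) := by
  rw [sum_Ng hC h hE, sum_Ng hC h⁻¹ hD]
  have h1 : ∀ u, C (N h u ∩ E) = C (N h⁻¹ u⁻¹ ∩ D) := by
    intro u
    refine Eq.trans ?_ (hC.inv h u D hD)
    congr 1
    ext ω
    constructor
    · rintro ⟨h2, h3⟩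
      exact ⟨h2, (hED u ω h2).1 h3⟩
    · rintro ⟨h2, h3⟩
      exact ⟨h2, (hED u ω h2).2 h3⟩
  rw [tsum_congr h1]
  exact (Equiv.inv H).tsum_eq (fun u => C (N h⁻¹ u ∩ D))

theorem T_mem (hC : Hyp C N T) {h : G} {u : H} (m : G) {ω : Ω} (hω : ω ∈ N h u) :
    T h u ω ∈ Ng N m ↔ ω ∈ Ng N (m * h) := by
  unfold Ng
  rw [mem_iUnion, mem_iUnion]
  constructor
  · rintro ⟨w, h1⟩
    exact ⟨w * u, (hC.mem h u m w ω hω).1 h1⟩
  · rintro ⟨w, h1⟩
    refine ⟨w * u⁻¹, (hC.mem h u m (w * u⁻¹) ω hω).2 ?_⟩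
    rw [inv_mul_cancel_right]
    exact h1

theorem N_one (hC : Hyp C N T) : C (Ng N 1)ᶜ = 0 :=
  measure_mono_null (compl_subset_compl.2 (subset_iUnion (fun u => N 1 u) 1)) hC.one

/-- the set of names which agree with `i` is `S` -/
def Ev {n : ℕ} (N : G → H → Set Ω) (g : Fin n → G) (i : Fin n) (S : Finset (Fin n)) : Set Ω :=
  {ω | ∀ j, j ∈ S ↔ ω ∈ Ng N (g j * (g i)⁻¹)}

theorem meas_Ev (hC : Hyp C N T) {n : ℕ} (g : Fin n → G) (i : Fin n) (S : Finset (Fin n)) :
    MeasurableSet (Ev N g i S) := by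
  have h : Ev N g i S = ⋂ j, {ω | j ∈ S ↔ ω ∈ Ng N (g j * (g i)⁻¹)} := by
    ext ω
    simp only [mem_iInter]
    exact Iff.rfl
  rw [h]
  refine MeasurableSet.iInter fun j => ?_
  by_cases hj : j ∈ S
  · have : {ω : Ω | j ∈ S ↔ ω ∈ Ng N (g j * (g i)⁻¹)} = Ng N (g j * (g i)⁻¹) := by
      ext ω
      exact ⟨fun h => h.1 hj, fun h => ⟨fun _ => h, fun _ => hj⟩⟩
    rw [this]
    exact meas_Ng hC _
  · have : {ω : Ω | j ∈ S ↔ ω ∈ Ng N (g j * (g i)⁻¹)} = (Ng N (g j * (g i)⁻¹))ᶜ := by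
      ext ω
      exact ⟨fun h h' => hj (h.2 h'), fun h => ⟨fun h' => absurd h' hj, fun h' => absurd h' h⟩⟩
    rw [this]
    exact (meas_Ng hC _).compl

theorem Ev_swap (hC : Hyp C N T) {n : ℕ} (g : Fin n → G) {i k : Fin n} {S : Finset (Fin n)}
    (hi : i ∈ S) (hk : k ∈ S) : C (Ev N g i S) = C (Ev N g k S) := by
  have h1 := key hC (g k * (g i)⁻¹) (meas_Ev hC g i S) (meas_Ev hC g k S) (by
    intro u ω hω
    refine forall_congr' fun j => ?_
    rw [T_mem hC _ hω]
    have : g j * (g k)⁻¹ * (g k * (g i)⁻¹) = g j * (g i)⁻¹ := by group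
    rw [this])
  have h2 : Ng N (g k * (g i)⁻¹) ∩ Ev N g i S = Ev N g i S :=
    inter_eq_right.2 fun ω hω => (hω k).1 hk
  have h3 : Ng N (g k * (g i)⁻¹)⁻¹ ∩ Ev N g k S = Ev N g k S := by
    refine inter_eq_right.2 fun ω hω => ?_
    have : (g k * (g i)⁻¹)⁻¹ = g i * (g k)⁻¹ := by group
    rw [this]
    exact (hω i).1 hi
  rw [h2, h3] at h1
  exact h1

theorem Ev_zero (hC : Hyp C N T) {n : ℕ} (g : Fin n → G) {i : Fin n} {S : Finset (Fin n)}
    (hi : i ∉ S) : C (Ev N g i S) = 0 := by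
  refine measure_mono_null (fun ω hω => ?_) (N_one hC)
  intro h
  refine hi ((hω i).2 ?_)
  rw [mul_inv_cancel]
  exact h

theorem N_sum (hC : Hyp C N T) {n : ℕ} (g : Fin n → G) (i j : Fin n) :
    (C (Ng N (g j * (g i)⁻¹))).toReal =
      ∑ S : Finset (Fin n), if j ∈ S then (C (Ev N g i S)).toReal else 0 := by
  classical
  have hp := hC.fin
  rw [← Finset.sum_filter]
  have h1 : Ng N (g j * (g i)⁻¹) =
      ⋃ S ∈ Finset.univ.filter (fun S : Finset (Fin n) => j ∈ S), Ev N g i S := by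
    ext ω
    simp only [mem_iUnion, Finset.mem_filter, Finset.mem_univ, true_and, exists_prop]
    constructor
    · intro h
      refine ⟨Finset.univ.filter (fun j => ω ∈ Ng N (g j * (g i)⁻¹)), ?_, fun l => ?_⟩
      · simpa using h
      · simp
    · rintro ⟨S, hS, hω⟩
      exact (hω j).1 hS
  rw [h1, measure_biUnion_finset]
  · rw [ENNReal.toReal_sum]
    intro S _
    exact measure_ne_top _ _
  · intro S _ S' _ hne
    refine Set.disjoint_left.2 fun ω hω hω' => hne ?_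
    ext l
    rw [hω l, hω' l]
  · intro S _
    exact meas_Ev hC g i S

theorem psd (hC : Hyp C N T) (n : ℕ) (g : Fin n → G) (a : Fin n → ℝ) :
    0 ≤ ∑ i, ∑ j, a i * a j * (C (Ng N (g j * (g i)⁻¹))).toReal := by
  classical
  have h1 : ∑ i, ∑ j, a i * a j * (C (Ng N (g j * (g i)⁻¹))).toReal =
      ∑ S : Finset (Fin n), (∑ i, a i * (C (Ev N g i S)).toReal) * ∑ j ∈ S, a j := by
    have h2 : ∀ i j, a i * a j * (C (Ng N (g j * (g i)⁻¹))).toReal =
        ∑ S : Finset (Fin n), a i * (C (Ev N g i S)).toReal * (if j ∈ S then a j else 0) := by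
      intro i j
      rw [N_sum hC, Finset.mul_sum]
      refine Finset.sum_congr rfl fun S _ => ?_
      split_ifs <;> ring
    simp only [h2]
    rw [Finset.sum_congr rfl fun i _ => Finset.sum_comm, Finset.sum_comm]
    refine Finset.sum_congr rfl fun S _ => ?_
    rw [Finset.sum_mul]
    refine Finset.sum_congr rfl fun i _ => ?_
    rw [← Finset.mul_sum, Finset.sum_ite_mem, Finset.univ_inter]
  rw [h1]
  refine Finset.sum_nonneg fun S _ => ?_
  rcases S.eq_empty_or_nonempty with hS | ⟨k, hk⟩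
  · rw [hS]
    simp
  · have h3 : ∑ i, a i * (C (Ev N g i S)).toReal = (C (Ev N g k S)).toReal * ∑ i ∈ S, a i := by
      have h6 : ∀ i, a i * (C (Ev N g i S)).toReal =
          if i ∈ S then (C (Ev N g k S)).toReal * a i else 0 := by
        intro i
        by_cases hi : i ∈ S
        · rw [if_pos hi, Ev_swap hC g hi hk]
          ring
        · rw [if_neg hi, Ev_zero hC g hi]
          simp
      simp only [h6]
      rw [Finset.sum_ite_mem, Finset.univ_inter, Finset.mul_sum]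
    rw [h3]
    have h4 : 0 ≤ (C (Ev N g k S)).toReal := ENNReal.toReal_nonneg
    have h5 := mul_self_nonneg (∑ i ∈ S, a i)
    nlinarith [mul_nonneg h4 h5]

end

theorem holds : Pool.Agent.H646.CS.S_pd := by
  intro G H Ω _ _ _ _ C N T hfin h0 hN _ hmem hone huniq hinv
  have hC : Hyp C N T := ⟨hfin, hN, hmem, hone, huniq, hinv⟩
  have hpos : 0 < (C univ).toReal := ENNReal.toReal_pos h0 (measure_ne_top C univ)
  refine ⟨?_, ?_, ?_⟩
  · show (C (Ng N 1)).toReal / (C univ).toReal = 1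
    have h1 : C (Ng N 1) = C univ := by
      have h2 := measure_add_measure_compl (μ := C) (meas_Ng hC (1 : G))
      rw [N_one hC, add_zero] at h2
      exact h2
    rw [h1, div_self hpos.ne']
  · intro g
    show (C (Ng N g⁻¹)).toReal / (C univ).toReal = (C (Ng N g)).toReal / (C univ).toReal
    have h1 := key hC g MeasurableSet.univ MeasurableSet.univ (fun u ω _ => by simp)
    rw [inter_univ, inter_univ] at h1
    rw [h1]
  · intro n g a
    have h1 := psd hC n g a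
    show 0 ≤ ∑ i, ∑ j, a i * a j * ((C (Ng N (g j * (g i)⁻¹))).toReal / (C univ).toReal)
    have h2 : ∑ i, ∑ j, a i * a j * ((C (Ng N (g j * (g i)⁻¹))).toReal / (C univ).toReal) =
        (∑ i, ∑ j, a i * a j * (C (Ng N (g j * (g i)⁻¹))).toReal) / (C univ).toReal := by
      rw [Finset.sum_div]
      refine Finset.sum_congr rfl fun i _ => ?_
      rw [Finset.sum_div]
      refine Finset.sum_congr rfl fun j _ => ?_
      ring
    rw [h2]
    exact div_nonneg h1 hpos.le

end Pool.Agent.H734.CSPD
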