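import Pool.Agent.H646.CS.Stm

set_option autoImplicit false

/-! S_tgt of the project CS. -/

namespace Pool.Agent.H646.CStgt

open MeasureTheory ProbabilityTheory Set Topology TopologicalSpace Filter
open Pool.Agent.H646.CR (P IsSys mu) 
open Pool.Agent.H646.CS
open scoped ENNReal

theorem cnt_prob (n : ℕ) :
    IsProbabilityMeasure (((n : ℝ≥0∞) + 1)⁻¹ • (Measure.count : Measure (ZMod (n + 1)))) := by
  refine ⟨?_⟩
  rw [Measure.smul_apply, smul_eq_mul, Measure.count_apply MeasurableSet.univ,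
    Set.encard_univ]
  have h1 : ENat.card (ZMod (n + 1)) = ((n + 1 : ℕ) : ℕ∞) := by
    rw [ENat.card_eq_coe_fintype_card, ZMod.card]
  rw [h1]
  have h2 : (((n + 1 : ℕ) : ℕ∞) : ℝ≥0∞) = (n : ℝ≥0∞) + 1 := by push_cast; rfl
  rw [h2]
  refine ENNReal.inv_mul_cancel (by simp) ?_
  exact ENNReal.add_ne_top.2 ⟨ENNReal.natCast_ne_top n, ENNReal.one_ne_top⟩

theorem cnt_inv (n : ℕ) (a : ZMod (n + 1)) :
    Measure.map (fun z => a + z) (((n : ℝ≥0∞) + 1)⁻¹ • (Measure.count : Measure (ZMod (n + 1)))) =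
      ((n : ℝ≥0∞) + 1)⁻¹ • (Measure.count : Measure (ZMod (n + 1))) := by
  rw [Measure.map_smul]
  congr 1
  exact map_add_left_eq_self Measure.count a

theorem holds : S_tgt := by
  intro G K _ _ _ _ _ _ _ _ _ lam q c Q X0 hS n
  have := hS.prob
  have := cnt_prob n
  refine ⟨?_, ?_, ?_⟩
  · unfold lamn
    infer_instance
  · intro h x
    show (h.1 • ((x.1, x.2.1) : P × K)).1 = x.1
    exact hS.fst_smul _ _
  · intro h s
    unfold lamn
    have hm : Measurable (fun k : K => (h.1 • ((s, k) : P × K)).2) :=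
      measurable_snd.comp ((continuous_const_smul h.1).measurable.comp measurable_prodMk_left)
    have hm2 : Measurable (fun z : ZMod (n + 1) => Multiplicative.toAdd h.2 + z) :=
      measurable_of_countable _
    have e : (fun k : Mn K n => (h • ((s, k) : P × Mn K n)).2) =
        Prod.map (fun k : K => (h.1 • ((s, k) : P × K)).2)
          (fun z : ZMod (n + 1) => Multiplicative.toAdd h.2 + z) := rfl
    rw [e, ← Measure.map_prod_map _ _ hm hm2, hS.pres, cnt_inv]

end Pool.Agent.H646.CStgt
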