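import Pool.Agent.H646.CS.Stm

set_option autoImplicit false

/-!
# Project CS of helper646: the lemma `S_tr2` (disintegration over the parameter)
-/

namespace Pool.Agent.H34.CStr2

open MeasureTheory ProbabilityTheory Set Topology TopologicalSpace Filter
open scoped ENNReal
open Pool.Agent.H646.CR (P en en_surj dn b2r IsPD mu IsSys)
open Pool.Agent.H646.CS

/-- Two finite kernels with the same integrals are almost everywhere equal. -/
theorem kae {α Ω : Type} [MeasurableSpace α] [MeasurableSpace Ω]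
    [MeasurableSpace.CountablyGenerated Ω]
    (m : Measure α) [IsFiniteMeasure m] (κ₁ κ₂ : Kernel α Ω) [IsFiniteKernel κ₁] [IsFiniteKernel κ₂]
    (h : ∀ A : Set α, MeasurableSet A → ∀ D : Set Ω, MeasurableSet D →
      ∫⁻ s in A, κ₁ s D ∂m = ∫⁻ s in A, κ₂ s D ∂m) : ∀ᵐ s ∂m, κ₁ s = κ₂ s := by
  apply Kernel.ae_eq_of_compProd_eq
  apply Measure.ext_prod
  intro A D hA hD
  rw [Measure.compProd_apply_prod hA hD, Measure.compProd_apply_prod hA hD]
  exact h A hA D hD

theorem compl_le {Ω : Type} [MeasurableSpace Ω] (μ : Measure Ω) [IsProbabilityMeasure μ] {A : Set Ω}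
    (hA : MeasurableSet A) {a : ℝ} (ha0 : 0 ≤ a) (ha1 : a ≤ 1) (h : ENNReal.ofReal (1 - a) ≤ μ A) :
    μ Aᶜ ≤ ENNReal.ofReal a := by
  rw [prob_compl_eq_one_sub hA]
  have h1 : (1 : ℝ≥0∞) = ENNReal.ofReal (1 - a) + ENNReal.ofReal a := by
    rw [← ENNReal.ofReal_add (by linarith) ha0]
    norm_num
  rw [tsub_le_iff_right, h1, add_comm]
  exact add_le_add le_rfl h

theorem le_of_compl {Ω : Type} [MeasurableSpace Ω] (μ : Measure Ω) [IsProbabilityMeasure μ] {A : Set Ω}
    (hA : MeasurableSet A) {a : ℝ} (ha0 : 0 ≤ a) (h : μ Aᶜ ≤ ENNReal.ofReal a) :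
    ENNReal.ofReal (1 - a) ≤ μ A := by
  have h1 : μ A + μ Aᶜ = 1 := prob_add_prob_compl hA
  have h2 : (1 : ℝ≥0∞) ≤ μ A + ENNReal.ofReal a := by
    rw [← h1]; exact add_le_add le_rfl h
  rw [ENNReal.ofReal_sub _ ha0, ENNReal.ofReal_one]
  exact tsub_le_iff_right.2 h2

theorem polish (K : Type) [TopologicalSpace K] [CompactSpace K] [MetrizableSpace K] :
    PolishSpace K := by
  letI := metrizableSpaceMetric K
  infer_instance

section

variable {G K H M : Type} [Group G] [Countable G] [TopologicalSpace K] [CompactSpace K]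
  [MetrizableSpace K] [MeasurableSpace K] [BorelSpace K]
  [Group H] [Countable H] [TopologicalSpace M] [CompactSpace M]
  [MetrizableSpace M] [MeasurableSpace M] [BorelSpace M]

theorem mlab (g : G) (u : H) (b : Bool) : MeasurableSet {ω : St G K H M | ω.2.2 g u = b} := by
  have h : Measurable fun ω : St G K H M => ω.2.2 g u :=
    (measurable_pi_apply u).comp ((measurable_pi_apply g).comp (measurable_snd.comp measurable_snd))
  exact h (measurableSet_singleton b)

theorem mFX (l : ℕ) (g : G) : MeasurableSet (FX l g : Set (St G K H M)) := by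
  have h : (FX l g : Set (St G K H M)) = ⋃ m : ℕ,
      ({ω : St G K H M | |dn (P × M) l ω.1 - m| ≤ 1 / 4} ∩
      {ω | ω.2.2 g (en H m) = true}) := by
    ext ω
    simp only [FX, mem_ofPred_eq, mem_iUnion, mem_inter_iff]
  rw [h]
  refine MeasurableSet.iUnion fun m => MeasurableSet.inter ?_ (mlab g _ _)
  refine measurableSet_le ?_ measurable_const
  have h1 : Measurable fun ω : St G K H M => dn (P × M) l ω.1 :=
    (dn (P × M) l).continuous.measurable.comp measurable_fst
  exact (h1.sub_const _).abs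

theorem mHX {q : P × K → Bool} (hq : Continuous q) (l : ℕ) :
    MeasurableSet (HX q l : Set (St G K H M)) := by
  unfold HX
  refine measurableSet_le ?_ measurable_const
  have h1 : Measurable fun ω : St G K H M => dn (P × M) l ω.1 :=
    (dn (P × M) l).continuous.measurable.comp measurable_fst
  have h2 : Measurable fun ω : St G K H M => b2r (q ω.2.1) :=
    (measurable_of_countable b2r).comp (hq.measurable.comp (measurable_fst.comp measurable_snd))
  exact (h1.sub h2).abs

variable [MulAction G (P × K)] [ContinuousConstSMul G (P × K)]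
  [MulAction H (P × M)] [ContinuousConstSMul H (P × M)]

theorem mT (g : G) (u : H) : Measurable (T g u : St G K H M → St G K H M) := by
  unfold T
  have hs : ∀ w : G, Measurable fun x : P × K => w • x := fun w => (continuous_const_smul w).measurable
  have hs' : ∀ w : H, Measurable fun x : P × M => w • x := fun w =>
    (continuous_const_smul w).measurable
  refine ((hs' u).comp measurable_fst).prodMk
    (((hs g).comp (measurable_fst.comp measurable_snd)).prodMk ?_)
  refine measurable_pi_lambda _ fun h => measurable_pi_lambda _ fun w => ?_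
  unfold shL
  exact (measurable_pi_apply (w * u)).comp ((measurable_pi_apply (h * g)).comp
    (measurable_snd.comp measurable_snd))

end

theorem holds : S_tr2 := by
  intro G K H M _ _ _ _ _ _ _ _ _ _ _ _ _ _ _ _ _ _ q Q hq hfst X2 hX2 l l' d η hW hd hX hF hH
  haveI := hW.prob
  haveI := polish K
  haveI := polish M
  haveI : Nonempty (St G K H M) := by
    by_contra hc
    rw [not_nonempty_iff] at hc
    have h1 : η univ = 1 := measure_univ
    rw [univ_eq_empty_iff.2 hc, measure_empty] at h1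
    exact zero_ne_one h1
  obtain ⟨f, hf⟩ : ∃ f : St G K H M → P, f = fun ω => ω.1.1 := ⟨_, rfl⟩
  have hfm : Measurable f := by rw [hf]; exact measurable_fst.comp measurable_fst
  obtain ⟨m, hm⟩ : ∃ m : Measure P, m = Measure.map f η := ⟨_, rfl⟩
  haveI : IsProbabilityMeasure m := by
    rw [hm]; exact Measure.isProbabilityMeasure_map hfm.aemeasurable
  obtain ⟨κ, hκ⟩ : ∃ κ : Kernel P (St G K H M), κ = condDistrib id f η := ⟨_, rfl⟩
  haveI : IsMarkovKernel κ := by rw [hκ]; infer_instance
  have hcp : m ⊗ₘ κ = Measure.map (fun ω => (f ω, ω)) η := by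
    rw [hm, hκ]
    exact compProd_map_condDistrib aemeasurable_id
  have hpm : Measurable fun ω : St G K H M => (f ω, ω) := hfm.prodMk measurable_id
  have key : ∀ A : Set P, MeasurableSet A → ∀ D : Set (St G K H M), MeasurableSet D →
      ∫⁻ s in A, κ s D ∂m = η (f ⁻¹' A ∩ D) := by
    intro A hA D hD
    rw [← Measure.compProd_apply_prod hA hD, hcp, Measure.map_apply hpm (hA.prod hD)]
    rfl
  have key0 : ∀ D : Set (St G K H M), MeasurableSet D → ∫⁻ s, κ s D ∂m = η D := by
    intro D hD
    have h1 := key univ MeasurableSet.univ D hD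
    rwa [Measure.restrict_univ, preimage_univ, univ_inter] at h1
  have hnull : ∀ N : Set (St G K H M), MeasurableSet N → η N = 0 → ∀ᵐ s ∂m, κ s N = 0 := by
    intro N hN h0
    have h1 := key0 N hN
    rw [h0, lintegral_eq_zero_iff (κ.measurable_coe hN)] at h1
    exact h1
  -- the fibre
  have hfib : ∀ᵐ s ∂m, κ s {ω | ω.1.1 ≠ s} = 0 := by
    have hS : MeasurableSet {p : P × St G K H M | p.2.1.1 ≠ p.1} := by
      have h1 : MeasurableSet {p : P × St G K H M | p.2.1.1 = p.1} :=
        measurableSet_eq_fun (measurable_fst.comp (measurable_fst.comp measurable_snd))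
          measurable_fst
      exact h1.compl
    have h1 : (m ⊗ₘ κ) {p : P × St G K H M | p.2.1.1 ≠ p.1} = 0 := by
      rw [hcp, Measure.map_apply hpm hS]
      have h2 : (fun ω : St G K H M => (f ω, ω)) ⁻¹' {p : P × St G K H M | p.2.1.1 ≠ p.1} = ∅ := by
        ext ω
        simp only [mem_preimage, mem_ofPred_eq, mem_empty_iff_false, iff_false, not_not]
        rw [hf]
      rw [h2, measure_empty]
    rw [Measure.compProd_apply hS,
      lintegral_eq_zero_iff (Kernel.measurable_kernel_prodMk_left hS)] at h1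
    exact h1
  -- the invariance
  have hinv : ∀ᵐ s ∂m, ∀ (g : G) (u : H), ∀ D : Set (St G K H M), MeasurableSet D →
      κ s ({ω | ω.2.2 g u = true} ∩ T g u ⁻¹' D) = κ s ({ω | ω.2.2 g⁻¹ u⁻¹ = true} ∩ D) := by
    rw [ae_all_iff]
    intro g
    rw [ae_all_iff]
    intro u
    have hm1 : MeasurableSet {ω : St G K H M | ω.2.2 g u = true} := mlab g u true
    have hm2 : MeasurableSet {ω : St G K H M | ω.2.2 g⁻¹ u⁻¹ = true} := mlab _ _ true
    have hTm : Measurable (T g u : St G K H M → St G K H M) := mT g u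
    have hA1 : ∀ (s : P) (D : Set (St G K H M)), MeasurableSet D →
        ((κ.restrict hm1).map (T g u)) s D = κ s ({ω | ω.2.2 g u = true} ∩ T g u ⁻¹' D) := by
      intro s D hD
      rw [Kernel.map_apply' _ hTm _ hD, Kernel.restrict_apply' _ _ _ (hTm hD), inter_comm]
    have hA2 : ∀ (s : P) (D : Set (St G K H M)), MeasurableSet D →
        (κ.restrict hm2) s D = κ s ({ω | ω.2.2 g⁻¹ u⁻¹ = true} ∩ D) := by
      intro s D hD
      rw [Kernel.restrict_apply' _ _ _ hD, inter_comm]
    have h1 : ∀ᵐ s ∂m, ((κ.restrict hm1).map (T g u)) s = (κ.restrict hm2) s := by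
      apply kae
      intro A hA D hD
      simp only [hA1 _ D hD, hA2 _ D hD]
      rw [key A hA _ (hm1.inter (hTm hD)), key A hA _ (hm2.inter hD)]
      have h2 := hW.inv g u (f ⁻¹' A ∩ D) ((hfm hA).inter hD)
      have e1 : f ⁻¹' A ∩ ({ω : St G K H M | ω.2.2 g u = true} ∩ T g u ⁻¹' D) =
          {ω | ω.2.2 g u = true} ∩ T g u ⁻¹' (f ⁻¹' A ∩ D) := by
        ext ω
        have h3 : f (T g u ω) = f ω := by
          rw [hf]
          exact hfst u ω.1
        simp only [mem_inter_iff, mem_preimage, h3]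
        tauto
      have e2 : f ⁻¹' A ∩ ({ω : St G K H M | ω.2.2 g⁻¹ u⁻¹ = true} ∩ D) =
          {ω | ω.2.2 g⁻¹ u⁻¹ = true} ∩ (f ⁻¹' A ∩ D) := by
        ext ω
        simp only [mem_inter_iff]
        tauto
      rw [e1, e2]
      exact h2
    filter_upwards [h1] with s hs D hD
    rw [← hA1 s D hD, ← hA2 s D hD, hs]
  have hone : ∀ᵐ s ∂m, κ s {ω | ω.2.2 1 1 = false} = 0 := hnull _ (mlab 1 1 false) hW.lab_one
  have huniq : ∀ᵐ s ∂m, ∀ (g : G) (u w : H), u ≠ w →
      κ s {ω | ω.2.2 g u = true ∧ ω.2.2 g w = true} = 0 := by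
    rw [ae_all_iff]
    intro g
    rw [ae_all_iff]
    intro u
    rw [ae_all_iff]
    intro w
    by_cases huw : u = w
    · exact Eventually.of_forall fun s h => absurd huw h
    · filter_upwards [hnull _ ((mlab g u true).inter (mlab g w true)) (hW.lab_uniq g u w huw)]
        with s hs _
      exact hs
  have hpar : ∀ᵐ s ∂m, κ s {ω | ω.2.1.1 ≠ d} = 0 := by
    apply hnull _ _ hd
    have h1 : Measurable fun ω : St G K H M => ω.2.1.1 :=
      measurable_fst.comp (measurable_fst.comp measurable_snd)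
    exact h1 (measurableSet_singleton d).compl
  have hsX : ∀ᵐ s ∂m, κ s {ω | ω.1 ∉ X2} = 0 := by
    apply hnull _ _ hX
    exact measurable_fst hX2.compl
  -- the failure
  by_contra hc
  push Not at hc
  have hbig : ∀ᵐ s ∂m, ENNReal.ofReal (1 / 10 ^ 8) <
      ∑ i, κ s (FX (l i) (Q8 Q i))ᶜ + κ s (HX q l')ᶜ := by
    filter_upwards [hfib, hinv, hone, huniq, hpar, hsX] with s h1 h2 h3 h4 h5 h6
    by_contra h7
    rw [not_lt] at h7
    apply hc s (κ s) _ h6
    refine ⟨⟨inferInstance, h3, h4, h2⟩, h1, h5, ?_, ?_⟩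
    · intro i
      apply le_of_compl _ (mFX _ _) (by norm_num)
      refine le_trans ?_ h7
      refine le_trans ?_ (le_self_add)
      exact Finset.single_le_sum (f := fun i => κ s (FX (l i) (Q8 Q i))ᶜ) (fun _ _ => zero_le)
        (Finset.mem_univ i)
    · apply le_of_compl _ (mHX hq _) (by norm_num)
      exact le_trans le_add_self h7
  have hint : ∫⁻ s, (∑ i, κ s (FX (l i) (Q8 Q i))ᶜ + κ s (HX q l')ᶜ) ∂m ≤
      ENNReal.ofReal (1 / 10 ^ 9) := by
    have hk1 : ∀ i, Measurable fun s => κ s (FX (l i) (Q8 Q i))ᶜ := fun i =>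
      κ.measurable_coe (mFX _ _).compl
    rw [lintegral_add_left (Finset.measurable_sum _ fun i _ => hk1 i),
      lintegral_finsetSum _ fun i _ => hk1 i, key0 _ (mHX hq _).compl]
    have e1 : ∀ i, ∫⁻ s, κ s (FX (l i) (Q8 Q i))ᶜ ∂m ≤ ENNReal.ofReal (1 / 10 ^ 10) := by
      intro i
      rw [key0 _ (mFX _ _).compl]
      exact compl_le η (mFX _ _) (by norm_num) (by norm_num) (hF i)
    have e2 : η (HX q l')ᶜ ≤ ENNReal.ofReal (1 / 10 ^ 10) :=
      compl_le η (mHX hq _) (by norm_num) (by norm_num) hH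
    calc _ ≤ ∑ _i : Ix, ENNReal.ofReal (1 / 10 ^ 10) + ENNReal.ofReal (1 / 10 ^ 10) :=
          add_le_add (Finset.sum_le_sum fun i _ => e1 i) e2
      _ = ENNReal.ofReal (9 / 10 ^ 10) := by
          have h8 : Fintype.card Ix = 8 := rfl
          rw [Finset.sum_const, Finset.card_univ, h8, nsmul_eq_mul]
          have : ((8 : ℕ) : ℝ≥0∞) = ENNReal.ofReal 8 := by simp
          rw [this, ← ENNReal.ofReal_mul (by norm_num), ← ENNReal.ofReal_add (by norm_num) (by norm_num)]
          norm_num
      _ ≤ ENNReal.ofReal (1 / 10 ^ 9) := ENNReal.ofReal_le_ofReal (by norm_num)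
  have hlow : ENNReal.ofReal (1 / 10 ^ 8) ≤
      ∫⁻ s, (∑ i, κ s (FX (l i) (Q8 Q i))ᶜ + κ s (HX q l')ᶜ) ∂m := by
    calc ENNReal.ofReal (1 / 10 ^ 8) = ∫⁻ _s, ENNReal.ofReal (1 / 10 ^ 8) ∂m := by
          rw [lintegral_const, measure_univ, mul_one]
      _ ≤ _ := lintegral_mono_ae (hbig.mono fun s hs => hs.le)
  have h9 := hlow.trans hint
  rw [ENNReal.ofReal_le_ofReal_iff (by norm_num)] at h9
  norm_num at h9

end Pool.Agent.H34.CStr2
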