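import Pool.Agent.H646.CS.Stm

set_option autoImplicit false

/-!
# Project CS: measurability of `tr` and `W0` for the labelled process
-/

namespace Pool.Agent.H400.CStra

open MeasureTheory ProbabilityTheory Set Topology TopologicalSpace Filter
open scoped ENNReal
open Pool.Agent.H646.CR (P en en_surj dn b2r IsPD mu IsSys)
open Pool.Agent.H646.CS

/-- the relation described by the labels -/
def LR {G K Z : Type} [Group G] [MulAction G (P × K)] (n : ℕ) (Ξ : Z → (P × K) × ℕ)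
    (ω : (P × K) × (G → Z)) (g : G) (u : Hn G n) : Prop :=
  (Ξ (ω.2 1)).2 ≤ n ∧ (Ξ (ω.2 g)).2 ≤ n ∧ (Ξ (ω.2 g)).1 = u.1 • (Ξ (ω.2 1)).1 ∧
    (((Ξ (ω.2 g)).2 : ZMod (n + 1)) = Multiplicative.toAdd u.2 +
        ((Ξ (ω.2 1)).2 : ZMod (n + 1)))

theorem tr_lab {G K Z : Type} [Group G] [MulAction G (P × K)] (n : ℕ) (Ξ : Z → (P × K) × ℕ)
    (ω : (P × K) × (G → Z)) (g : G) (u : Hn G n) :
    (tr n Ξ ω).2.2 g u = true ↔ LR n Ξ ω g u := by
  show @decide (LR n Ξ ω g u) (Classical.propDecidable _) = true ↔ _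
  exact @decide_eq_true_iff _ (Classical.propDecidable _)

theorem holds_trm : S_trm := by
  intro G K _ _ _ _ _ _ _ _ _ Z _ _ _ _ _ n Ξ hΞ
  have hsm : ∀ u : G, Measurable fun x : P × K => u • x := fun u =>
    (continuous_const_smul u).measurable
  have h0 : ∀ g : G, Measurable fun ω : (P × K) × (G → Z) => Ξ (ω.2 g) := fun g =>
    hΞ.comp ((measurable_pi_apply g).comp measurable_snd)
  have hc : ∀ g : G, Measurable fun ω : (P × K) × (G → Z) => (((Ξ (ω.2 g)).2 : ℕ) : ZMod (n + 1)) :=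
    fun g => (measurable_of_countable (fun k : ℕ => (k : ZMod (n + 1)))).comp
      (measurable_snd.comp (h0 g))
  have hb : ∀ g : G, MeasurableSet {ω : (P × K) × (G → Z) | (Ξ (ω.2 g)).2 ≤ n} := fun g =>
    (measurable_snd.comp (h0 g)) (MeasurableSet.of_discrete (s := {k : ℕ | k ≤ n}))
  refine ((measurable_fst.comp (measurable_fst.comp (h0 1))).prodMk
    ((measurable_snd.comp (measurable_fst.comp (h0 1))).prodMk (hc 1))).prodMk
    (measurable_fst.prodMk ?_)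
  rw [measurable_pi_iff]
  intro g
  rw [measurable_pi_iff]
  intro u
  apply measurable_to_bool
  have h1 : MeasurableSet {ω : (P × K) × (G → Z) | (Ξ (ω.2 g)).1 = u.1 • (Ξ (ω.2 1)).1} :=
    measurableSet_eq_fun (measurable_fst.comp (h0 g))
      ((hsm u.1).comp (measurable_fst.comp (h0 1)))
  have h2 : MeasurableSet {ω : (P × K) × (G → Z) | ((Ξ (ω.2 g)).2 : ZMod (n + 1)) =
      Multiplicative.toAdd u.2 + ((Ξ (ω.2 1)).2 : ZMod (n + 1))} :=
    measurableSet_eq_fun (hc g)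
      ((measurable_of_countable (fun z : ZMod (n + 1) => Multiplicative.toAdd u.2 + z)).comp (hc 1))
  have h3 : MeasurableSet {ω : (P × K) × (G → Z) | LR n Ξ ω g u} :=
    (hb 1).inter ((hb g).inter (h1.inter h2))
  refine (congrArg MeasurableSet ?_).mpr h3
  ext ω
  exact tr_lab n Ξ ω g u

theorem tr_R {G K Z : Type} [Group G] [MulAction G (P × K)] (n : ℕ) (Ξ : Z → (P × K) × ℕ)
    (ω : (P × K) × (G → Z)) (g : G) (u : Hn G n) (h : LR n Ξ ω g u) :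
    tr n Ξ ((g • ω.1, fun k => ω.2 (k * g)) : (P × K) × (G → Z)) = T g u (tr n Ξ ω) := by
  obtain ⟨h1, h2, h3, h4⟩ := h
  have e1 : (1 : G) * g = g := one_mul g
  refine Prod.ext ?_ (Prod.ext rfl ?_)
  · show ((Ξ (ω.2 (1 * g))).1.1, ((Ξ (ω.2 (1 * g))).1.2, ((Ξ (ω.2 (1 * g))).2 : ZMod (n + 1)))) =
      u • (((Ξ (ω.2 1)).1.1, ((Ξ (ω.2 1)).1.2, ((Ξ (ω.2 1)).2 : ZMod (n + 1)))) : P × Mn K n)
    rw [smul_Mn, e1]
    show ((Ξ (ω.2 g)).1.1, ((Ξ (ω.2 g)).1.2, ((Ξ (ω.2 g)).2 : ZMod (n + 1)))) =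
      ((u.1 • (Ξ (ω.2 1)).1).1, ((u.1 • (Ξ (ω.2 1)).1).2,
        Multiplicative.toAdd u.2 + ((Ξ (ω.2 1)).2 : ZMod (n + 1))))
    rw [← h3, ← h4]
  · funext k w
    rw [Bool.eq_iff_iff, tr_lab]
    show _ ↔ (tr n Ξ ω).2.2 (k * g) (w * u) = true
    rw [tr_lab]
    show ((Ξ (ω.2 (1 * g))).2 ≤ n ∧ (Ξ (ω.2 (k * g))).2 ≤ n ∧
        (Ξ (ω.2 (k * g))).1 = w.1 • (Ξ (ω.2 (1 * g))).1 ∧
        (((Ξ (ω.2 (k * g))).2 : ZMod (n + 1)) = Multiplicative.toAdd w.2 +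
          ((Ξ (ω.2 (1 * g))).2 : ZMod (n + 1)))) ↔
      ((Ξ (ω.2 1)).2 ≤ n ∧ (Ξ (ω.2 (k * g))).2 ≤ n ∧
        (Ξ (ω.2 (k * g))).1 = (w * u).1 • (Ξ (ω.2 1)).1 ∧
        (((Ξ (ω.2 (k * g))).2 : ZMod (n + 1)) = Multiplicative.toAdd (w * u).2 +
          ((Ξ (ω.2 1)).2 : ZMod (n + 1))))
    rw [e1, h3, h4, Prod.fst_mul, Prod.snd_mul, toAdd_mul, mul_smul, add_assoc]
    constructor
    · rintro ⟨_, a2, a3, a4⟩
      exact ⟨h1, a2, a3, a4⟩
    · rintro ⟨_, a2, a3, a4⟩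
      exact ⟨h2, a2, a3, a4⟩

theorem lr_inv {G K Z : Type} [Group G] [MulAction G (P × K)] (n : ℕ) (Ξ : Z → (P × K) × ℕ)
    (ω : (P × K) × (G → Z)) (g : G) (u : Hn G n) :
    LR n Ξ ((g • ω.1, fun k => ω.2 (k * g)) : (P × K) × (G → Z)) g⁻¹ u⁻¹ ↔ LR n Ξ ω g u := by
  show ((Ξ (ω.2 (1 * g))).2 ≤ n ∧ (Ξ (ω.2 (g⁻¹ * g))).2 ≤ n ∧
        (Ξ (ω.2 (g⁻¹ * g))).1 = (u⁻¹).1 • (Ξ (ω.2 (1 * g))).1 ∧
        (((Ξ (ω.2 (g⁻¹ * g))).2 : ZMod (n + 1)) = Multiplicative.toAdd (u⁻¹).2 +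
          ((Ξ (ω.2 (1 * g))).2 : ZMod (n + 1)))) ↔
    ((Ξ (ω.2 1)).2 ≤ n ∧ (Ξ (ω.2 g)).2 ≤ n ∧ (Ξ (ω.2 g)).1 = u.1 • (Ξ (ω.2 1)).1 ∧
    (((Ξ (ω.2 g)).2 : ZMod (n + 1)) = Multiplicative.toAdd u.2 +
        ((Ξ (ω.2 1)).2 : ZMod (n + 1))))
  rw [inv_mul_cancel, one_mul, Prod.fst_inv, Prod.snd_inv, toAdd_inv, eq_inv_smul_iff]
  constructor
  · rintro ⟨a1, a2, a3, a4⟩
    exact ⟨a2, a1, a3.symm, by rw [a4]; ring⟩
  · rintro ⟨a1, a2, a3, a4⟩
    exact ⟨a2, a1, a3.symm, by rw [a4]; ring⟩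

theorem holds_tra : S_tra := by
  intro G K _ _ _ _ _ _ _ _ _ Z _ _ _ _ _ act q Q X1 Ξ hco l l' d ζ hζ n hE
  have hm : Measurable (tr (G := G) n Ξ) := holds_trm G K Z n Ξ hco.mΞ
  have hprob := hζ.prob
  have hev : ∀ g : G, Measurable fun ω : (P × K) × (G → Z) => ω.2 g := fun g =>
    (measurable_pi_apply g).comp measurable_snd
  set E : Set ((P × K) × (G → Z)) := {ω | (Ξ (ω.2 1)).2 ≤ n} with hEdef
  have hEm : MeasurableSet E :=
    (measurable_snd.comp (hco.mΞ.comp (hev 1))) (MeasurableSet.of_discrete (s := {k : ℕ | k ≤ n}))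
  have hlab : ∀ (g : G) (u : Hn G n), MeasurableSet {ω : St G K (Hn G n) (Mn K n) |
      ω.2.2 g u = true} := by
    intro g u
    have h1 : Measurable fun ω : St G K (Hn G n) (Mn K n) => ω.2.2 g u :=
      ((measurable_pi_apply u).comp ((measurable_pi_apply g).comp
        (measurable_snd.comp measurable_snd)))
    exact h1 (measurableSet_singleton true)
  have hT : ∀ (g : G) (u : Hn G n), Measurable (T (K := K) (M := Mn K n) g u) := by
    intro g u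
    refine ((continuous_const_smul u).measurable.comp measurable_fst).prodMk
      (((continuous_const_smul g).measurable.comp
        (measurable_fst.comp measurable_snd)).prodMk ?_)
    rw [measurable_pi_iff]
    intro h
    rw [measurable_pi_iff]
    intro w
    exact ((measurable_pi_apply (w * u)).comp ((measurable_pi_apply (h * g)).comp
      (measurable_snd.comp measurable_snd)))
  -- the measure of a set
  have hap : ∀ D : Set (St G K (Hn G n) (Mn K n)), MeasurableSet D →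
      trM (G := G) n Ξ ζ D = (ζ E)⁻¹ * ζ (tr n Ξ ⁻¹' D ∩ E) := by
    intro D hD
    show ((ζ E)⁻¹ • Measure.map (tr n Ξ) (ζ.restrict E)) D = _
    rw [Measure.smul_apply, smul_eq_mul, Measure.map_apply hm hD,
      Measure.restrict_apply (hm hD)]
  refine ⟨⟨?_⟩, ?_, ?_, ?_⟩
  · rw [hap univ MeasurableSet.univ, preimage_univ, univ_inter]
    exact ENNReal.inv_mul_cancel hE (measure_ne_top _ _)
  · have h1 : MeasurableSet {ω : St G K (Hn G n) (Mn K n) | ω.2.2 1 1 = false} := by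
      have h2 : {ω : St G K (Hn G n) (Mn K n) | ω.2.2 1 1 = false} =
          {ω : St G K (Hn G n) (Mn K n) | ω.2.2 1 1 = true}ᶜ := by
        ext ω
        simp
      rw [h2]
      exact (hlab 1 1).compl
    rw [hap _ h1]
    have h3 : tr (G := G) n Ξ ⁻¹' {ω : St G K (Hn G n) (Mn K n) | ω.2.2 1 1 = false} ∩ E = ∅ := by
      rw [eq_empty_iff_forall_notMem]
      rintro ω ⟨hω, hωE⟩
      have h4 : (tr n Ξ ω).2.2 1 1 = false := hω
      have h5 : (tr n Ξ ω).2.2 1 1 = true := by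
        rw [tr_lab]
        have h6 : (Ξ (ω.2 1)).2 ≤ n := hωE
        refine ⟨h6, h6, ?_, ?_⟩
        · rw [Prod.fst_one, one_smul]
        · rw [Prod.snd_one, toAdd_one, zero_add]
      rw [h4] at h5
      exact Bool.noConfusion h5
    rw [h3, measure_empty, mul_zero]
  · intro g u w huw
    have h1 : MeasurableSet {ω : St G K (Hn G n) (Mn K n) | ω.2.2 g u = true ∧ ω.2.2 g w = true} :=
      (hlab g u).inter (hlab g w)
    rw [hap _ h1]
    have h3 : tr (G := G) n Ξ ⁻¹' {ω : St G K (Hn G n) (Mn K n) |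
        ω.2.2 g u = true ∧ ω.2.2 g w = true} ∩ E = ∅ := by
      rw [eq_empty_iff_forall_notMem]
      rintro ω ⟨⟨h2, h3⟩, hωE⟩
      rw [tr_lab] at h2 h3
      obtain ⟨_, _, a3, a4⟩ := h2
      obtain ⟨_, _, b3, b4⟩ := h3
      apply huw
      rw [a3] at b3
      rw [a4] at b4
      have h5 := hco.X1_free (w.1⁻¹ * u.1) (Ξ (ω.2 1)).1 (hco.ΞX _)
        (by rw [mul_smul, b3, inv_smul_smul])
      rw [inv_mul_eq_one] at h5
      refine Prod.ext h5.symm ?_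
      exact Multiplicative.toAdd.injective (add_right_cancel b4)
    rw [h3, measure_empty, mul_zero]
  · intro g u D hD
    rw [hap _ ((hlab g u).inter (hT g u hD)), hap _ ((hlab g⁻¹ u⁻¹).inter hD)]
    congr 1
    have hRm : Measurable fun ω : (P × K) × (G → Z) =>
        ((g • ω.1, fun k => ω.2 (k * g)) : (P × K) × (G → Z)) := by
      refine ((continuous_const_smul g).measurable.comp measurable_fst).prodMk ?_
      rw [measurable_pi_iff]
      intro k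
      exact hev (k * g)
    have hD1 : tr n Ξ ⁻¹' ({ω : St G K (Hn G n) (Mn K n) | ω.2.2 g⁻¹ u⁻¹ = true} ∩ D) ∩ E =
        tr n Ξ ⁻¹' ({ω : St G K (Hn G n) (Mn K n) | ω.2.2 g⁻¹ u⁻¹ = true} ∩ D) := by
      rw [inter_eq_left]
      rintro ω ⟨hω, _⟩
      exact ((tr_lab n Ξ ω _ _).1 hω).1
    have hD2 : tr n Ξ ⁻¹' ({ω : St G K (Hn G n) (Mn K n) | ω.2.2 g u = true} ∩
        T g u ⁻¹' D) ∩ E =
        tr n Ξ ⁻¹' ({ω : St G K (Hn G n) (Mn K n) | ω.2.2 g u = true} ∩ T g u ⁻¹' D) := by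
      rw [inter_eq_left]
      rintro ω ⟨hω, _⟩
      exact ((tr_lab n Ξ ω _ _).1 hω).1
    rw [hD1, hD2]
    conv_rhs => rw [← hζ.inv g]
    rw [Measure.map_apply hRm (hm ((hlab g⁻¹ u⁻¹).inter hD))]
    congr 1
    ext ω
    show ((tr n Ξ ω).2.2 g u = true ∧ T g u (tr n Ξ ω) ∈ D) ↔
      ((tr n Ξ ((g • ω.1, fun k => ω.2 (k * g)) : (P × K) × (G → Z))).2.2 g⁻¹ u⁻¹ = true ∧
        tr n Ξ ((g • ω.1, fun k => ω.2 (k * g)) : (P × K) × (G → Z)) ∈ D)
    rw [tr_lab, tr_lab, lr_inv]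
    constructor
    · rintro ⟨h2, h3⟩
      refine ⟨h2, ?_⟩
      rw [tr_R n Ξ ω g u h2]
      exact h3
    · rintro ⟨h2, h3⟩
      refine ⟨h2, ?_⟩
      rw [tr_R n Ξ ω g u h2] at h3
      exact h3

end Pool.Agent.H400.CStra
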