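import Pool.Agent.H646.CR.Main
import Pool.Agent.H646.CS.Asm2
import Pool.Agent.H646.CS.PTopo
import Pool.Agent.H646.CS.PTgt
import Pool.Agent.H646.CS.PLn
import Pool.Agent.H646.CS.PPd
import Pool.Agent.H646.CS.PHt
import Pool.Agent.H646.CS.POne
import Pool.Agent.H646.CS.PPair
import Pool.Agent.H646.CS.PCnt
import Pool.Agent.H646.CS.PCl0
import Pool.Agent.H646.CS.PMm
import Pool.Agent.H646.CS.PYcl
import Pool.Agent.H646.CS.PYex
import Pool.Agent.H646.CS.PTra
import Pool.Agent.H646.CS.PTrc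
import Pool.Agent.H646.CS.PTr2
import Pool.Agent.H646.CS.PFin

set_option autoImplicit false

/-!
# Assembly
-/

namespace Pool.Agent.H646.CS

theorem final_of (hcoup : S_coup) (hclC : S_clC) (hacx : S_acx) (hnull : S_null) : Final :=
  Pool.Agent.H402.CSfin.holds <|
    core_of Pool.Agent.H646.CR.isSys Pool.Agent.H646.CStopo.holds
      (Pool.Agent.H177.CScnt.holds (Pool.Agent.H353.CSpair.holds Pool.Agent.H734.CSPD.holds hcoup
        Pool.Agent.H155.CS_ht.holds Pool.Agent.H249.CSone.holds))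
      hclC hacx hnull Pool.Agent.H646.CStgt.holds Pool.Agent.H671.CSycl.holds
      Pool.Agent.H284.CS.Yex.holds_full Pool.Agent.H400.CStra.holds_trm
      Pool.Agent.H400.CStra.holds_tra
      (Pool.Agent.H597.CStrc.holds Pool.Agent.H263.CRApprox.holds Pool.Agent.H400.CStra.holds_trm)
      Pool.Agent.H34.CStr2.holds Pool.Agent.H646.CSln.holds

end Pool.Agent.H646.CS
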