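import Pool.Agent.H646.CS.Stm

set_option autoImplicit false

/-!
# Project CS of helper646: the lemma `S_acx` (reduction to bounded densities)
-/

namespace Pool.Agent.H307.CSacx

open MeasureTheory ProbabilityTheory Set Topology TopologicalSpace Filter
open scoped ENNReal
open Pool.Agent.H646.CR (P en en_surj dn b2r IsPD mu IsSys)
open Pool.Agent.H646.CS

theorem compl_le {Ω : Type} [MeasurableSpace Ω] (μ : Measure Ω) [IsProbabilityMeasure μ] {A : Set Ω}
    (hA : MeasurableSet A) {a : ℝ} (ha0 : 0 ≤ a) (ha1 : a ≤ 1) (h : ENNReal.ofReal (1 - a) ≤ μ A) :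
    μ Aᶜ ≤ ENNReal.ofReal a := by
  rw [prob_compl_eq_one_sub hA]
  have h1 : (1 : ℝ≥0∞) = ENNReal.ofReal (1 - a) + ENNReal.ofReal a := by
    rw [← ENNReal.ofReal_add (by linarith) ha0]
    norm_num
  rw [tsub_le_iff_right, h1, add_comm]
  exact add_le_add le_rfl h

theorem le_of_compl {Ω : Type} [MeasurableSpace Ω] (μ : Measure Ω) [IsProbabilityMeasure μ]
    {A : Set Ω} (hA : MeasurableSet A) {a : ℝ} (ha0 : 0 ≤ a) (h : μ Aᶜ ≤ ENNReal.ofReal a) :
    ENNReal.ofReal (1 - a) ≤ μ A := by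
  have h1 : μ A + μ Aᶜ = 1 := prob_add_prob_compl hA
  have h2 : (1 : ℝ≥0∞) ≤ μ A + ENNReal.ofReal a := by
    rw [← h1]; exact add_le_add le_rfl h
  rw [ENNReal.ofReal_sub _ ha0, ENNReal.ofReal_one]
  exact tsub_le_iff_right.2 h2

section

variable {G K H M : Type} [Group G] [Countable G] [TopologicalSpace K] [CompactSpace K]
  [MetrizableSpace K] [MeasurableSpace K] [BorelSpace K]
  [Group H] [Countable H] [TopologicalSpace M] [CompactSpace M]
  [MetrizableSpace M] [MeasurableSpace M] [BorelSpace M]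

theorem mlab (g : G) (u : H) (b : Bool) : MeasurableSet {ω : St G K H M | ω.2.2 g u = b} := by
  have h : Measurable fun ω : St G K H M => ω.2.2 g u :=
    (measurable_pi_apply u).comp ((measurable_pi_apply g).comp (measurable_snd.comp measurable_snd))
  exact h (measurableSet_singleton b)

theorem mFX (l : ℕ) (g : G) : MeasurableSet (FX l g : Set (St G K H M)) := by
  have h : (FX l g : Set (St G K H M)) = ⋃ m : ℕ,
      ({ω : St G K H M | |dn (P × M) l ω.1 - m| ≤ 1 / 4} ∩
      {ω | ω.2.2 g (en H m) = true}) := by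
    ext ω
    simp only [FX, mem_ofPred_eq, mem_iUnion, mem_inter_iff]
  rw [h]
  refine MeasurableSet.iUnion fun m => MeasurableSet.inter ?_ (mlab g _ _)
  refine measurableSet_le ?_ measurable_const
  have h1 : Measurable fun ω : St G K H M => dn (P × M) l ω.1 :=
    (dn (P × M) l).continuous.measurable.comp measurable_fst
  exact (h1.sub_const _).abs

theorem mHX {q : P × K → Bool} (hq : Continuous q) (l : ℕ) :
    MeasurableSet (HX q l : Set (St G K H M)) := by
  unfold HX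
  refine measurableSet_le ?_ measurable_const
  have h1 : Measurable fun ω : St G K H M => dn (P × M) l ω.1 :=
    (dn (P × M) l).continuous.measurable.comp measurable_fst
  have h2 : Measurable fun ω : St G K H M => b2r (q ω.2.1) :=
    (measurable_of_countable b2r).comp (hq.measurable.comp (measurable_fst.comp measurable_snd))
  exact (h1.sub h2).abs

variable [MulAction G (P × K)] [ContinuousConstSMul G (P × K)]
  [MulAction H (P × M)] [ContinuousConstSMul H (P × M)]

theorem mT (g : G) (u : H) : Measurable (T g u : St G K H M → St G K H M) := by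
  unfold T
  have hs : ∀ w : G, Measurable fun x : P × K => w • x := fun w =>
    (continuous_const_smul w).measurable
  have ht : ∀ w : H, Measurable fun x : P × M => w • x := fun w =>
    (continuous_const_smul w).measurable
  refine ((ht u).comp measurable_fst).prodMk
    (((hs g).comp (measurable_fst.comp measurable_snd)).prodMk ?_)
  refine measurable_pi_lambda _ fun h => measurable_pi_lambda _ fun w => ?_
  unfold shL
  exact (measurable_pi_apply (w * u)).comp ((measurable_pi_apply (h * g)).comp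
    (measurable_snd.comp measurable_snd))

/-- truncation of the labels -/
noncomputable def Psi (A : Set (P × M)) (ω : St G K H M) : St G K H M :=
  (ω.1, (ω.2.1, fun g u =>
    @decide (ω.2.2 g u = true ∧ u • ω.1 ∈ A) (Classical.propDecidable _)))

omit [Countable G] [TopologicalSpace K] [CompactSpace K] [MetrizableSpace K] [MeasurableSpace K]
  [BorelSpace K] [Countable H] [TopologicalSpace M] [CompactSpace M]
  [MetrizableSpace M] [MeasurableSpace M] [BorelSpace M] [MulAction G (P × K)]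
  [ContinuousConstSMul G (P × K)] [ContinuousConstSMul H (P × M)] in
theorem Psi_lab (A : Set (P × M)) (ω : St G K H M) (g : G) (u : H) :
    (Psi A ω).2.2 g u = true ↔ ω.2.2 g u = true ∧ u • ω.1 ∈ A := by
  show @decide (ω.2.2 g u = true ∧ u • ω.1 ∈ A) (Classical.propDecidable _) = true ↔ _
  exact @decide_eq_true_iff _ (Classical.propDecidable _)

theorem mPsi {A : Set (P × M)} (hA : MeasurableSet A) :
    Measurable (Psi A : St G K H M → St G K H M) := by
  refine measurable_fst.prodMk ((measurable_fst.comp measurable_snd).prodMk ?_)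
  refine measurable_pi_lambda _ fun g => measurable_pi_lambda _ fun u => ?_
  refine measurable_to_bool ?_
  have h : (fun ω : St G K H M =>
      @decide (ω.2.2 g u = true ∧ u • ω.1 ∈ A) (Classical.propDecidable _)) ⁻¹' {true} =
      {ω | ω.2.2 g u = true} ∩ (fun ω : St G K H M => u • ω.1) ⁻¹' A := by
    ext ω
    rw [mem_preimage, mem_singleton_iff]
    exact @decide_eq_true_iff _ (Classical.propDecidable _)
  rw [h]
  refine (mlab g u true).inter ?_
  have ht : Measurable fun x : P × M => u • x := (continuous_const_smul u).measurable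
  exact (ht.comp measurable_fst) hA

omit [Countable G] [TopologicalSpace K] [CompactSpace K] [MetrizableSpace K] [MeasurableSpace K]
  [BorelSpace K] [Countable H] [TopologicalSpace M] [CompactSpace M]
  [MetrizableSpace M] [MeasurableSpace M] [BorelSpace M]
  [ContinuousConstSMul G (P × K)] [ContinuousConstSMul H (P × M)] in
theorem Psi_T (A : Set (P × M)) (g : G) (u : H) (ω : St G K H M) :
    Psi A (T g u ω) = T g u (Psi A ω) := by
  refine Prod.ext rfl (Prod.ext rfl ?_)
  funext h w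
  apply Bool.eq_iff_iff.2
  rw [Psi_lab]
  show (shL g u ω.2.2 h w = true ∧ w • (u • ω.1) ∈ A) ↔ (Psi A ω).2.2 (h * g) (w * u) = true
  rw [Psi_lab, mul_smul]
  rfl

end

/-- the group preserves the measure of a fibre -/
theorem mu_inv {H M : Type} [Group H] [Countable H] [TopologicalSpace M] [CompactSpace M]
    [MetrizableSpace M] [MeasurableSpace M] [BorelSpace M]
    [MulAction H (P × M)] [ContinuousConstSMul H (P × M)] {m : Measure M} (hT : IsTgt H M m)
    (s : P) (u : H) {D : Set (P × M)} (hD : MeasurableSet D) :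
    mu m s ((fun x => u • x) ⁻¹' D) = mu m s D := by
  have := hT.prob
  have hu : Measurable fun x : P × M => u • x := (continuous_const_smul u).measurable
  have hmk : Measurable (Prod.mk s : M → P × M) := measurable_prodMk_left
  have h0 : ∀ E : Set (P × M), MeasurableSet E → mu m s E = m (Prod.mk s ⁻¹' E) := by
    intro E hE
    unfold mu
    rw [Measure.dirac_prod, Measure.map_apply hmk hE]
  rw [h0 _ (hu hD), h0 _ hD]
  have hf : Measurable fun k : M => (u • ((s, k) : P × M)).2 :=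
    measurable_snd.comp (hu.comp hmk)
  conv_rhs => rw [← hT.pres u s, Measure.map_apply hf (hmk hD)]
  congr 1
  ext k
  have h1 : ((s, (u • ((s, k) : P × M)).2) : P × M) = u • ((s, k) : P × M) :=
    Prod.ext (hT.fst_smul u (s, k)).symm rfl
  simp only [mem_preimage]
  rw [h1]

theorem holds : S_acx := by
  classical
  intro G K H M _ _ _ _ _ _ _ _ _ _ _ _ _ _ _ _ _ _ q Q hq m hT l l' t s η hη hns
  have hW := hη.w0
  have := hW.prob
  have := hT.prob
  obtain ⟨μ, hμ⟩ : ∃ μ : Measure (P × M), μ = mu m s := ⟨_, rfl⟩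
  have hμp : IsProbabilityMeasure μ := by rw [hμ]; unfold mu; infer_instance
  obtain ⟨ρ, hρ⟩ : ∃ ρ : Measure (P × M), ρ = Measure.map Prod.fst η := ⟨_, rfl⟩
  have hρp : IsProbabilityMeasure ρ := by
    rw [hρ]; exact Measure.isProbabilityMeasure_map measurable_fst.aemeasurable
  obtain ⟨F, hF⟩ : ∃ F : P × M → ℝ≥0∞, F = ρ.rnDeriv μ := ⟨_, rfl⟩
  have hFm : Measurable F := by rw [hF]; exact Measure.measurable_rnDeriv _ _
  obtain ⟨ρs, hρs⟩ : ∃ ρs : Measure (P × M), ρs = ρ.singularPart μ := ⟨_, rfl⟩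
  obtain ⟨ν, hν⟩ : ∃ ν : Measure (P × M), ν = μ.withDensity F := ⟨_, rfl⟩
  have hdec : ρs + ν = ρ := by
    rw [hρs, hν, hF]; exact Measure.singularPart_add_rnDeriv ρ μ
  have hρs2 : ρs univ < 2⁻¹ := by
    rw [hρs, hρ, hμ]
    exact not_le.1 hns
  have hνfin : IsFiniteMeasure ν := by
    refine ⟨lt_of_le_of_lt ?_ (measure_lt_top ρ univ)⟩
    rw [← hdec]
    simp
  have hac : ν ≪ μ := by rw [hν]; exact withDensity_absolutelyContinuous _ _
  obtain ⟨S, hSm, hS1, hS2⟩ : ∃ S : Set (P × M), MeasurableSet S ∧ ρs S = 0 ∧ μ Sᶜ = 0 := by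
    rw [hρs]
    exact Measure.mutuallySingular_singularPart ρ μ
  have hsm : ∀ u : H, Measurable fun x : P × M => u • x := fun u =>
    (continuous_const_smul u).measurable
  -- the invariant set
  obtain ⟨A, hA⟩ : ∃ A : Set (P × M), A = ⋂ u : H, (fun x => u • x) ⁻¹' S := ⟨_, rfl⟩
  have hAm : MeasurableSet A := by
    rw [hA]; exact MeasurableSet.iInter fun u => hsm u hSm
  have hAinv : ∀ (u : H) (x : P × M), x ∈ A → u • x ∈ A := by
    intro u x hx
    rw [hA, mem_iInter] at hx ⊢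
    intro w
    rw [mem_preimage, ← mul_smul]
    exact hx (w * u)
  have hμA : μ Aᶜ = 0 := by
    rw [hA, compl_iInter]
    refine measure_iUnion_null fun u => ?_
    rw [← preimage_compl, hμ, mu_inv hT s u hSm.compl, ← hμ]
    exact hS2
  have hρA : ρs A = 0 := by
    refine measure_mono_null ?_ hS1
    intro x hx
    rw [hA, mem_iInter] at hx
    have := hx 1
    rw [mem_preimage, one_smul] at this
    exact this
  have hνA : ν Aᶜ = 0 := hac hμA
  have hρν : ∀ E : Set (P × M), E ⊆ A → ρ E = ν E := by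
    intro E hE
    rw [← hdec, Measure.add_apply, measure_mono_null hE hρA, zero_add]
  -- the level
  obtain ⟨C, hC⟩ : ∃ C : ℕ, ν {x | (C : ℝ≥0∞) < F x} ≤ ENNReal.ofReal (1 / 10 ^ 8) := by
    have h1 : Tendsto (ν ∘ fun n : ℕ => {x : P × M | (n : ℝ≥0∞) < F x}) atTop
        (𝓝 (ν (⋂ n : ℕ, {x : P × M | (n : ℝ≥0∞) < F x}))) := by
      refine tendsto_measure_iInter_atTop
        (fun n => (measurableSet_lt measurable_const hFm).nullMeasurableSet) ?_
        ⟨0, measure_ne_top _ _⟩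
      intro a b hab x hx
      have hx' : (b : ℝ≥0∞) < F x := hx
      have hab' : (a : ℝ≥0∞) ≤ b := by exact_mod_cast hab
      exact lt_of_le_of_lt hab' hx'
    have h2 : ν (⋂ n : ℕ, {x : P × M | (n : ℝ≥0∞) < F x}) = 0 := by
      apply hac
      have h3 : ∀ᵐ x ∂μ, F x < ∞ := by rw [hF]; exact Measure.rnDeriv_lt_top ρ μ
      refine measure_mono_null ?_ (ae_iff.1 h3)
      intro x hx
      rw [mem_iInter] at hx
      show ¬ (F x < ∞)
      intro h4
      obtain ⟨n, hn⟩ := ENNReal.exists_nat_gt h4.ne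
      exact lt_asymm hn (hx n)
    rw [h2] at h1
    have h3 : ∀ᶠ n : ℕ in atTop, (ν ∘ fun n : ℕ => {x : P × M | (n : ℝ≥0∞) < F x}) n <
        ENNReal.ofReal (1 / 10 ^ 8) :=
      h1.eventually_lt_const (by positivity)
    obtain ⟨n, hn⟩ := h3.exists
    exact ⟨n, hn.le⟩
  obtain ⟨B, hB⟩ : ∃ B : Set (P × M), B = {x | C < F x} := ⟨_, rfl⟩
  have hBm : MeasurableSet B := by rw [hB]; exact measurableSet_lt measurable_const hFm
  rw [← hB] at hC
  obtain ⟨D, hD⟩ : ∃ D : Set (P × M), D = A \ B := ⟨_, rfl⟩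
  have hDm : MeasurableSet D := by rw [hD]; exact hAm.diff hBm
  have hDA : D ⊆ A := by rw [hD]; exact sdiff_subset
  obtain ⟨Z, hZ⟩ : ∃ Z : ℝ≥0∞, Z = ν D := ⟨_, rfl⟩
  have hfst : ∀ E : Set (P × M), MeasurableSet E → η {ω | ω.1 ∈ E} = ρ E := by
    intro E hE
    rw [hρ, Measure.map_apply measurable_fst hE]
    rfl
  have hZη : η {ω | ω.1 ∈ D} = Z := by
    rw [hfst D hDm, hρν D hDA, hZ]
  have hνuniv : 2⁻¹ ≤ ν univ := by
    have h1 : ρs univ + ν univ = 1 := by
      rw [← Measure.add_apply, hdec, measure_univ]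
    by_contra hlt
    rw [not_le] at hlt
    have h2 : ρs univ + ν univ < 2⁻¹ + 2⁻¹ := ENNReal.add_lt_add hρs2 hlt
    rw [h1, ENNReal.inv_two_add_inv_two] at h2
    exact lt_irrefl _ h2
  have hZlow : ENNReal.ofReal (49 / 100) ≤ Z := by
    have h1 : ν univ ≤ Z + ENNReal.ofReal (1 / 10 ^ 8) := by
      have h2 : (univ : Set (P × M)) ⊆ D ∪ (Aᶜ ∪ B) := by
        intro x _
        rw [hD]
        by_cases h3 : x ∈ A
        · by_cases h4 : x ∈ B
          · exact Or.inr (Or.inr h4)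
          · exact Or.inl ⟨h3, h4⟩
        · exact Or.inr (Or.inl h3)
      refine (measure_mono h2).trans ((measure_union_le _ _).trans ?_)
      rw [← hZ]
      refine add_le_add le_rfl ((measure_union_le _ _).trans ?_)
      rw [hνA, zero_add]
      exact hC
    have h2 : ENNReal.ofReal (49 / 100) + ENNReal.ofReal (1 / 10 ^ 8) ≤
        Z + ENNReal.ofReal (1 / 10 ^ 8) := by
      refine le_trans ?_ (hνuniv.trans h1)
      rw [← ENNReal.ofReal_add (by norm_num) (by norm_num)]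
      have h3 : (2⁻¹ : ℝ≥0∞) = ENNReal.ofReal (1 / 2) := by
        rw [one_div, ENNReal.ofReal_inv_of_pos two_pos]
        norm_num
      rw [h3]
      exact ENNReal.ofReal_le_ofReal (by norm_num)
    exact (ENNReal.add_le_add_iff_right ENNReal.ofReal_ne_top).1 h2
  have hZ0 : Z ≠ 0 := by
    intro h
    rw [h] at hZlow
    have : (0 : ℝ≥0∞) < ENNReal.ofReal (49 / 100) := by positivity
    exact absurd (this.trans_le hZlow) (lt_irrefl _)
  have hZtop : Z ≠ ∞ := by rw [hZ]; exact measure_ne_top _ _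
  have hZinv : Z⁻¹ ≤ ENNReal.ofReal (100 / 49) := by
    have h1 : ENNReal.ofReal (100 / 49) = (ENNReal.ofReal (49 / 100))⁻¹ := by
      rw [← ENNReal.ofReal_inv_of_pos (by norm_num)]
      norm_num
    rw [h1]
    exact ENNReal.inv_le_inv.2 hZlow
  -- the new process
  obtain ⟨η', hη'⟩ : ∃ η' : Measure (St G K H M),
      η' = Z⁻¹ • Measure.map (Psi D) (η.restrict {ω | ω.1 ∈ D}) := ⟨_, rfl⟩
  have hDm' : MeasurableSet {ω : St G K H M | ω.1 ∈ D} := measurable_fst hDm
  have happ : ∀ E : Set (St G K H M), MeasurableSet E →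
      η' E = Z⁻¹ * η (Psi D ⁻¹' E ∩ {ω | ω.1 ∈ D}) := by
    intro E hE
    rw [hη', Measure.smul_apply, Measure.map_apply (mPsi hDm) hE,
      Measure.restrict_apply (mPsi hDm hE), smul_eq_mul]
  have hnull : ∀ E : Set (St G K H M), MeasurableSet E → ∀ E' : Set (St G K H M), η E' = 0 →
      (∀ ω, Psi D ω ∈ E → ω.1 ∈ D → ω ∈ E') → η' E = 0 := by
    intro E hE E' hE' hsub
    rw [happ E hE, measure_mono_null (fun ω hω => hsub ω hω.1 hω.2) hE', mul_zero]
  -- truncated labels
  have hbad : ∀ g : G, η (⋃ u : H, ({ω : St G K H M | ω.2.2 g u = true} ∩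
      T g u ⁻¹' {ω | ω.1 ∈ A ∩ B})) ≤ ENNReal.ofReal (1 / 10 ^ 8) := by
    intro g
    have hABm : MeasurableSet {ω : St G K H M | ω.1 ∈ A ∩ B} := measurable_fst (hAm.inter hBm)
    refine (measure_iUnion_le _).trans ?_
    have h1 : ∀ u : H, η ({ω : St G K H M | ω.2.2 g u = true} ∩ T g u ⁻¹' {ω | ω.1 ∈ A ∩ B}) =
        η ({ω : St G K H M | ω.2.2 g⁻¹ u⁻¹ = true} ∩ {ω | ω.1 ∈ A ∩ B}) := fun u =>
      hW.inv g u _ hABm
    rw [tsum_congr h1]
    have h2 : ∑' u : H, η ({ω : St G K H M | ω.2.2 g⁻¹ u⁻¹ = true} ∩ {ω | ω.1 ∈ A ∩ B}) =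
        η (⋃ u : H, ({ω : St G K H M | ω.2.2 g⁻¹ u⁻¹ = true} ∩ {ω | ω.1 ∈ A ∩ B})) := by
      refine (measure_iUnion₀ ?_ fun u => ((mlab _ _ _).inter hABm).nullMeasurableSet).symm
      intro u w huw
      refine measure_mono_null ?_ (hW.lab_uniq g⁻¹ u⁻¹ w⁻¹ (fun h => huw (inv_injective h)))
      intro ω hω
      exact ⟨hω.1.1, hω.2.1⟩
    rw [h2]
    refine (measure_mono (iUnion_subset fun u => inter_subset_right)).trans ?_
    rw [hfst _ (hAm.inter hBm), hρν _ inter_subset_left]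
    exact (measure_mono inter_subset_right).trans hC
  have hη'p : IsProbabilityMeasure η' := by
    refine ⟨?_⟩
    rw [happ univ MeasurableSet.univ, preimage_univ, univ_inter, hZη]
    exact ENNReal.inv_mul_cancel hZ0 hZtop
  refine ⟨3 * C, η', ⟨⟨hη'p, ?_, ?_, ?_⟩, ?_, ?_, ?_, ?_⟩, ?_⟩
  · -- `lab_one`
    refine hnull _ (mlab 1 1 false) _ hW.lab_one ?_
    intro ω h1 h2
    show ω.2.2 1 1 = false
    by_contra h3
    rw [Bool.not_eq_false] at h3
    have h4 : (Psi D ω).2.2 1 1 = true := (Psi_lab D ω 1 1).2 ⟨h3, by rw [one_smul]; exact h2⟩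
    have h5 : (Psi D ω).2.2 1 1 = false := h1
    rw [h4] at h5
    exact Bool.noConfusion h5
  · -- `lab_uniq`
    intro g u w huw
    refine hnull _ ((mlab g u true).inter (mlab g w true)) _ (hW.lab_uniq g u w huw) ?_
    intro ω h1 _
    exact ⟨((Psi_lab D ω g u).1 h1.1).1, ((Psi_lab D ω g w).1 h1.2).1⟩
  · -- `inv`
    intro g u E hE
    rw [happ _ ((mlab g u true).inter (mT g u hE)), happ _ ((mlab g⁻¹ u⁻¹ true).inter hE)]
    congr 1
    have hE2 : MeasurableSet (({ω : St G K H M | ω.1 ∈ D} ∩ {ω | u⁻¹ • ω.1 ∈ D}) ∩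
        Psi D ⁻¹' E) :=
      (hDm'.inter (((hsm u⁻¹).comp measurable_fst) hDm)).inter (mPsi hDm hE)
    have h1 := hW.inv g u _ hE2
    have h2 : Psi D ⁻¹' ({ω : St G K H M | ω.2.2 g u = true} ∩ T g u ⁻¹' E) ∩ {ω | ω.1 ∈ D} =
        {ω | ω.2.2 g u = true} ∩ T g u ⁻¹' (({ω : St G K H M | ω.1 ∈ D} ∩
          {ω | u⁻¹ • ω.1 ∈ D}) ∩ Psi D ⁻¹' E) := by
      ext ω
      constructor
      · rintro ⟨⟨h3, h4⟩, h5⟩
        have h6 := (Psi_lab D ω g u).1 h3
        refine ⟨h6.1, ⟨⟨h6.2, ?_⟩, ?_⟩⟩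
        · show u⁻¹ • (u • ω.1) ∈ D
          rw [inv_smul_smul]
          exact h5
        · show Psi D (T g u ω) ∈ E
          rw [Psi_T]
          exact h4
      · rintro ⟨h3, ⟨⟨h4, h5⟩, h6⟩⟩
        have h7 : u⁻¹ • (u • ω.1) ∈ D := h5
        rw [inv_smul_smul] at h7
        refine ⟨⟨(Psi_lab D ω g u).2 ⟨h3, h4⟩, ?_⟩, h7⟩
        show T g u (Psi D ω) ∈ E
        rw [← Psi_T]
        exact h6
    have h3 : Psi D ⁻¹' ({ω : St G K H M | ω.2.2 g⁻¹ u⁻¹ = true} ∩ E) ∩ {ω | ω.1 ∈ D} =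
        {ω | ω.2.2 g⁻¹ u⁻¹ = true} ∩ (({ω : St G K H M | ω.1 ∈ D} ∩
          {ω | u⁻¹ • ω.1 ∈ D}) ∩ Psi D ⁻¹' E) := by
      ext ω
      constructor
      · rintro ⟨⟨h3, h4⟩, h5⟩
        have h6 := (Psi_lab D ω g⁻¹ u⁻¹).1 h3
        exact ⟨h6.1, ⟨⟨h5, h6.2⟩, h4⟩⟩
      · rintro ⟨h3, ⟨⟨h4, h5⟩, h6⟩⟩
        exact ⟨⟨(Psi_lab D ω g⁻¹ u⁻¹).2 ⟨h3, h5⟩, h6⟩, h4⟩
    rw [h2, h3]
    exact h1
  · -- `fib`
    have hm : MeasurableSet {ω : St G K H M | ω.1.1 ≠ s} := by
      have h1 : Measurable fun ω : St G K H M => ω.1.1 := measurable_fst.comp measurable_fst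
      exact (h1 (measurableSet_singleton s)).compl
    refine hnull _ hm _ hη.fib ?_
    intro ω h1 _
    exact h1
  · -- `par`
    have hm : MeasurableSet {ω : St G K H M | ω.2.1.1 ≠ t} := by
      have h1 : Measurable fun ω : St G K H M => ω.2.1.1 :=
        measurable_fst.comp (measurable_fst.comp measurable_snd)
      exact (h1 (measurableSet_singleton t)).compl
    refine hnull _ hm _ hη.par ?_
    intro ω h1 _
    exact h1
  · -- `gen`
    intro i
    refine le_of_compl η' (mFX _ _) (by norm_num) ?_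
    rw [happ _ (mFX _ _).compl]
    have h1 : η (FX (l i) (Q8 Q i) : Set (St G K H M))ᶜ ≤ ENNReal.ofReal (1 / 10 ^ 8) :=
      compl_le η (mFX _ _) (by norm_num) (by norm_num) (hη.gen i)
    have h2 : η (Psi D ⁻¹' (FX (l i) (Q8 Q i) : Set (St G K H M))ᶜ ∩ {ω | ω.1 ∈ D}) ≤
        ENNReal.ofReal (1 / 10 ^ 8) + ENNReal.ofReal (1 / 10 ^ 8) := by
      refine le_trans (measure_mono ?_) ((measure_union_le _ _).trans
        (add_le_add h1 (hbad (Q8 Q i))))
      rintro ω ⟨h3, h4⟩
      by_cases h5 : ω ∈ (FX (l i) (Q8 Q i) : Set (St G K H M))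
      · refine Or.inr ?_
        obtain ⟨k, hk1, hk2⟩ := h5
        have h6 : en H k • ω.1 ∉ D := by
          intro h7
          exact h3 ⟨k, hk1, (Psi_lab D ω _ _).2 ⟨hk2, h7⟩⟩
        have h7 : en H k • ω.1 ∈ A := hAinv _ _ (hDA h4)
        have h8 : en H k • ω.1 ∈ B := by
          by_contra h9
          exact h6 (by rw [hD]; exact ⟨h7, h9⟩)
        rw [mem_iUnion]
        exact ⟨en H k, hk2, h7, h8⟩
      · exact Or.inl h5
    calc Z⁻¹ * η (Psi D ⁻¹' (FX (l i) (Q8 Q i) : Set (St G K H M))ᶜ ∩ {ω | ω.1 ∈ D})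
        ≤ ENNReal.ofReal (100 / 49) * (ENNReal.ofReal (1 / 10 ^ 8) +
            ENNReal.ofReal (1 / 10 ^ 8)) := by gcongr
      _ = ENNReal.ofReal (100 / 49 * (1 / 10 ^ 8 + 1 / 10 ^ 8)) := by
          rw [ENNReal.ofReal_mul (by norm_num), ENNReal.ofReal_add (by norm_num) (by norm_num)]
      _ ≤ ENNReal.ofReal (1 / 10 ^ 7) := ENNReal.ofReal_le_ofReal (by norm_num)
  · -- `dig`
    refine le_of_compl η' (mHX hq _) (by norm_num) ?_
    rw [happ _ (mHX hq _).compl]
    have h1 : η (HX q l' : Set (St G K H M))ᶜ ≤ ENNReal.ofReal (1 / 10 ^ 8) :=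
      compl_le η (mHX hq _) (by norm_num) (by norm_num) hη.dig
    have h2 : η (Psi D ⁻¹' (HX q l' : Set (St G K H M))ᶜ ∩ {ω | ω.1 ∈ D}) ≤
        ENNReal.ofReal (1 / 10 ^ 8) := by
      refine le_trans (measure_mono ?_) h1
      rintro ω ⟨h3, _⟩
      exact h3
    calc Z⁻¹ * η (Psi D ⁻¹' (HX q l' : Set (St G K H M))ᶜ ∩ {ω | ω.1 ∈ D})
        ≤ ENNReal.ofReal (100 / 49) * ENNReal.ofReal (1 / 10 ^ 8) := by gcongr
      _ = ENNReal.ofReal (100 / 49 * (1 / 10 ^ 8)) := by
          rw [ENNReal.ofReal_mul (by norm_num)]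
      _ ≤ ENNReal.ofReal (1 / 10 ^ 7) := ENNReal.ofReal_le_ofReal (by norm_num)
  · -- the law of the base point
    rw [Measure.le_iff]
    intro E hE
    rw [Measure.map_apply measurable_fst hE, happ _ (measurable_fst hE), Measure.smul_apply,
      smul_eq_mul, ← hμ]
    have h1 : Psi D ⁻¹' (Prod.fst ⁻¹' E) ∩ {ω : St G K H M | ω.1 ∈ D} = {ω | ω.1 ∈ E ∩ D} := rfl
    rw [h1, hfst _ (hE.inter hDm), hρν _ (inter_subset_right.trans hDA), hν,
      withDensity_apply _ (hE.inter hDm)]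
    have h2 : ∫⁻ x in E ∩ D, F x ∂μ ≤ (C : ℝ≥0∞) * μ E := by
      calc ∫⁻ x in E ∩ D, F x ∂μ ≤ ∫⁻ _ in E ∩ D, (C : ℝ≥0∞) ∂μ := by
            refine setLIntegral_mono' (hE.inter hDm) ?_
            intro x hx
            have h3 : x ∉ B := by
              have := hx.2
              rw [hD] at this
              exact this.2
            rw [hB] at h3
            exact not_lt.1 h3
        _ = (C : ℝ≥0∞) * μ (E ∩ D) := by rw [setLIntegral_const]
        _ ≤ (C : ℝ≥0∞) * μ E := by gcongr; exact inter_subset_left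
    calc Z⁻¹ * ∫⁻ x in E ∩ D, F x ∂μ ≤ ENNReal.ofReal (100 / 49) * ((C : ℝ≥0∞) * μ E) := by gcongr
      _ ≤ 3 * ((C : ℝ≥0∞) * μ E) := by
          gcongr
          have : (3 : ℝ≥0∞) = ENNReal.ofReal 3 := by simp
          rw [this]
          exact ENNReal.ofReal_le_ofReal (by norm_num)
      _ = ((3 * C : ℕ) : ℝ≥0∞) * μ E := by push_cast; ring

end Pool.Agent.H307.CSacx
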