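import Pool.Agent.H646.CS.Stm
import Pool.Agent.H646.CR.PClosed

set_option autoImplicit false
set_option linter.unusedSectionVars false
set_option linter.style.haveILetI false

namespace Pool.Agent.H288.CSclC

open Pool.Agent.H646.CS
open Pool.Agent.H646.CR (P en dn b2r IsPD mu)
open MeasureTheory ProbabilityTheory Set Topology TopologicalSpace Filter
open scoped ENNReal NNReal BoundedContinuousFunction

section general

variable {Z : Type} [TopologicalSpace Z] [CompactSpace Z] [MetrizableSpace Z] [MeasurableSpace Z]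
  [BorelSpace Z]

/-- Comparison of two finite measures through the integrals of continuous functions. -/
theorem le_of_lint {ν μ : Measure Z} [IsFiniteMeasure ν] [IsFiniteMeasure μ] {C : ℝ≥0∞}
    (hC : C ≠ ∞)
    (h : ∀ f : Z →ᵇ ℝ≥0, ∫⁻ x, (f x : ℝ≥0∞) ∂ν ≤ C * ∫⁻ x, (f x : ℝ≥0∞) ∂μ) :
    ν ≤ C • μ := by
  have h1 : ∀ F : Set Z, IsClosed F → ν F ≤ (C • μ) F := by
    intro F hF
    have hν := HasOuterApproxClosed.tendsto_lintegral_apprSeq hF ν
    have hμ := HasOuterApproxClosed.tendsto_lintegral_apprSeq hF μ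
    have hμ' : Tendsto (fun n => C * ∫⁻ x, (hF.apprSeq n x : ℝ≥0∞) ∂μ) atTop (𝓝 (C * μ F)) :=
      ENNReal.Tendsto.const_mul hμ (Or.inr hC)
    rw [Measure.smul_apply, smul_eq_mul]
    exact le_of_tendsto_of_tendsto' hν hμ' fun n => h (hF.apprSeq n)
  rw [Measure.le_iff]
  intro A hA
  rw [hA.measure_eq_iSup_isClosed_of_ne_top (measure_ne_top ν A)]
  refine iSup_le fun F => iSup_le fun hFA => iSup_le fun hF => ?_
  exact le_trans (h1 F hF) (measure_mono hFA)

theorem le_iff_int {ν μ : Measure Z} [IsFiniteMeasure ν] [IsFiniteMeasure μ] (C : ℕ) :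
    ν ≤ (C : ℝ≥0∞) • μ ↔ ∀ f : Z →ᵇ ℝ≥0,
      ∫ x, (f x : ℝ) ∂ν ≤ (C : ℝ) * ∫ x, (f x : ℝ) ∂μ := by
  have e : ∀ (f : Z →ᵇ ℝ≥0) (ρ : Measure Z), ∫ x, (f x : ℝ) ∂ρ
      = (∫⁻ x, (f x : ℝ≥0∞) ∂ρ).toReal := by
    intro f ρ
    have hm : AEStronglyMeasurable (fun x => ((f x : ℝ≥0) : ℝ)) ρ :=
      (NNReal.continuous_coe.comp f.continuous).aestronglyMeasurable
    rw [integral_eq_lintegral_of_nonneg_ae (f := fun x => ((f x : ℝ≥0) : ℝ))
      (Eventually.of_forall fun x => (f x).2) hm]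
    have h5 : ∀ x, ENNReal.ofReal ((f x : ℝ≥0) : ℝ) = (f x : ℝ≥0∞) :=
      fun x => ENNReal.ofReal_coe_nnreal
    rw [lintegral_congr h5]
  have hfin : ∀ (f : Z →ᵇ ℝ≥0) (ρ : Measure Z) [IsFiniteMeasure ρ],
      ∫⁻ x, (f x : ℝ≥0∞) ∂ρ ≠ ∞ := by
    intro f ρ _
    exact (f.lintegral_lt_top_of_nnreal ρ).ne
  constructor
  · intro h f
    rw [e f ν, e f μ]
    have h2 : ∫⁻ x, (f x : ℝ≥0∞) ∂ν ≤ (C : ℝ≥0∞) * ∫⁻ x, (f x : ℝ≥0∞) ∂μ := by
      refine le_trans (lintegral_mono' h le_rfl) ?_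
      rw [lintegral_smul_measure, smul_eq_mul]
    have h3 := ENNReal.toReal_mono (ENNReal.mul_ne_top (ENNReal.natCast_ne_top C) (hfin f μ)) h2
    rw [ENNReal.toReal_mul, ENNReal.toReal_natCast] at h3
    exact h3
  · intro h
    refine le_of_lint (ENNReal.natCast_ne_top C) fun f => ?_
    have h2 := h f
    rw [e f ν, e f μ] at h2
    have h3 : (C : ℝ≥0∞) * ∫⁻ x, (f x : ℝ≥0∞) ∂μ ≠ ∞ :=
      ENNReal.mul_ne_top (ENNReal.natCast_ne_top C) (hfin f μ)
    rw [← ENNReal.toReal_le_toReal (hfin f ν) h3, ENNReal.toReal_mul, ENNReal.toReal_natCast]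
    exact h2

end general

theorem holds (h0 : S_cl0) : S_clC := by
  intro G K H M _ _ _ _ _ _ _ _ _ _ _ _ _ _ _ _ _ _ q Q hq m hm C l l' t
  haveI := hm.prob
  set Good : Set (P × ProbabilityMeasure (St G K H M)) :=
    {p | RelC m q Q C l l' t p.1 (p.2 : Measure (St G K H M))} with hGood
  have hG : IsClosed Good := by
    have e : Good = {p : P × ProbabilityMeasure (St G K H M) |
          Rel0 (1 / 10 ^ 7) q Q l l' t p.1 (p.2 : Measure (St G K H M))} ∩
        ⋂ f : (P × M) →ᵇ ℝ≥0, {p : P × ProbabilityMeasure (St G K H M) |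
          ∫ x, ((f x.1 : ℝ≥0) : ℝ) ∂(p.2 : Measure (St G K H M)) ≤
            (C : ℝ) * ∫ x, (f x : ℝ) ∂(mu m p.1)} := by
      ext ⟨s, η⟩
      haveI : IsProbabilityMeasure (mu m s) := Pool.Agent.H154.CRclosed.prob_mu m s
      have hmap : ∀ f : (P × M) →ᵇ ℝ≥0,
          ∫ x, (f x : ℝ) ∂(Measure.map Prod.fst (η : Measure (St G K H M)))
            = ∫ x, ((f x.1 : ℝ≥0) : ℝ) ∂(η : Measure (St G K H M)) := by
        intro f
        have hm2 : AEStronglyMeasurable (fun y : P × M => ((f y : ℝ≥0) : ℝ))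
            (Measure.map Prod.fst (η : Measure (St G K H M))) :=
          (NNReal.continuous_coe.comp f.continuous).aestronglyMeasurable
        exact integral_map (f := fun y : P × M => ((f y : ℝ≥0) : ℝ))
          measurable_fst.aemeasurable hm2
      haveI : IsFiniteMeasure (Measure.map Prod.fst (η : Measure (St G K H M))) := by
        infer_instance
      have h1 : Measure.map Prod.fst (η : Measure (St G K H M)) ≤ (C : ℝ≥0∞) • mu m s ↔
          ∀ f : (P × M) →ᵇ ℝ≥0, ∫ x, ((f x.1 : ℝ≥0) : ℝ) ∂(η : Measure (St G K H M)) ≤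
            (C : ℝ) * ∫ x, (f x : ℝ) ∂(mu m s) := by
        rw [le_iff_int C]
        exact forall_congr' fun f => by rw [hmap f]
      simp only [hGood, mem_ofPred_eq, mem_inter_iff, mem_iInter, RelC]
      rw [h1]
    rw [e]
    refine IsClosed.inter (h0 G K H M q Q hq (1 / 10 ^ 7) l l' t) ?_
    refine isClosed_iInter fun f => isClosed_le ?_ ?_
    · have hc : Continuous fun x : St G K H M => ((f x.1 : ℝ≥0) : ℝ) :=
        NNReal.continuous_coe.comp (f.continuous.comp continuous_fst)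
      exact (Pool.Agent.H154.CRclosed.cont_int hc).comp continuous_snd
    · refine continuous_const.mul ?_
      have hc : Continuous fun x : P × M => (f x : ℝ) :=
        NNReal.continuous_coe.comp f.continuous
      exact ((Pool.Agent.H154.CRclosed.cont_int hc).comp
        (Pool.Agent.H154.CRclosed.cont_muP m)).comp continuous_fst
  have hs : {s | ∃ η : Measure (St G K H M), RelC m q Q C l l' t s η} = Prod.fst '' Good := by
    ext s
    simp only [mem_ofPred_eq, mem_image, Prod.exists, exists_and_right, exists_eq_right, hGood]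
    constructor
    · rintro ⟨η, hη⟩
      exact ⟨⟨η, hη.1.w0.prob⟩, hη⟩
    · rintro ⟨η, hη⟩
      exact ⟨η, hη⟩
  haveI hcp : CompactSpace (ProbabilityMeasure (St G K H M)) :=
    Pool.Agent.H154.CRclosed.compact_pm (St G K H M)
  rw [hs]
  exact (hG.isCompact.image continuous_fst).isClosed

end Pool.Agent.H288.CSclC
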