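import Pool.Agent.H646.CS.Stm

/-! Project CS (helper646), job S_coup, by helper969: the coupling with heights. -/

set_option autoImplicit false

namespace Pool.Agent.H969.CSCoup

open MeasureTheory ProbabilityTheory Set
open scoped ENNReal

section gen

variable {α Ω : Type} [MeasurableSpace α] [MeasurableSpace Ω] [StandardBorelSpace Ω] [Nonempty Ω]

/-- integral against `ρ` -/
lemma lint (ρ : Measure (α × Ω)) [IsFiniteMeasure ρ] (μ : Measure α) {F : α → ℝ≥0∞}
    (hF : Measurable F) (hfst : ρ.fst = μ.withDensity F) (f : α × Ω → ℝ≥0∞) (hf : Measurable f) :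
    ∫⁻ p, f p ∂ρ = ∫⁻ x, F x * ∫⁻ w, f (x, w) ∂(ρ.condKernel x) ∂μ := by
  conv_lhs => rw [← ρ.disintegrate ρ.condKernel]
  rw [Measure.lintegral_compProd hf, hfst, lintegral_withDensity_eq_lintegral_mul _ hF]
  · rfl
  · exact hf.lintegral_kernel_prod_right'

omit [StandardBorelSpace Ω] [Nonempty Ω] in
lemma lint_inv (ρ : Measure (α × Ω)) [IsFiniteMeasure ρ] {σ : α → α} {τ : Ω → Ω} {U U' : Set Ω}
    (hσ : Measurable σ) (hτ : Measurable τ)
    (hinv : ∀ D : Set (α × Ω), MeasurableSet D →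
      ρ ({ω | ω.2 ∈ U} ∩ (fun ω : α × Ω => (σ ω.1, τ ω.2)) ⁻¹' D) = ρ ({ω | ω.2 ∈ U'} ∩ D))
    (f : α × Ω → ℝ≥0∞) (hf : Measurable f) :
    ∫⁻ p in {ω | ω.2 ∈ U}, f (σ p.1, τ p.2) ∂ρ = ∫⁻ p in {ω | ω.2 ∈ U'}, f p ∂ρ := by
  have hst : Measurable (fun ω : α × Ω => (σ ω.1, τ ω.2)) :=
    (hσ.comp measurable_fst).prodMk (hτ.comp measurable_snd)
  have hm : (ρ.restrict {ω | ω.2 ∈ U}).map (fun ω : α × Ω => (σ ω.1, τ ω.2)) =
      ρ.restrict {ω | ω.2 ∈ U'} := by
    ext D hD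
    rw [Measure.map_apply hst hD, Measure.restrict_apply (hst hD), Measure.restrict_apply hD,
      inter_comm, hinv D hD, inter_comm]
  rw [← hm, lintegral_map hf hst]

/-- transport of the conditional kernel -/
lemma base (ρ : Measure (α × Ω)) [IsFiniteMeasure ρ] (μ : Measure α) [IsFiniteMeasure μ]
    {F : α → ℝ≥0∞} (hF : Measurable F) (hFt : ∀ x, F x < ⊤) (hfst : ρ.fst = μ.withDensity F)
    {σ σ' : α → α} {τ : Ω → Ω} {U U' : Set Ω}
    (hσ : Measurable σ) (hσ' : Measurable σ') (hσσ : ∀ x, σ' (σ x) = x)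
    (hτ : Measurable τ) (hU : MeasurableSet U)
    (hU' : MeasurableSet U') (hν : μ.map σ = μ)
    (hinv : ∀ D : Set (α × Ω), MeasurableSet D →
      ρ ({ω | ω.2 ∈ U} ∩ (fun ω : α × Ω => (σ ω.1, τ ω.2)) ⁻¹' D) = ρ ({ω | ω.2 ∈ U'} ∩ D)) :
    ∀ᵐ x ∂μ, F x • ((ρ.condKernel x).restrict U).map τ =
      F (σ x) • (ρ.condKernel (σ x)).restrict U' := by
  -- a weight
  set w : α → ℝ≥0∞ := fun x => (1 + F x + F (σ x))⁻¹ with hw
  have hwm : Measurable w := ((measurable_const.add hF).add (hF.comp hσ)).inv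
  have hw0 : ∀ x, w x ≠ 0 := fun x => by
    rw [hw]
    simp only [ne_eq, ENNReal.inv_eq_zero]
    exact ENNReal.add_ne_top.2 ⟨ENNReal.add_ne_top.2 ⟨ENNReal.one_ne_top, (hFt x).ne⟩, (hFt _).ne⟩
  have hwt : ∀ x, w x ≠ ⊤ := fun x => by
    rw [hw]
    simp only [ne_eq, ENNReal.inv_eq_top]
    intro h
    simp at h
  have hw1 : ∀ x, w x * F x ≤ 1 := fun x => by
    rw [hw]
    calc (1 + F x + F (σ x))⁻¹ * F x ≤ (1 + F x + F (σ x))⁻¹ * (1 + F x + F (σ x)) := by
          gcongr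
          rw [add_assoc]
          exact le_add_left (le_add_right le_rfl)
      _ ≤ 1 := ENNReal.inv_mul_le_one _
  have hw2 : ∀ x, w x * F (σ x) ≤ 1 := fun x => by
    rw [hw]
    calc (1 + F x + F (σ x))⁻¹ * F (σ x) ≤ (1 + F x + F (σ x))⁻¹ * (1 + F x + F (σ x)) := by
          gcongr
          exact le_add_left le_rfl
      _ ≤ 1 := ENNReal.inv_mul_le_one _
  -- the two kernels
  let A : Kernel α Ω := (ρ.condKernel.restrict hU).map τ
  let B : Kernel α Ω := (ρ.condKernel.restrict hU').comap σ hσ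
  have : IsFiniteKernel A := by
    dsimp only [A]; infer_instance
  have : IsFiniteKernel B := by
    dsimp only [B]; infer_instance
  let kA : Kernel α Ω := A.withDensity (fun x _ => w x * F x)
  let kB : Kernel α Ω := B.withDensity (fun x _ => w x * F (σ x))
  have : IsFiniteKernel kA :=
    Kernel.isFiniteKernel_withDensity_of_bounded _ ENNReal.one_ne_top fun x _ => hw1 x
  have : IsFiniteKernel kB :=
    Kernel.isFiniteKernel_withDensity_of_bounded _ ENNReal.one_ne_top fun x _ => hw2 x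
  have hkA : ∀ x, kA x = (w x * F x) • ((ρ.condKernel x).restrict U).map τ := by
    intro x
    have hq : Measurable (Function.uncurry fun (x : α) (_ : Ω) => w x * F x) :=
      (hwm.mul hF).comp measurable_fst
    rw [Kernel.withDensity_apply _ hq, withDensity_const,
      Kernel.map_apply _ hτ, Kernel.restrict_apply]
  have hkB : ∀ x, kB x = (w x * F (σ x)) • (ρ.condKernel (σ x)).restrict U' := by
    intro x
    have hq : Measurable (Function.uncurry fun (x : α) (_ : Ω) => w x * F (σ x)) :=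
      (hwm.mul (hF.comp hσ)).comp measurable_fst
    rw [Kernel.withDensity_apply _ hq, withDensity_const, Kernel.comap_apply, Kernel.restrict_apply]
  have key : kA =ᵐ[μ] kB := by
    apply Kernel.ae_eq_of_compProd_eq
    ext D hD
    rw [Measure.compProd_apply hD, Measure.compProd_apply hD]
    -- the test function
    have hfm : Measurable (fun p : α × Ω => w (σ' p.1) * D.indicator (fun _ => (1 : ℝ≥0∞))
        (σ' p.1, p.2)) := by
      refine (hwm.comp (hσ'.comp measurable_fst)).mul ?_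
      exact (measurable_const.indicator hD).comp ((hσ'.comp measurable_fst).prodMk measurable_snd)
    have h0 := lint_inv ρ hσ hτ hinv _ hfm
    have hm1 : MeasurableSet {ω : α × Ω | ω.2 ∈ U} := measurable_snd hU
    have hm2 : MeasurableSet {ω : α × Ω | ω.2 ∈ U'} := measurable_snd hU'
    rw [← lintegral_indicator hm1, ← lintegral_indicator hm2] at h0
    rw [lint ρ μ hF hfst _ ?_, lint ρ μ hF hfst _ (hfm.indicator hm2)] at h0
    swap
    · refine Measurable.indicator ?_ hm1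
      exact hfm.comp ((hσ.comp measurable_fst).prodMk (hτ.comp measurable_snd))
    have e1 : ∀ x, F x * ∫⁻ v, {ω : α × Ω | ω.2 ∈ U}.indicator (fun p : α × Ω =>
        w (σ' (σ p.1)) * D.indicator (fun _ => (1 : ℝ≥0∞)) (σ' (σ p.1), τ p.2)) (x, v)
        ∂(ρ.condKernel x) = kA x (Prod.mk x ⁻¹' D) := by
      intro x
      have hDx : MeasurableSet (Prod.mk x ⁻¹' D) := measurable_prodMk_left hD
      rw [hkA, Measure.smul_apply, smul_eq_mul, Measure.map_apply hτ hDx,
        Measure.restrict_apply (hτ hDx)]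
      have : (fun v => {ω : α × Ω | ω.2 ∈ U}.indicator (fun p : α × Ω =>
        w (σ' (σ p.1)) * D.indicator (fun _ => (1 : ℝ≥0∞)) (σ' (σ p.1), τ p.2)) (x, v)) =
          fun v => w x * ((τ ⁻¹' (Prod.mk x ⁻¹' D)) ∩ U).indicator (fun _ => (1 : ℝ≥0∞)) v := by
        funext v
        by_cases h1 : v ∈ U <;> by_cases h2 : (x, τ v) ∈ D <;>
          simp [indicator, h1, h2, hσσ]
      rw [this, lintegral_const_mul _ (measurable_const.indicator ((hτ hDx).inter hU)),
        lintegral_indicator ((hτ hDx).inter hU), lintegral_const, one_mul,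
        Measure.restrict_apply_univ]
      ring
    have e2 : ∀ x, F (σ x) * ∫⁻ v, {ω : α × Ω | ω.2 ∈ U'}.indicator (fun p : α × Ω =>
        w (σ' p.1) * D.indicator (fun _ => (1 : ℝ≥0∞)) (σ' p.1, p.2)) (σ x, v)
        ∂(ρ.condKernel (σ x)) = kB x (Prod.mk x ⁻¹' D) := by
      intro x
      have hDx : MeasurableSet (Prod.mk x ⁻¹' D) := measurable_prodMk_left hD
      rw [hkB, Measure.smul_apply, smul_eq_mul, Measure.restrict_apply hDx]
      have : (fun v => {ω : α × Ω | ω.2 ∈ U'}.indicator (fun p : α × Ω =>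
        w (σ' p.1) * D.indicator (fun _ => (1 : ℝ≥0∞)) (σ' p.1, p.2)) (σ x, v)) =
          fun v => w x * ((Prod.mk x ⁻¹' D) ∩ U').indicator (fun _ => (1 : ℝ≥0∞)) v := by
        funext v
        by_cases h1 : v ∈ U' <;> by_cases h2 : (x, v) ∈ D <;>
          simp [indicator, h1, h2, hσσ]
      rw [this, lintegral_const_mul _ (measurable_const.indicator (hDx.inter hU')),
        lintegral_indicator (hDx.inter hU'), lintegral_const, one_mul,
        Measure.restrict_apply_univ]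
      ring
    have h1 : ∫⁻ x, kA x (Prod.mk x ⁻¹' D) ∂μ = ∫⁻ x, F x * ∫⁻ v,
        {ω : α × Ω | ω.2 ∈ U}.indicator (fun p : α × Ω =>
        w (σ' (σ p.1)) * D.indicator (fun _ => (1 : ℝ≥0∞)) (σ' (σ p.1), τ p.2)) (x, v)
        ∂(ρ.condKernel x) ∂μ := lintegral_congr fun x => (e1 x).symm
    have h2 : ∫⁻ x, kB x (Prod.mk x ⁻¹' D) ∂μ = ∫⁻ x, F x * ∫⁻ v,
        {ω : α × Ω | ω.2 ∈ U'}.indicator (fun p : α × Ω =>
        w (σ' p.1) * D.indicator (fun _ => (1 : ℝ≥0∞)) (σ' p.1, p.2)) (x, v)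
        ∂(ρ.condKernel x) ∂μ := by
      conv_rhs => rw [← hν]
      rw [lintegral_map _ hσ]
      · exact lintegral_congr fun x => (e2 x).symm
      · exact hF.mul (hfm.indicator hm2).lintegral_kernel_prod_right'
    rw [h1, h2]
    exact h0
  filter_upwards [key] with x hx
  rw [hkA, hkB] at hx
  have h3 : (w x)⁻¹ • ((w x * F x) • ((ρ.condKernel x).restrict U).map τ) =
    (w x)⁻¹ • ((w x * F (σ x)) • (ρ.condKernel (σ x)).restrict U') := by rw [hx]
  rw [smul_smul, smul_smul, ← mul_assoc, ← mul_assoc, ENNReal.inv_mul_cancel (hw0 x) (hwt x),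
    one_mul, one_mul] at h3
  exact h3


/-- the height region -/
def HtS (F F' : α → ℝ≥0∞) : Set (α × ℝ) :=
  {p | 0 < p.2 ∧ ENNReal.ofReal p.2 * F p.1 < 1 ∧ ENNReal.ofReal p.2 * F' p.1 < 1}

/-- the density of the heights -/
noncomputable def dens (F F' : α → ℝ≥0∞) : α × ℝ → ℝ≥0∞ :=
  (HtS F F').indicator (fun p => F p.1 * F' p.1)

omit [MeasurableSpace Ω] [StandardBorelSpace Ω] [Nonempty Ω] in
lemma mHtS {F F' : α → ℝ≥0∞} (hF : Measurable F) (hF' : Measurable F') :
    MeasurableSet (HtS F F') := by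
  have h1 : Measurable (fun p : α × ℝ => ENNReal.ofReal p.2 * F p.1) :=
    (ENNReal.measurable_ofReal.comp measurable_snd).mul (hF.comp measurable_fst)
  have h2 : Measurable (fun p : α × ℝ => ENNReal.ofReal p.2 * F' p.1) :=
    (ENNReal.measurable_ofReal.comp measurable_snd).mul (hF'.comp measurable_fst)
  exact (measurableSet_lt measurable_const measurable_snd).inter
    ((measurableSet_lt h1 measurable_const).inter (measurableSet_lt h2 measurable_const))

lemma mdens {F F' : α → ℝ≥0∞} (hF : Measurable F) (hF' : Measurable F') :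
    Measurable (dens F F') :=
  ((hF.comp measurable_fst).mul (hF'.comp measurable_fst)).indicator (mHtS hF hF')

/-- the coupling measure -/
noncomputable def cpl (μ : Measure α) (F F' : α → ℝ≥0∞) (κ κ' : Kernel α Ω) :
    Measure ((α × (Ω × Ω)) × ℝ) :=
  ((((μ.prod volume).withDensity (dens F F')) ⊗ₘ
    ((κ ×ₖ κ').comap Prod.fst measurable_fst)).map (fun p => ((p.1.1, p.2), p.1.2)))

omit [StandardBorelSpace Ω] [Nonempty Ω] in
lemma mre : Measurable (fun p : (α × ℝ) × (Ω × Ω) => ((p.1.1, p.2), p.1.2)) :=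
  ((measurable_fst.comp measurable_fst).prodMk measurable_snd).prodMk
    (measurable_snd.comp measurable_fst)

omit [StandardBorelSpace Ω] [Nonempty Ω] in
lemma cpl_apply (μ : Measure α) [IsFiniteMeasure μ] {F F' : α → ℝ≥0∞} (hF : Measurable F)
    (hF' : Measurable F') (κ κ' : Kernel α Ω) [IsMarkovKernel κ] [IsMarkovKernel κ']
    (D : Set ((α × (Ω × Ω)) × ℝ)) (hD : MeasurableSet D) :
    cpl μ F F' κ κ' D = ∫⁻ p, dens F F' p *
      ((κ p.1).prod (κ' p.1)) {w | ((p.1, w), p.2) ∈ D} ∂(μ.prod volume) := by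
  unfold cpl
  rw [Measure.map_apply mre hD, Measure.compProd_apply (mre hD),
    lintegral_withDensity_eq_lintegral_mul _ (mdens hF hF')]
  · refine lintegral_congr fun p => ?_
    rw [Pi.mul_apply, Kernel.comap_apply, Kernel.prod_apply]
    rfl
  · exact Kernel.measurable_kernel_prodMk_left (mre hD)

omit [StandardBorelSpace Ω] [Nonempty Ω] in
lemma cpl_base (μ : Measure α) [IsFiniteMeasure μ] {F F' : α → ℝ≥0∞} (hF : Measurable F)
    (hF' : Measurable F') (κ κ' : Kernel α Ω) [IsMarkovKernel κ] [IsMarkovKernel κ'] :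
    (cpl μ F F' κ κ').map (fun ω => (ω.1.1, ω.2)) =
      (μ.prod volume).withDensity (dens F F') := by
  have hm : Measurable (fun ω : (α × (Ω × Ω)) × ℝ => (ω.1.1, ω.2)) :=
    (measurable_fst.comp measurable_fst).prodMk measurable_snd
  ext D hD
  rw [Measure.map_apply hm hD, cpl_apply μ hF hF' κ κ' _ (hm hD), withDensity_apply _ hD,
    ← lintegral_indicator hD]
  refine lintegral_congr fun p => ?_
  by_cases hp : p ∈ D
  · have : {w : Ω × Ω | ((p.1, w), p.2) ∈ (fun ω : (α × (Ω × Ω)) × ℝ => (ω.1.1, ω.2)) ⁻¹' D} =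
        univ := by
      ext w; simpa using hp
    rw [this, measure_univ, mul_one, indicator_of_mem hp]
  · have : {w : Ω × Ω | ((p.1, w), p.2) ∈ (fun ω : (α × (Ω × Ω)) × ℝ => (ω.1.1, ω.2)) ⁻¹' D} =
        ∅ := by
      ext w; simpa using hp
    rw [this, measure_empty, mul_zero, indicator_of_notMem hp]

lemma vol_le {a : ℝ≥0∞} (ha : a < ⊤) :
    a * volume {r : ℝ | 0 < r ∧ ENNReal.ofReal r * a < 1} ≤ 1 := by
  rcases eq_or_ne a 0 with h0 | h0
  · rw [h0, zero_mul]; exact zero_le_one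
  have h1 : {r : ℝ | 0 < r ∧ ENNReal.ofReal r * a < 1} ⊆ Ioo 0 (a⁻¹).toReal := by
    rintro r ⟨hr, hra⟩
    refine ⟨hr, ?_⟩
    have h2 : ENNReal.ofReal r < a⁻¹ := by
      rw [← one_div]
      exact (ENNReal.lt_div_iff_mul_lt (Or.inl h0) (Or.inl ha.ne)).2 hra
    exact (ENNReal.ofReal_lt_iff_lt_toReal hr.le (ENNReal.inv_ne_top.2 h0)).1 h2
  calc a * volume {r : ℝ | 0 < r ∧ ENNReal.ofReal r * a < 1} ≤ a * volume (Ioo 0 (a⁻¹).toReal) := by
        gcongr
    _ = a * a⁻¹ := by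
        rw [Real.volume_Ioo, sub_zero, ENNReal.ofReal_toReal (ENNReal.inv_ne_top.2 h0)]
    _ ≤ 1 := by rw [ENNReal.mul_inv_cancel h0 ha.ne]

lemma cpl_fst_le (μ : Measure α) [IsFiniteMeasure μ] {F F' : α → ℝ≥0∞} (hF : Measurable F)
    (hF' : Measurable F') (hFt' : ∀ x, F' x < ⊤) (ρ : Measure (α × Ω)) [IsFiniteMeasure ρ]
    (hfst : ρ.fst = μ.withDensity F)
    (κ' : Kernel α Ω) [IsMarkovKernel κ'] (D : Set (α × Ω)) (hD : MeasurableSet D) :
    cpl μ F F' ρ.condKernel κ' {ω | (ω.1.1, ω.1.2.1) ∈ D} ≤ ρ D := by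
  have hm : Measurable (fun ω : (α × (Ω × Ω)) × ℝ => (ω.1.1, ω.1.2.1)) :=
    (measurable_fst.comp measurable_fst).prodMk
      (measurable_fst.comp (measurable_snd.comp measurable_fst))
  have hmD : MeasurableSet {ω : (α × (Ω × Ω)) × ℝ | (ω.1.1, ω.1.2.1) ∈ D} := hm hD
  rw [cpl_apply μ hF hF' _ _ _ hmD]
  have e1 : ∀ p : α × ℝ, ((ρ.condKernel p.1).prod (κ' p.1)) {w : Ω × Ω | ((p.1, w), p.2) ∈
      {ω : (α × (Ω × Ω)) × ℝ | (ω.1.1, ω.1.2.1) ∈ D}} = ρ.condKernel p.1 (Prod.mk p.1 ⁻¹' D) := by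
    intro p
    have : {w : Ω × Ω | ((p.1, w), p.2) ∈ {ω : (α × (Ω × Ω)) × ℝ | (ω.1.1, ω.1.2.1) ∈ D}} =
        (Prod.mk p.1 ⁻¹' D) ×ˢ univ := by
      ext w; simp
    rw [this, Measure.prod_prod, measure_univ, mul_one]
  have hk : Measurable fun x => ρ.condKernel x (Prod.mk x ⁻¹' D) :=
    Kernel.measurable_kernel_prodMk_left hD
  calc ∫⁻ p, dens F F' p * ((ρ.condKernel p.1).prod (κ' p.1)) {w : Ω × Ω | ((p.1, w), p.2) ∈
      {ω : (α × (Ω × Ω)) × ℝ | (ω.1.1, ω.1.2.1) ∈ D}} ∂(μ.prod volume)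
      = ∫⁻ p, dens F F' p * ρ.condKernel p.1 (Prod.mk p.1 ⁻¹' D) ∂(μ.prod volume) :=
        lintegral_congr fun p => by rw [e1 p]
    _ = ∫⁻ x, ∫⁻ r, dens F F' (x, r) * ρ.condKernel x (Prod.mk x ⁻¹' D) ∂volume ∂μ := by
        rw [lintegral_prod]
        exact ((mdens hF hF').mul (hk.comp measurable_fst)).aemeasurable
    _ ≤ ∫⁻ x, F x * ρ.condKernel x (Prod.mk x ⁻¹' D) ∂μ := by
        refine lintegral_mono fun x => ?_
        dsimp only
        have hmd : Measurable fun r : ℝ => dens F F' (x, r) :=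
          (mdens hF hF').comp measurable_prodMk_left
        rw [lintegral_mul_const _ hmd]
        gcongr
        have h1 : ∀ r : ℝ, dens F F' (x, r) ≤
            {r : ℝ | 0 < r ∧ ENNReal.ofReal r * F' x < 1}.indicator (fun _ => F x * F' x) r := by
          intro r
          unfold dens
          by_cases hr : (x, r) ∈ HtS F F'
          · rw [indicator_of_mem hr, indicator_of_mem]
            exact ⟨hr.1, hr.2.2⟩
          · rw [indicator_of_notMem hr]; exact bot_le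
        have hms : MeasurableSet {r : ℝ | 0 < r ∧ ENNReal.ofReal r * F' x < 1} :=
          (measurableSet_lt measurable_const measurable_id).inter
            (measurableSet_lt (ENNReal.measurable_ofReal.mul_const _) measurable_const)
        calc ∫⁻ r, dens F F' (x, r) ≤ ∫⁻ r,
            {r : ℝ | 0 < r ∧ ENNReal.ofReal r * F' x < 1}.indicator (fun _ => F x * F' x) r :=
              lintegral_mono h1
          _ = F x * (F' x * volume {r : ℝ | 0 < r ∧ ENNReal.ofReal r * F' x < 1}) := by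
              rw [lintegral_indicator hms, lintegral_const, Measure.restrict_apply_univ, mul_assoc]
          _ ≤ F x * 1 := by gcongr; exact vol_le (hFt' x)
          _ = F x := mul_one _
    _ = ∫⁻ p, D.indicator (fun _ => (1 : ℝ≥0∞)) p ∂ρ := by
        rw [lint ρ μ hF hfst _ (measurable_const.indicator hD)]
        refine lintegral_congr fun x => ?_
        congr 1
        have : (fun w => D.indicator (fun _ => (1 : ℝ≥0∞)) (x, w)) =
            (Prod.mk x ⁻¹' D).indicator (fun _ => (1 : ℝ≥0∞)) := by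
          funext w; rfl
        rw [this, lintegral_indicator (measurable_prodMk_left hD), lintegral_const, one_mul,
          Measure.restrict_apply_univ]
    _ = ρ D := by
        rw [lintegral_indicator hD, lintegral_const, one_mul, Measure.restrict_apply_univ]

omit [MeasurableSpace α] in
lemma dens_comm (F F' : α → ℝ≥0∞) : dens F F' = dens F' F := by
  have h : HtS F F' = HtS F' F := by
    ext p
    simp only [HtS, mem_ofPred_eq]
    tauto
  unfold dens
  rw [h]
  congr 1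
  funext p
  exact mul_comm _ _

lemma cpl_snd_le (μ : Measure α) [IsFiniteMeasure μ] {F F' : α → ℝ≥0∞} (hF : Measurable F)
    (hF' : Measurable F') (hFt : ∀ x, F x < ⊤) (ρ : Measure (α × Ω)) [IsFiniteMeasure ρ]
    (hfst : ρ.fst = μ.withDensity F')
    (κ : Kernel α Ω) [IsMarkovKernel κ] (D : Set (α × Ω)) (hD : MeasurableSet D) :
    cpl μ F F' κ ρ.condKernel {ω | (ω.1.1, ω.1.2.2) ∈ D} ≤ ρ D := by
  have hm : Measurable (fun ω : (α × (Ω × Ω)) × ℝ => (ω.1.1, ω.1.2.2)) :=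
    (measurable_fst.comp measurable_fst).prodMk
      (measurable_snd.comp (measurable_snd.comp measurable_fst))
  have hmD : MeasurableSet {ω : (α × (Ω × Ω)) × ℝ | (ω.1.1, ω.1.2.2) ∈ D} := hm hD
  have hm2 : Measurable (fun ω : (α × (Ω × Ω)) × ℝ => (ω.1.1, ω.1.2.1)) :=
    (measurable_fst.comp measurable_fst).prodMk
      (measurable_fst.comp (measurable_snd.comp measurable_fst))
  have hmD2 : MeasurableSet {ω : (α × (Ω × Ω)) × ℝ | (ω.1.1, ω.1.2.1) ∈ D} := hm2 hD
  refine le_trans (le_of_eq ?_) (cpl_fst_le μ hF' hF hFt ρ hfst κ D hD)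
  rw [cpl_apply μ hF hF' _ _ _ hmD, cpl_apply μ hF' hF _ _ _ hmD2, dens_comm F F']
  refine lintegral_congr fun p => ?_
  congr 1
  have h1 : {w : Ω × Ω | ((p.1, w), p.2) ∈ {ω : (α × (Ω × Ω)) × ℝ | (ω.1.1, ω.1.2.2) ∈ D}} =
        univ ×ˢ (Prod.mk p.1 ⁻¹' D) := by
      ext w; simp
  have h2 : {w : Ω × Ω | ((p.1, w), p.2) ∈ {ω : (α × (Ω × Ω)) × ℝ | (ω.1.1, ω.1.2.1) ∈ D}} =
        (Prod.mk p.1 ⁻¹' D) ×ˢ univ := by
      ext w; simp
  rw [h1, h2, Measure.prod_prod, Measure.prod_prod, measure_univ, mul_one, one_mul]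

lemma cpl_inv (μ : Measure α) [IsFiniteMeasure μ] {F F' : α → ℝ≥0∞} (hF : Measurable F)
    (hF' : Measurable F') (hFt : ∀ x, F x < ⊤) (hFt' : ∀ x, F' x < ⊤)
    (ρ ρ' : Measure (α × Ω)) [IsFiniteMeasure ρ] [IsFiniteMeasure ρ']
    (hfst : ρ.fst = μ.withDensity F) (hfst' : ρ'.fst = μ.withDensity F')
    {σ σ' : α → α} {τ : Ω → Ω} {U U' : Set Ω}
    (hσ : Measurable σ) (hσ' : Measurable σ') (hσσ : ∀ x, σ' (σ x) = x)
    (hτ : Measurable τ) (hU : MeasurableSet U)
    (hU' : MeasurableSet U') (hν : μ.map σ = μ)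
    (hinv : ∀ D : Set (α × Ω), MeasurableSet D →
      ρ ({ω | ω.2 ∈ U} ∩ (fun ω : α × Ω => (σ ω.1, τ ω.2)) ⁻¹' D) = ρ ({ω | ω.2 ∈ U'} ∩ D))
    (hinv' : ∀ D : Set (α × Ω), MeasurableSet D →
      ρ' ({ω | ω.2 ∈ U} ∩ (fun ω : α × Ω => (σ ω.1, τ ω.2)) ⁻¹' D) = ρ' ({ω | ω.2 ∈ U'} ∩ D))
    (D : Set ((α × (Ω × Ω)) × ℝ)) (hD : MeasurableSet D) :
    cpl μ F F' ρ.condKernel ρ'.condKernel
      ({ω | ω.1.2.1 ∈ U ∧ ω.1.2.2 ∈ U ∧ (ω.1.1, ω.2) ∈ HtS F F' ∧ (σ ω.1.1, ω.2) ∈ HtS F F'} ∩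
        (fun ω : (α × (Ω × Ω)) × ℝ => ((σ ω.1.1, (τ ω.1.2.1, τ ω.1.2.2)), ω.2)) ⁻¹' D) =
      cpl μ F F' ρ.condKernel ρ'.condKernel
      ({ω | ω.1.2.1 ∈ U' ∧ ω.1.2.2 ∈ U' ∧ (ω.1.1, ω.2) ∈ HtS F F' ∧
        (σ' ω.1.1, ω.2) ∈ HtS F F'} ∩ D) := by
  have hb := base ρ μ hF hFt hfst hσ hσ' hσσ hτ hU hU' hν hinv
  have hb' := base ρ' μ hF' hFt' hfst' hσ hσ' hσσ hτ hU hU' hν hinv'
  have m1 : Measurable (fun ω : (α × (Ω × Ω)) × ℝ => ω.1.1) := measurable_fst.comp measurable_fst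
  have m2 : Measurable (fun ω : (α × (Ω × Ω)) × ℝ => ω.1.2.1) :=
    measurable_fst.comp (measurable_snd.comp measurable_fst)
  have m3 : Measurable (fun ω : (α × (Ω × Ω)) × ℝ => ω.1.2.2) :=
    measurable_snd.comp (measurable_snd.comp measurable_fst)
  have m4 : Measurable (fun ω : (α × (Ω × Ω)) × ℝ => ω.2) := measurable_snd
  have mH := mHtS hF hF'
  have mL : MeasurableSet ({ω | ω.1.2.1 ∈ U ∧ ω.1.2.2 ∈ U ∧ (ω.1.1, ω.2) ∈ HtS F F' ∧
      (σ ω.1.1, ω.2) ∈ HtS F F'} ∩
        (fun ω : (α × (Ω × Ω)) × ℝ => ((σ ω.1.1, (τ ω.1.2.1, τ ω.1.2.2)), ω.2)) ⁻¹' D) := by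
    refine MeasurableSet.inter ((m2 hU).inter ((m3 hU).inter
      (((m1.prodMk m4) mH).inter (((hσ.comp m1).prodMk m4) mH)))) ?_
    exact (((hσ.comp m1).prodMk ((hτ.comp m2).prodMk (hτ.comp m3))).prodMk m4) hD
  have mR : MeasurableSet ({ω | ω.1.2.1 ∈ U' ∧ ω.1.2.2 ∈ U' ∧ (ω.1.1, ω.2) ∈ HtS F F' ∧
        (σ' ω.1.1, ω.2) ∈ HtS F F'} ∩ D) :=
    MeasurableSet.inter ((m2 hU').inter ((m3 hU').inter
      (((m1.prodMk m4) mH).inter (((hσ'.comp m1).prodMk m4) mH)))) hD
  rw [cpl_apply μ hF hF' _ _ _ mL, cpl_apply μ hF hF' _ _ _ mR]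
  have hgm : Measurable fun p : α × ℝ => dens F F' p *
      ((ρ.condKernel p.1).prod (ρ'.condKernel p.1)) {w | ((p.1, w), p.2) ∈
        ({ω : (α × (Ω × Ω)) × ℝ | ω.1.2.1 ∈ U' ∧ ω.1.2.2 ∈ U' ∧ (ω.1.1, ω.2) ∈ HtS F F' ∧
        (σ' ω.1.1, ω.2) ∈ HtS F F'} ∩ D)} := by
    refine (mdens hF hF').mul ?_
    have := Kernel.measurable_kernel_prodMk_left
      (κ := (ρ.condKernel ×ₖ ρ'.condKernel).comap (Prod.fst : α × ℝ → α) measurable_fst) (mre mR)
    convert this using 2 with p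
    rw [Kernel.comap_apply, Kernel.prod_apply]
    rfl
  rw [lintegral_prod _ hgm.aemeasurable]
  have hμσ : μ = μ.map σ := hν.symm
  conv_rhs => rw [hμσ]
  rw [lintegral_map hgm.lintegral_prod_right' hσ, lintegral_prod]
  swap
  · refine Measurable.aemeasurable ?_
    refine (mdens hF hF').mul ?_
    have := Kernel.measurable_kernel_prodMk_left
      (κ := (ρ.condKernel ×ₖ ρ'.condKernel).comap (Prod.fst : α × ℝ → α) measurable_fst) (mre mL)
    convert this using 2 with p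
    rw [Kernel.comap_apply, Kernel.prod_apply]
    rfl
  refine lintegral_congr_ae ?_
  filter_upwards [hb, hb'] with x hx hx'
  refine lintegral_congr fun r => ?_
  by_cases h1 : (x, r) ∈ HtS F F'
  swap
  · have e : {w : Ω × Ω | ((σ x, w), r) ∈
        ({ω : (α × (Ω × Ω)) × ℝ | ω.1.2.1 ∈ U' ∧ ω.1.2.2 ∈ U' ∧ (ω.1.1, ω.2) ∈ HtS F F' ∧
        (σ' ω.1.1, ω.2) ∈ HtS F F'} ∩ D)} = ∅ := by
      ext w
      simp [hσσ, h1]
    rw [e, measure_empty, mul_zero]
    have : dens F F' (x, r) = 0 := by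
      unfold dens
      rw [indicator_of_notMem h1]
    rw [this, zero_mul]
  by_cases h2 : (σ x, r) ∈ HtS F F'
  swap
  · have e : {w : Ω × Ω | ((x, w), r) ∈ ({ω : (α × (Ω × Ω)) × ℝ | ω.1.2.1 ∈ U ∧ ω.1.2.2 ∈ U ∧
      (ω.1.1, ω.2) ∈ HtS F F' ∧ (σ ω.1.1, ω.2) ∈ HtS F F'} ∩
        (fun ω : (α × (Ω × Ω)) × ℝ => ((σ ω.1.1, (τ ω.1.2.1, τ ω.1.2.2)), ω.2)) ⁻¹' D)} = ∅ := by
      ext w
      simp [h2]
    rw [e, measure_empty, mul_zero]
    have : dens F F' (σ x, r) = 0 := by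
      unfold dens
      rw [indicator_of_notMem h2]
    rw [this, zero_mul]
  have d1 : dens F F' (x, r) = F x * F' x := by
    unfold dens
    rw [indicator_of_mem h1]
  have d2 : dens F F' (σ x, r) = F (σ x) * F' (σ x) := by
    unfold dens
    rw [indicator_of_mem h2]
  set E : Set (Ω × Ω) := {w | ((σ x, w), r) ∈ D} with hE
  have hEm : MeasurableSet E := by
    have : Measurable fun w : Ω × Ω => ((σ x, w), r) :=
      (measurable_const.prodMk measurable_id).prodMk measurable_const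
    exact this hD
  have e1 : {w : Ω × Ω | ((x, w), r) ∈ ({ω : (α × (Ω × Ω)) × ℝ | ω.1.2.1 ∈ U ∧ ω.1.2.2 ∈ U ∧
      (ω.1.1, ω.2) ∈ HtS F F' ∧ (σ ω.1.1, ω.2) ∈ HtS F F'} ∩
        (fun ω : (α × (Ω × Ω)) × ℝ => ((σ ω.1.1, (τ ω.1.2.1, τ ω.1.2.2)), ω.2)) ⁻¹' D)} =
      (Prod.map τ τ ⁻¹' E) ∩ (U ×ˢ U) := by
    ext w
    simp only [mem_inter_iff, mem_preimage, mem_ofPred_eq, mem_prod, Prod.map, h1, h2, hE]
    tauto
  have e2 : {w : Ω × Ω | ((σ x, w), r) ∈
        ({ω : (α × (Ω × Ω)) × ℝ | ω.1.2.1 ∈ U' ∧ ω.1.2.2 ∈ U' ∧ (ω.1.1, ω.2) ∈ HtS F F' ∧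
        (σ' ω.1.1, ω.2) ∈ HtS F F'} ∩ D)} = E ∩ (U' ×ˢ U') := by
    ext w
    simp only [mem_inter_iff, mem_ofPred_eq, mem_prod, h1, h2, hE, hσσ]
    tauto
  rw [e1, e2, d1, d2]
  have f1 : (F x * F' x) * ((ρ.condKernel x).prod (ρ'.condKernel x))
      ((Prod.map τ τ ⁻¹' E) ∩ (U ×ˢ U)) =
      ((F x • ((ρ.condKernel x).restrict U).map τ).prod
        (F' x • ((ρ'.condKernel x).restrict U).map τ)) E := by
    rw [Measure.prod_smul_left, Measure.prod_smul_right, Measure.smul_apply, Measure.smul_apply,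
      smul_eq_mul, smul_eq_mul, Measure.map_prod_map _ _ hτ hτ,
      Measure.map_apply (hτ.prodMap hτ) hEm, Measure.prod_restrict,
      Measure.restrict_apply ((hτ.prodMap hτ) hEm), mul_assoc]
  have f2 : (F (σ x) * F' (σ x)) * ((ρ.condKernel (σ x)).prod (ρ'.condKernel (σ x)))
      (E ∩ (U' ×ˢ U')) =
      ((F (σ x) • (ρ.condKernel (σ x)).restrict U').prod
        (F' (σ x) • (ρ'.condKernel (σ x)).restrict U')) E := by
    rw [Measure.prod_smul_left, Measure.prod_smul_right, Measure.smul_apply, Measure.smul_apply,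
      smul_eq_mul, smul_eq_mul, Measure.prod_restrict, Measure.restrict_apply hEm, mul_assoc]
  rw [f1, f2, hx, hx']

end gen

open Pool.Agent.H646.CS TopologicalSpace in
open Pool.Agent.H646.CR (P mu) in
theorem holds : Pool.Agent.H646.CS.S_coup := by
  intro G K H M _ _ _ _ _ _ _ _ _ _ _ _ _ _ _ _ _ _ m hm s η η' F F' hη hη' hF hF' hFt hFt' e1 e2
  have : PolishSpace K := by
    let := metrizableSpaceMetric K
    infer_instance
  have : StandardBorelSpace K := inferInstance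
  have : BorelSpace (P × K) := inferInstance
  have : StandardBorelSpace ((P × K) × Lab G H) := inferInstance
  have := hη.prob
  have := hη'.prob
  have := hm.prob
  have hmup : IsProbabilityMeasure (mu m s) := by
    unfold mu; infer_instance
  have : Nonempty (St G K H M) := by
    by_contra h
    rw [not_nonempty_iff] at h
    have h1 : η univ = 1 := measure_univ
    rw [univ_eq_empty_iff.2 h, measure_empty] at h1
    exact zero_ne_one h1
  have : Nonempty ((P × K) × Lab G H) := (inferInstance : Nonempty (St G K H M)).map Prod.snd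
  have hf1 : η.fst = (mu m s).withDensity F := e1
  have hf2 : η'.fst = (mu m s).withDensity F' := e2
  refine ⟨cpl (mu m s) F F' η.condKernel η'.condKernel, ?_, ?_, ?_, ?_⟩
  · exact cpl_base (mu m s) hF hF' _ _
  · exact fun D hD => cpl_fst_le (mu m s) hF hF' hFt' η hf1 _ D hD
  · exact fun D hD => cpl_snd_le (mu m s) hF hF' hFt η' hf2 _ D hD
  · intro g u D hD
    have hlab : ∀ (g : G) (u : H), Measurable fun w : (P × K) × Lab G H => w.2 g u := fun g u =>
      (measurable_pi_apply u).comp ((measurable_pi_apply g).comp measurable_snd)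
    have hU : ∀ (g : G) (u : H), MeasurableSet {w : (P × K) × Lab G H | w.2 g u = true} :=
      fun g u => hlab g u (measurableSet_singleton true)
    have hs : ∀ u : G, Measurable fun x : P × K => u • x := fun u =>
      (continuous_const_smul u).measurable
    have hsM : ∀ u : H, Measurable fun x : P × M => u • x := fun u =>
      (continuous_const_smul u).measurable
    have hτ : Measurable fun w : (P × K) × Lab G H => (g • w.1, shL g u w.2) := by
      refine ((hs g).comp measurable_fst).prodMk ?_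
      refine measurable_pi_iff.2 fun h => measurable_pi_iff.2 fun v => ?_
      exact hlab (h * g) (v * u)
    have hν : (mu m s).map (fun x : P × M => u • x) = mu m s := by
      unfold mu
      ext A hA
      rw [Measure.map_apply (hsM u) hA, Measure.prod_apply ((hsM u) hA), Measure.prod_apply hA,
        lintegral_dirac' _ (measurable_measure_prodMk_left ((hsM u) hA)),
        lintegral_dirac' _ (measurable_measure_prodMk_left hA)]
      have hk : Measurable fun k : M => (u • ((s, k) : P × M)).2 :=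
        measurable_snd.comp ((hsM u).comp measurable_prodMk_left)
      conv_rhs => rw [← hm.pres u s]
      rw [Measure.map_apply hk (measurable_prodMk_left hA)]
      congr 1
      ext k
      have h1 : (u • ((s, k) : P × M)).1 = s := hm.fst_smul u (s, k)
      have h2 : (s, (u • ((s, k) : P × M)).2) = u • ((s, k) : P × M) := Prod.ext h1.symm rfl
      simp only [mem_preimage, h2]
    exact cpl_inv (mu m s) hF hF' hFt hFt' η η' hf1 hf2 (σ := fun x => u • x)
      (σ' := fun x => u⁻¹ • x)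
      (τ := fun w => (g • w.1, shL g u w.2)) (U := {w | w.2 g u = true})
      (U' := {w | w.2 g⁻¹ u⁻¹ = true}) (hsM u) (hsM u⁻¹) (fun x => inv_smul_smul u x) hτ
      (hU g u) (hU g⁻¹ u⁻¹) hν (fun D hD => hη.inv g u D hD) (fun D hD => hη'.inv g u D hD)
      D hD

end Pool.Agent.H969.CSCoup
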