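import Pool.Agent.H646.CS.Stm
import Pool.Agent.H646.CR.PClosed

set_option autoImplicit false
set_option linter.unusedSectionVars false
set_option linter.style.haveILetI false

/-!
# Project CS (helper646): the null sets, `S_null` from `S_cl0` and `S_mm`
-/

namespace Pool.Agent.H94.CSnull

open MeasureTheory ProbabilityTheory Set Topology TopologicalSpace Filter
open Pool.Agent.H646.CR (P en en_surj dn b2r IsPD mu IsSys)
open Pool.Agent.H646.CS
open Pool.Agent.H154.CRclosed (compact_pm cont_int prob_mu muP cont_muP)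
open scoped ENNReal

section abs

variable {M : Type} [TopologicalSpace M] [CompactSpace M]
  [MetrizableSpace M] [MeasurableSpace M] [BorelSpace M]

theorem mu_fib (m : Measure M) [IsProbabilityMeasure m] (s : P) :
    mu m s {x : P × M | x.1 ≠ s} = 0 := by
  have h : {x : P × M | x.1 ≠ s} = ({s}ᶜ : Set P) ×ˢ (univ : Set M) := by
    ext x
    simp
  unfold mu
  rw [h, Measure.prod_prod, Measure.dirac_apply' _ (measurableSet_singleton s).compl]
  simp

/-- the part of the set where the parameter has the index `k` -/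
def VV (U : ℕ → ℕ → Set P) (j k : ℕ) : Set P := U k j \ ⋃ k', ⋃ (_ : k' < k), U k' j

/-- one of the sets -/
def AA (f : ℕ → P × M → ℝ) (U : ℕ → ℕ → Set P) (j k : ℕ) : Set (P × M) :=
  Prod.fst ⁻¹' VV U j k ∩ {x | 1 / 8 ≤ f k x}

/-- the sets `N j` -/
def NN (f : ℕ → P × M → ℝ) (U : ℕ → ℕ → Set P) (j : ℕ) : Set (P × M) := ⋃ k, AA f U j k

theorem meas_NN {f : ℕ → P × M → ℝ} {U : ℕ → ℕ → Set P} (hf : ∀ k, Continuous (f k))
    (hU : ∀ k j, IsOpen (U k j)) (j : ℕ) : MeasurableSet (NN f U j) := by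
  refine MeasurableSet.iUnion fun k => ?_
  refine MeasurableSet.inter ?_ ?_
  · refine measurable_fst ?_
    refine (hU k j).measurableSet.diff ?_
    exact MeasurableSet.iUnion fun k' => MeasurableSet.iUnion fun _ => (hU k' j).measurableSet
  · exact (isClosed_le continuous_const (hf k)).measurableSet

theorem mem_VV {U : ℕ → ℕ → Set P} {s : P} {j : ℕ} (h : ∃ k, s ∈ U k j) :
    ∃ k₀, s ∈ U k₀ j ∧ ∀ k, s ∈ VV U j k ↔ k = k₀ := by
  classical
  refine ⟨Nat.find h, Nat.find_spec h, fun k => ?_⟩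
  unfold VV
  rw [Set.mem_sdiff, mem_iUnion₂]
  constructor
  · rintro ⟨h1, h2⟩
    refine le_antisymm ?_ (Nat.find_min' h h1)
    by_contra hlt
    exact h2 ⟨Nat.find h, not_le.1 hlt, Nat.find_spec h⟩
  · rintro rfl
    refine ⟨Nat.find_spec h, ?_⟩
    rintro ⟨k', hk', h3⟩
    exact Nat.find_min h hk' h3

theorem mem_NN {f : ℕ → P × M → ℝ} {U : ℕ → ℕ → Set P} {x : P × M} {j : ℕ} :
    x ∈ NN f U j ↔ ∃ k, x.1 ∈ VV U j k ∧ 1 / 8 ≤ f k x := by
  unfold NN AA
  simp only [mem_iUnion, mem_inter_iff, mem_preimage, mem_ofPred_eq]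

theorem integrable_f {f : P × M → ℝ} (hf : Continuous f) (h0 : ∀ x, 0 ≤ f x) (h1 : ∀ x, f x ≤ 1)
    (ρ : Measure (P × M)) [IsProbabilityMeasure ρ] : Integrable f ρ := by
  refine Integrable.of_bound hf.aestronglyMeasurable 1 (Eventually.of_forall fun x => ?_)
  rw [Real.norm_eq_abs, abs_of_nonneg (h0 x)]
  exact h1 x

theorem NN_le {f : ℕ → P × M → ℝ} {U : ℕ → ℕ → Set P} (hf : ∀ k, Continuous (f k))
    (h0 : ∀ k x, 0 ≤ f k x) (h1 : ∀ k x, f k x ≤ 1) (m : Measure M) [IsProbabilityMeasure m]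
    (hI : ∀ k j s, s ∈ U k j → ∫ x, f k x ∂(mu m s) < (1 / 2) ^ j) (s : P) (j : ℕ) :
    mu m s (NN f U j) ≤ ENNReal.ofReal (8 * (1 / 2) ^ j) := by
  haveI := prob_mu m s
  by_cases h : ∃ k, s ∈ U k j
  · obtain ⟨k₀, hk₀, hV⟩ := mem_VV h
    have hsub : NN f U j ⊆ {x : P × M | x.1 ≠ s} ∪ {x | 1 / 8 ≤ f k₀ x} := by
      intro x hx
      rw [mem_NN] at hx
      obtain ⟨k, hk1, hk2⟩ := hx
      by_cases hxs : x.1 = s
      · right
        rw [hxs, hV] at hk1
        rw [← hk1]
        exact hk2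
      · left
        exact hxs
    refine (measure_mono hsub).trans ((measure_union_le _ _).trans ?_)
    rw [mu_fib, zero_add]
    have h2 := mul_meas_ge_le_integral_of_nonneg (μ := mu m s)
      (Eventually.of_forall (h0 k₀)) (integrable_f (hf k₀) (h0 k₀) (h1 k₀) (mu m s)) (1 / 8)
    have h3 := hI k₀ j s hk₀
    rw [← ofReal_measureReal]
    apply ENNReal.ofReal_le_ofReal
    linarith
  · have hsub : NN f U j ⊆ {x : P × M | x.1 ≠ s} := by
      intro x hx hxs
      rw [mem_NN] at hx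
      obtain ⟨k, hk1, hk2⟩ := hx
      rw [hxs] at hk1
      exact h ⟨k, hk1.1⟩
    exact (measure_mono hsub).trans (by rw [mu_fib]; exact zero_le)

theorem NN_ge {f : ℕ → P × M → ℝ} {U : ℕ → ℕ → Set P} (hf : ∀ k, Continuous (f k))
    (h0 : ∀ k x, 0 ≤ f k x) (h1 : ∀ k x, f k x ≤ 1) {s : P} {j : ℕ} (h : ∃ k, s ∈ U k j)
    (ρ : Measure (P × M)) [IsProbabilityMeasure ρ] (hρ : ρ {x | x.1 ≠ s} = 0)
    (hJ : ∀ k, s ∈ U k j → 1 / 4 < ∫ x, f k x ∂ρ) :
    ENNReal.ofReal (1 / 8) ≤ ρ (NN f U j) := by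
  obtain ⟨k₀, hk₀, hV⟩ := mem_VV h
  have hsub : {x | 1 / 8 ≤ f k₀ x} ⊆ {x : P × M | x.1 ≠ s} ∪ NN f U j := by
    intro x hx
    by_cases hxs : x.1 = s
    · right
      rw [mem_NN]
      exact ⟨k₀, by rw [hxs, hV], hx⟩
    · left
      exact hxs
  have h2 : ρ {x | 1 / 8 ≤ f k₀ x} ≤ ρ (NN f U j) := by
    refine (measure_mono hsub).trans ((measure_union_le _ _).trans ?_)
    rw [hρ, zero_add]
  refine le_trans ?_ h2
  have hm : MeasurableSet {x | 1 / 8 ≤ f k₀ x} :=
    (isClosed_le continuous_const (hf k₀)).measurableSet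
  have h3 : ∫ x, f k₀ x ∂ρ ≤ ∫ x, ({x | 1 / 8 ≤ f k₀ x}.indicator (fun _ => (1 : ℝ)) x + 1 / 8) ∂ρ := by
    apply integral_mono (integrable_f (hf k₀) (h0 k₀) (h1 k₀) ρ)
    · exact ((integrable_const (1 : ℝ)).indicator hm).add (integrable_const _)
    · intro x
      by_cases hx : x ∈ {x | 1 / 8 ≤ f k₀ x}
      · simp only [indicator_of_mem hx]
        have := h1 k₀ x
        linarith
      · simp only [indicator_of_notMem hx]
        have hx' : f k₀ x < 1 / 8 := not_le.1 hx
        linarith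
  rw [integral_add ((integrable_const (1 : ℝ)).indicator hm) (integrable_const _),
    integral_indicator_const _ hm, integral_const] at h3
  simp only [probReal_univ, smul_eq_mul, mul_one, one_mul] at h3
  have h4 := hJ k₀ hk₀
  rw [← ofReal_measureReal]
  apply ENNReal.ofReal_le_ofReal
  linarith

theorem null_abs {f : ℕ → P × M → ℝ} {U : ℕ → ℕ → Set P} (hf : ∀ k, Continuous (f k))
    (h0 : ∀ k x, 0 ≤ f k x) (h1 : ∀ k x, f k x ≤ 1) (hU : ∀ k j, IsOpen (U k j))
    (m : Measure M) [IsProbabilityMeasure m]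
    (hI : ∀ k j s, s ∈ U k j → ∫ x, f k x ∂(mu m s) < (1 / 2) ^ j) :
    ∃ N : Set (P × M), MeasurableSet N ∧ (∀ s, mu m s N = 0) ∧
      ∀ s, (∀ j, ∃ k, s ∈ U k j) → ∀ ρ : Measure (P × M), IsProbabilityMeasure ρ →
        ρ {x | x.1 ≠ s} = 0 → (∀ j k, s ∈ U k j → 1 / 4 < ∫ x, f k x ∂ρ) → ρ N ≠ 0 := by
  refine ⟨⋂ n : ℕ, ⋃ i, ⋃ (_ : n ≤ i), NN f U i, ?_, fun s => ?_, fun s hs ρ hρ hρs hJ => ?_⟩
  · exact MeasurableSet.iInter fun n => MeasurableSet.iUnion fun i => MeasurableSet.iUnion fun _ =>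
      meas_NN hf hU i
  · have h2 : ∑' j, mu m s (NN f U j) ≠ ∞ := by
      have h3 : ∑' j, mu m s (NN f U j) ≤ ∑' j : ℕ, ENNReal.ofReal (8 * (1 / 2) ^ j) :=
        ENNReal.tsum_le_tsum fun j => NN_le hf h0 h1 m hI s j
      refine ne_top_of_le_ne_top ?_ h3
      rw [← ENNReal.ofReal_tsum_of_nonneg (fun j => by positivity)
        ((summable_geometric_of_lt_one (by norm_num) (by norm_num)).mul_left 8)]
      exact ENNReal.ofReal_ne_top
    have h4 := measure_limsup_atTop_eq_zero h2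
    rw [limsup_eq_iInf_iSup_of_nat] at h4
    exact h4
  · have hanti : Antitone fun n : ℕ => ⋃ i, ⋃ (_ : n ≤ i), NN f U i := by
      intro a b hab x hx
      simp only [mem_iUnion, exists_prop] at hx ⊢
      obtain ⟨i, hi, hx⟩ := hx
      exact ⟨i, hab.trans hi, hx⟩
    have h5 := tendsto_measure_iInter_atTop (μ := ρ)
      (s := fun n : ℕ => ⋃ i, ⋃ (_ : n ≤ i), NN f U i)
      (fun n => (MeasurableSet.iUnion fun i => MeasurableSet.iUnion fun _ =>
        meas_NN hf hU i).nullMeasurableSet) hanti ⟨0, measure_ne_top _ _⟩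
    have h6 : ENNReal.ofReal (1 / 8) ≤ ρ (⋂ n : ℕ, ⋃ i, ⋃ (_ : n ≤ i), NN f U i) := by
      refine ge_of_tendsto' h5 fun n => ?_
      refine (NN_ge hf h0 h1 (hs n) ρ hρs (hJ n)).trans (measure_mono ?_)
      intro x hx
      simp only [mem_iUnion, exists_prop]
      exact ⟨n, le_rfl, hx⟩
    intro h7
    rw [h7] at h6
    have h8 : (0 : ℝ≥0∞) < ENNReal.ofReal (1 / 8) := ENNReal.ofReal_pos.2 (by norm_num)
    exact absurd h6 (not_le.2 h8)

end abs

section sys

variable {G K H M : Type} [Group G] [Countable G] [TopologicalSpace K] [CompactSpace K]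
  [MetrizableSpace K] [MeasurableSpace K] [BorelSpace K]
  [MulAction G (P × K)] [ContinuousConstSMul G (P × K)]
  [Group H] [Countable H] [TopologicalSpace M] [CompactSpace M]
  [MetrizableSpace M] [MeasurableSpace M] [BorelSpace M]
  [MulAction H (P × M)] [ContinuousConstSMul H (P × M)]

theorem conv_zero {X : Type} [MeasurableSpace X] {η η' : Measure X} {a b : ℝ≥0∞} {A : Set X}
    (h : η A = 0) (h' : η' A = 0) : (a • η + b • η') A = 0 := by
  rw [Measure.add_apply, Measure.smul_apply, Measure.smul_apply, h, h']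
  simp

theorem conv_ge {X : Type} [MeasurableSpace X] {η η' : Measure X} {a b c : ℝ≥0∞} {A : Set X}
    (hab : a + b = 1) (h : c ≤ η A) (h' : c ≤ η' A) : c ≤ (a • η + b • η') A := by
  rw [Measure.add_apply, Measure.smul_apply, Measure.smul_apply, smul_eq_mul, smul_eq_mul]
  calc c = a * c + b * c := by rw [← add_mul, hab, one_mul]
    _ ≤ a * η A + b * η' A := by gcongr

theorem w0_conv {η η' : Measure (St G K H M)} {a b : ℝ≥0∞} (hab : a + b = 1) (h : W0 η)
    (h' : W0 η') : W0 (a • η + b • η') where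
  prob := by
    haveI := h.prob
    haveI := h'.prob
    constructor
    rw [Measure.add_apply, Measure.smul_apply, Measure.smul_apply, measure_univ, measure_univ]
    simpa using hab
  lab_one := conv_zero h.lab_one h'.lab_one
  lab_uniq := fun g u w huw => conv_zero (h.lab_uniq g u w huw) (h'.lab_uniq g u w huw)
  inv := fun g u D hD => by
    rw [Measure.add_apply, Measure.smul_apply, Measure.smul_apply, h.inv g u D hD,
      h'.inv g u D hD, Measure.add_apply, Measure.smul_apply, Measure.smul_apply]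

theorem rel_conv {ε : ℝ} {q : P × K → Bool} {Q : Fin 4 → G} {l : Ix → ℕ} {l' : ℕ} {t s : P}
    {η η' : Measure (St G K H M)} {a b : ℝ≥0∞} (hab : a + b = 1)
    (h : Rel0 ε q Q l l' t s η) (h' : Rel0 ε q Q l l' t s η') :
    Rel0 ε q Q l l' t s (a • η + b • η') where
  w0 := w0_conv hab h.w0 h'.w0
  fib := conv_zero h.fib h'.fib
  par := conv_zero h.par h'.par
  gen := fun i => conv_ge hab (h.gen i) (h'.gen i)
  dig := conv_ge hab h.dig h'.dig

end sys

theorem holds (hcl : S_cl0) (hmm : S_mm) : S_null := by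
  intro G K H M _ _ _ _ _ _ _ _ _ _ _ _ _ _ _ _ _ _ q Q hq m hm l l' t B hB
  haveI := hm.prob
  haveI hcp : CompactSpace (ProbabilityMeasure (St G K H M)) := compact_pm (St G K H M)
  set f : ℕ → P × M → ℝ := fun k x => max 0 (min 1 (dn (P × M) k x)) with hfdef
  have hf : ∀ k, Continuous (f k) := fun k =>
    continuous_const.max (continuous_const.min (dn (P × M) k).continuous)
  have h0 : ∀ k x, 0 ≤ f k x := fun k x => le_max_left _ _
  have h1 : ∀ k x, f k x ≤ 1 := fun k x => max_le zero_le_one (min_le_left _ _)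
  set C : Set (P × ProbabilityMeasure (St G K H M)) :=
    {p | Rel0 (1 / 10 ^ 8) q Q l l' t p.1 (p.2 : Measure (St G K H M))} with hCdef
  have hC : IsClosed C := hcl G K H M q Q hq _ l l' t
  set U : ℕ → ℕ → Set P := fun k j => {s | ∫ x, f k x ∂(mu m s) < (1 / 2) ^ j} ∩
    (Prod.fst '' (C ∩ {p | ∫ ω, f k ω.1 ∂(p.2 : Measure (St G K H M)) ≤ 1 / 4}))ᶜ with hUdef
  have hU : ∀ k j, IsOpen (U k j) := by
    intro k j
    refine IsOpen.inter ?_ ?_
    · have h2 : Continuous fun s => ∫ x, f k x ∂(mu m s) := (cont_int (hf k)).comp (cont_muP m)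
      exact isOpen_lt h2 continuous_const
    · have h2 : Continuous fun p : P × ProbabilityMeasure (St G K H M) =>
          ∫ ω, f k ω.1 ∂(p.2 : Measure (St G K H M)) :=
        (cont_int ((hf k).comp continuous_fst)).comp continuous_snd
      have h3 : IsClosed (C ∩ {p | ∫ ω, f k ω.1 ∂(p.2 : Measure (St G K H M)) ≤ 1 / 4}) :=
        hC.inter (isClosed_le h2 continuous_const)
      exact (h3.isCompact.image continuous_fst).isClosed.isOpen_compl
  obtain ⟨N, hN1, hN2, hN3⟩ := null_abs hf h0 h1 hU m (fun k j s hs => hs.1)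
  refine ⟨N, hN1, hN2, fun s hs η hη => ?_⟩
  have hprob := hη.w0.prob
  have hmap : η {ω | ω.1 ∈ N} = (Measure.map Prod.fst η) N :=
    (Measure.map_apply measurable_fst hN1).symm
  rw [hmap]
  have hint : ∀ (k : ℕ) (η' : Measure (St G K H M)),
      ∫ x, f k x ∂(Measure.map Prod.fst η') = ∫ ω, f k ω.1 ∂η' := fun k η' =>
    integral_map measurable_fst.aemeasurable (hf k).aestronglyMeasurable
  refine hN3 s (fun j => ?_) _ (Measure.isProbabilityMeasure_map measurable_fst.aemeasurable) ?_ ?_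
  · -- the existence of `k`
    set R : Set (ProbabilityMeasure (St G K H M)) := (fun η' => (s, η')) ⁻¹' C with hR
    have hRc : IsCompact R := (hC.preimage (Continuous.prodMk_right s)).isCompact
    obtain ⟨k, hk1, hk2⟩ := hmm (P × M) (mu m s)
      ((fun η' : ProbabilityMeasure (St G K H M) =>
        η'.map (measurable_fst.aemeasurable : AEMeasurable (Prod.fst : St G K H M → P × M)
          (η' : Measure (St G K H M)))) '' R) (prob_mu m s)
      (hRc.image (ProbabilityMeasure.continuous_map continuous_fst)).isClosed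
      (by
        rintro _ ⟨η₁, h₁, rfl⟩ _ ⟨η₂, h₂, rfl⟩ a b hab
        have h3 : Rel0 (1 / 10 ^ 8) q Q l l' t s
            (a • (η₁ : Measure (St G K H M)) + b • (η₂ : Measure (St G K H M))) :=
          rel_conv hab h₁ h₂
        refine ⟨_, ⟨⟨_, h3.w0.prob⟩, h3, rfl⟩, ?_⟩
        change Measure.map Prod.fst (a • (η₁ : Measure (St G K H M)) +
          b • (η₂ : Measure (St G K H M))) = a • Measure.map Prod.fst (η₁ : Measure (St G K H M)) +
          b • Measure.map Prod.fst (η₂ : Measure (St G K H M))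
        rw [Measure.map_add _ _ measurable_fst, Measure.map_smul, Measure.map_smul])
      (by
        rintro _ ⟨η₁, h₁, rfl⟩
        exact hB s hs _ h₁)
      ((1 / 2) ^ j) (by positivity)
    refine ⟨k, hk1, ?_⟩
    rintro ⟨⟨s', η'⟩, ⟨h3, h4⟩, h5⟩
    simp only at h5
    subst h5
    have h6 := hk2 _ ⟨η', h3, rfl⟩
    have h7 := hint k (η' : Measure (St G K H M))
    have h8 : ∫ ω, f k ω.1 ∂(η' : Measure (St G K H M)) ≤ 1 / 4 := h4
    rw [← h7] at h8
    exact absurd h6 (not_lt.2 h8)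
  · rw [Measure.map_apply measurable_fst]
    · exact hη.fib
    · exact (measurable_fst (measurableSet_singleton s)).compl
  · intro j k hk
    rw [hint]
    by_contra hcon
    exact hk.2 ⟨(s, ⟨η, hprob⟩), ⟨hη, not_lt.1 hcon⟩, rfl⟩

end Pool.Agent.H94.CSnull
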