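import Pool.Agent.H646.CS.Final
import Pool.Agent.H646.CS.PCoup
import Pool.Agent.H646.CS.PClC
import Pool.Agent.H646.CS.PAcx
import Pool.Agent.H646.CS.PNull

set_option autoImplicit false

/-!
# Project CS (helper646): the final theorem
-/

namespace Pool.Agent.H646.CS

theorem final : Final :=
  final_of Pool.Agent.H969.CSCoup.holds
    (Pool.Agent.H288.CSclC.holds Pool.Agent.H200.CScl0.holds)
    Pool.Agent.H307.CSacx.holds
    (Pool.Agent.H94.CSnull.holds Pool.Agent.H200.CScl0.holds Pool.Agent.H980.CSmm.holds)

end Pool.Agent.H646.CS
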