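import Pool.Agent.H646.CS.Stm
import Pool.Agent.H646.CR.Stm

set_option autoImplicit false

/-!
# Project CS (helper646): the transfer lemma, part c
-/

namespace Pool.Agent.H597.CStrc

open MeasureTheory ProbabilityTheory Set Topology TopologicalSpace Filter
open Pool.Agent.H646.CR (P en en_surj dn b2r IsPD mu IsSys)
open Pool.Agent.H646.CS
open scoped ENNReal

theorem sc_of_compact (K : Type) [TopologicalSpace K] [CompactSpace K] [MetrizableSpace K] :
    SecondCountableTopology K := by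
  let _ := metrizableSpaceMetric K
  infer_instance

theorem polish_of_compact (K : Type) [TopologicalSpace K] [CompactSpace K] [MetrizableSpace K] :
    PolishSpace K := by
  let _ := metrizableSpaceMetric K
  infer_instance

/-- removing small sets -/
theorem cut {Ω : Type} [MeasurableSpace Ω] (ζ : Measure Ω) {A Bad C : Set Ω} {ε δ : ℝ} (hδ : 0 ≤ δ)
    (hε2 : ε + δ ≤ 1)
    (hA : ENNReal.ofReal (1 - ε) ≤ ζ A) (hB : ζ Bad ≤ ENNReal.ofReal δ)
    (h : ∀ ω ∈ A, ω ∉ Bad → ω ∈ C) : ENNReal.ofReal (1 - (ε + δ)) ≤ ζ C := by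
  have h1 : ζ A ≤ ζ C + ENNReal.ofReal δ := by
    calc ζ A ≤ ζ (C ∪ Bad) := measure_mono fun ω hω => by
          by_cases hb : ω ∈ Bad
          · exact Or.inr hb
          · exact Or.inl (h ω hω hb)
      _ ≤ ζ C + ζ Bad := measure_union_le _ _
      _ ≤ _ := by gcongr
  have h2 : ENNReal.ofReal (1 - ε) = ENNReal.ofReal (1 - (ε + δ)) + ENNReal.ofReal δ := by
    rw [← ENNReal.ofReal_add (by linarith) hδ]
    congr 1; ring
  rw [h2] at hA
  exact (ENNReal.add_le_add_iff_right ENNReal.ofReal_ne_top).1 (hA.trans h1)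

/-- a natural valued function is bounded on a big set -/
theorem ex_n {Ω : Type} [MeasurableSpace Ω] (ζ : Measure Ω) [IsFiniteMeasure ζ] (f : Ω → ℕ)
    (hf : Measurable f) {ε : ℝ} (hε : 0 < ε) : ∃ n, ζ {ω | n < f ω} ≤ ENNReal.ofReal ε := by
  have h1 : Tendsto (ζ ∘ fun n : ℕ => {ω | n < f ω}) atTop (𝓝 (ζ (⋂ n, {ω | n < f ω}))) := by
    refine tendsto_measure_iInter_atTop ?_ ?_ ⟨0, measure_ne_top _ _⟩
    · intro n
      exact (hf (measurableSet_Ioi (a := n))).nullMeasurableSet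
    · intro a b hab ω hω
      exact lt_of_le_of_lt hab hω
  have h2 : (⋂ n : ℕ, {ω | n < f ω}) = ∅ := by
    ext ω
    simp only [mem_iInter, mem_ofPred_eq, mem_empty_iff_false, iff_false, not_forall, not_lt]
    exact ⟨f ω, le_rfl⟩
  rw [h2, measure_empty] at h1
  have h3 := h1.eventually (ge_mem_nhds (ENNReal.ofReal_pos.2 hε))
  obtain ⟨n, hn⟩ := h3.exists
  exact ⟨n, hn⟩

section

variable {G K : Type} [Group G] [Countable G] [TopologicalSpace K] [CompactSpace K]
    [MetrizableSpace K] [MeasurableSpace K] [BorelSpace K]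
    [MulAction G (P × K)] [ContinuousConstSMul G (P × K)]
    {Z : Type} [TopologicalSpace Z] [CompactSpace Z] [MetrizableSpace Z] [MeasurableSpace Z]
    [BorelSpace Z]

/-- a lower bound for `trM` -/
theorem trM_ge (hT : S_trm) {n : ℕ} {Ξ : Z → (P × K) × ℕ} (hΞ : Measurable Ξ)
    {ζ : Measure ((P × K) × (G → Z))} (hζ : IsProbabilityMeasure ζ)
    (A : Set (St G K (Hn G n) (Mn K n))) (c : ℝ≥0∞)
    (h : c ≤ ζ ({ω | tr n Ξ ω ∈ A} ∩ {ω | (Ξ (ω.2 1)).2 ≤ n})) :
    c ≤ trM (G := G) n Ξ ζ A := by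
  have htr : Measurable (tr (G := G) n Ξ) := hT G K Z n Ξ hΞ
  refine h.trans ?_
  show _ ≤ ((ζ {ω | (Ξ (ω.2 1)).2 ≤ n})⁻¹ •
    Measure.map (tr n Ξ) (ζ.restrict {ω | (Ξ (ω.2 1)).2 ≤ n})) A
  rw [Measure.smul_apply, smul_eq_mul]
  have h1 : (1 : ℝ≥0∞) ≤ (ζ {ω | (Ξ (ω.2 1)).2 ≤ n})⁻¹ := by
    rw [ENNReal.one_le_inv]; exact prob_le_one
  calc ζ ({ω | tr n Ξ ω ∈ A} ∩ {ω | (Ξ (ω.2 1)).2 ≤ n})
      ≤ (ζ.restrict {ω | (Ξ (ω.2 1)).2 ≤ n}) (tr n Ξ ⁻¹' A) := Measure.le_restrict_apply _ _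
    _ ≤ (Measure.map (tr n Ξ) (ζ.restrict {ω | (Ξ (ω.2 1)).2 ≤ n})) A :=
        Measure.le_map_apply htr.aemeasurable _
    _ ≤ _ := le_mul_of_one_le_left bot_le h1

end

theorem holds (hA : Pool.Agent.H646.CR.S_approx) (hT : S_trm) : S_trc := by
  intro G K _ _ _ _ _ _ _ _ _ Z _ _ _ _ _ act q Q X1 Ξ hq hact hC l l' d ζ hζ
  have hζp := hζ.prob
  have : SecondCountableTopology K := sc_of_compact K
  have : SecondCountableTopology Z := sc_of_compact Z
  have : PolishSpace Z := polish_of_compact Z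
  have : PolishSpace K := polish_of_compact K
  have hm1 : Measurable fun ω : (P × K) × (G → Z) => ω.2 1 :=
    (measurable_pi_apply 1).comp measurable_snd
  have hmX : Measurable fun ω : (P × K) × (G → Z) => (Ξ (ω.2 1)).2 :=
    measurable_snd.comp (hC.mΞ.comp hm1)
  obtain ⟨n, hn⟩ := ex_n ζ _ hmX (ε := 1 / 10 ^ 12) (by norm_num)
  -- the point with name `g` is also good
  have hng : ∀ g : G, ζ {ω | n < (Ξ (ω.2 g)).2} ≤ ENNReal.ofReal (1 / 10 ^ 12) := by
    intro g
    have hR : Measurable fun ω : (P × K) × (G → Z) => (g • ω.1, fun h => ω.2 (h * g)) := by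
      refine ((continuous_const_smul g).measurable.comp measurable_fst).prodMk ?_
      exact measurable_pi_lambda _ fun h => (measurable_pi_apply (h * g)).comp measurable_snd
    have h1 := hζ.inv g
    have h2 : ζ {ω | n < (Ξ (ω.2 1)).2} = ζ {ω | n < (Ξ (ω.2 g)).2} := by
      have hms : MeasurableSet {ω : (P × K) × (G → Z) | n < (Ξ (ω.2 1)).2} :=
        hmX (measurableSet_Ioi (a := n))
      conv_lhs => rw [← h1]
      rw [Measure.map_apply hR hms]
      congr 1
      ext ω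
      simp only [mem_preimage, mem_ofPred_eq, one_mul]
    rw [← h2]; exact hn
  have hne : Nonempty Z := by
    obtain ⟨ω⟩ : Nonempty ((P × K) × (G → Z)) := by
      by_contra h
      rw [not_nonempty_iff] at h
      have h1 : ζ univ = 0 := by rw [univ_eq_empty_iff.2 h, measure_empty]
      rw [measure_univ] at h1
      exact one_ne_zero h1
    exact ⟨ω.2 1⟩
  have hemb : MeasurableEmbedding Ξ := hC.mΞ.measurableEmbedding hC.inj
  -- the base point
  let β : Z → P × Mn K n := fun z => ((Ξ z).1.1, ((Ξ z).1.2, ((Ξ z).2 : ZMod (n + 1))))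
  have hβ : Measurable β := by
    refine (measurable_fst.comp (measurable_fst.comp hC.mΞ)).prodMk
      ((measurable_snd.comp (measurable_fst.comp hC.mΞ)).prodMk ?_)
    exact (measurable_from_nat (f := fun k : ℕ => (k : ZMod (n + 1)))).comp
      (measurable_snd.comp hC.mΞ)
  let γ : P × Mn K n → Z := fun y => hemb.invFun ((y.1, y.2.1), y.2.2.val)
  have hγ : Measurable γ := by
    refine hemb.measurable_invFun.comp ?_
    refine (measurable_fst.prodMk (measurable_fst.comp measurable_snd)).prodMk ?_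
    exact (measurable_from_top (f := fun k : ZMod (n + 1) => k.val)).comp
      (measurable_snd.comp measurable_snd)
  have hγβ : ∀ z : Z, (Ξ z).2 ≤ n → γ (β z) = z := by
    intro z hz
    show hemb.invFun (((Ξ z).1.1, (Ξ z).1.2), ((Ξ z).2 : ZMod (n + 1)).val) = z
    rw [ZMod.val_natCast_of_lt (by omega)]
    exact hemb.leftInverse_invFun z
  have hβω : Measurable fun ω : (P × K) × (G → Z) => β (ω.2 1) := hβ.comp hm1
  set ρ : Measure (P × Mn K n) := Measure.map (fun ω : (P × K) × (G → Z) => β (ω.2 1)) ζ with hρ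
  have hρp : IsProbabilityMeasure ρ := Measure.isProbabilityMeasure_map hβω.aemeasurable
  have bad : ∀ (k : ℕ) (F : P × Mn K n → ℕ) (g : G),
      ρ {x | 1 / 4 < |dn (P × Mn K n) k x - F x|} ≤ ENNReal.ofReal (1 / 10 ^ 12) →
      ζ ({ω | n < (Ξ (ω.2 1)).2} ∪ ({ω | n < (Ξ (ω.2 g)).2} ∪
        {ω | 1 / 4 < |dn (P × Mn K n) k (β (ω.2 1)) - F (β (ω.2 1))|})) ≤
        ENNReal.ofReal (3 / 10 ^ 12) := by
    intro k F g h
    have h3 : ζ {ω | 1 / 4 < |dn (P × Mn K n) k (β (ω.2 1)) - F (β (ω.2 1))|} ≤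
        ENNReal.ofReal (1 / 10 ^ 12) :=
      le_trans (Measure.le_map_apply hβω.aemeasurable
        {x | 1 / 4 < |dn (P × Mn K n) k x - F x|}) h
    have h4 : ENNReal.ofReal (3 / 10 ^ 12) = ENNReal.ofReal (1 / 10 ^ 12) +
        (ENNReal.ofReal (1 / 10 ^ 12) + ENNReal.ofReal (1 / 10 ^ 12)) := by
      rw [← ENNReal.ofReal_add (by norm_num) (by norm_num),
        ← ENNReal.ofReal_add (by norm_num) (by norm_num)]
      congr 1; norm_num
    rw [h4]
    refine (measure_union_le _ _).trans (add_le_add hn ?_)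
    exact (measure_union_le _ _).trans (add_le_add (hng g) h3)
  have hfin : ∀ A : Set ((P × K) × (G → Z)),
      ENNReal.ofReal (1 - (1 / 10 ^ 11 + 3 / 10 ^ 12)) ≤ ζ A →
      ENNReal.ofReal (1 - 1 / 10 ^ 10) ≤ ζ A := by
    intro A h
    refine le_trans (ENNReal.ofReal_le_ofReal ?_) h
    norm_num
  have gen : ∀ i, ∃ k : ℕ, ENNReal.ofReal (1 - 1 / 10 ^ 10) ≤
      (trM (G := G) n Ξ ζ) (FX k (Q8 Q i)) := by
    intro i
    classical
    let m : Z → ℕ := fun z => ⌊dn Z (l i) z + 1 / 2⌋₊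
    have hm : Measurable m :=
      Nat.measurable_floor.comp ((dn Z (l i)).continuous.measurable.add_const _)
    let ψ : Z → (P × K) × ℕ := fun z => Ξ (act (m z) z)
    have hψ : Measurable ψ := by
      have h1 : Measurable fun p : Z × ℕ => act p.2 p.1 :=
        measurable_from_prod_countable_left fun n => (hact n).measurable
      exact hC.mΞ.comp (h1.comp (measurable_id.prodMk hm))
    -- the label number `k` is right
    let R : ℕ → Z → Prop := fun k z => (ψ z).1 = (en (Hn G n) k).1 • (Ξ z).1 ∧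
      ((ψ z).2 : ZMod (n + 1)) = Multiplicative.toAdd (en (Hn G n) k).2 +
        ((Ξ z).2 : ZMod (n + 1))
    have hSk : ∀ k : ℕ, MeasurableSet {z : Z | R k z} := by
      intro k
      have h1 : Measurable fun z : Z => ((ψ z).1, (en (Hn G n) k).1 • (Ξ z).1) :=
        (measurable_fst.comp hψ).prodMk
          ((continuous_const_smul (en (Hn G n) k).1).measurable.comp
            (measurable_fst.comp hC.mΞ))
      have h2 : MeasurableSet {p : ℕ × ℕ | (p.1 : ZMod (n + 1)) =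
          Multiplicative.toAdd (en (Hn G n) k).2 + (p.2 : ZMod (n + 1))} :=
        MeasurableSet.of_discrete
      have h3 : Measurable fun z : Z => ((ψ z).2, (Ξ z).2) :=
        (measurable_snd.comp hψ).prodMk (measurable_snd.comp hC.mΞ)
      exact (h1 (isClosed_diagonal.measurableSet)).inter (h3 h2)
    have hex : ∀ z : Z, ∃ k : ℕ, R k z ∨ ∀ j : ℕ, ¬ R j z := by
      intro z
      by_cases h : ∃ k, R k z
      · obtain ⟨k, hk⟩ := h
        exact ⟨k, Or.inl hk⟩
      · push Not at h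
        exact ⟨0, Or.inr h⟩
    let θ : Z → ℕ := fun z => Nat.find (hex z)
    have hθ : Measurable θ := by
      refine measurable_find hex fun k => ?_
      have : {z : Z | R k z ∨ ∀ j : ℕ, ¬ R j z} =
          {z : Z | R k z} ∪ ⋂ j : ℕ, {z : Z | R j z}ᶜ := by
        ext z
        simp
      rw [this]
      exact (hSk k).union (MeasurableSet.iInter fun j => (hSk j).compl)
    have hθz : ∀ z, R (θ z) z := by
      intro z
      obtain ⟨g, hg⟩ := hC.orb z (m z)
      rcases Nat.find_spec (hex z) with h | h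
      · exact h
      · obtain ⟨k, hk⟩ := en_surj (Hn G n)
          (g, Multiplicative.ofAdd (((ψ z).2 : ZMod (n + 1)) - ((Ξ z).2 : ZMod (n + 1))))
        refine absurd ?_ (h k)
        refine ⟨?_, ?_⟩
        · rw [hk]; exact hg
        · rw [hk]
          show _ = (((ψ z).2 : ZMod (n + 1)) - ((Ξ z).2 : ZMod (n + 1))) + _
          ring
    obtain ⟨k, hk⟩ := hA (P × Mn K n) ρ hρp (fun y => θ (γ y)) (hθ.comp hγ) (1 / 10 ^ 12)
      (by norm_num)
    refine ⟨k, trM_ge hT hC.mΞ hζp _ _ (hfin _ ?_)⟩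
    refine cut ζ (by norm_num) (by norm_num) (hζ.gen i) (bad k _ (Q8 Q i) hk) ?_
    rintro ω ⟨j, hj1, hj2⟩ hω
    simp only [mem_union, mem_ofPred_eq, not_or, not_lt] at hω
    obtain ⟨hω1, hω2, hω3⟩ := hω
    refine ⟨?_, hω1⟩
    rw [hγβ _ hω1] at hω3
    have hmj : m (ω.2 1) = j := by
      show ⌊dn Z (l i) (ω.2 1) + 1 / 2⌋₊ = j
      rw [abs_le] at hj1
      rw [Nat.floor_eq_iff]
      · constructor <;> linarith
      · have : (0 : ℝ) ≤ j := Nat.cast_nonneg j
        linarith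
    have hψz : ψ (ω.2 1) = Ξ (ω.2 (Q8 Q i)) := by
      show Ξ (act (m (ω.2 1)) (ω.2 1)) = _
      rw [hmj, ← hj2]
    have hR := hθz (ω.2 1)
    refine ⟨θ (ω.2 1), hω3, ?_⟩
    show @decide ((Ξ (ω.2 1)).2 ≤ n ∧ (Ξ (ω.2 (Q8 Q i))).2 ≤ n ∧
      (Ξ (ω.2 (Q8 Q i))).1 = (en (Hn G n) (θ (ω.2 1))).1 • (Ξ (ω.2 1)).1 ∧
      (((Ξ (ω.2 (Q8 Q i))).2 : ZMod (n + 1)) =
        Multiplicative.toAdd (en (Hn G n) (θ (ω.2 1))).2 +
        ((Ξ (ω.2 1)).2 : ZMod (n + 1)))) (Classical.propDecidable _) = true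
    refine @decide_eq_true _ (Classical.propDecidable _) ⟨hω1, hω2, ?_, ?_⟩
    · rw [← hψz]; exact hR.1
    · rw [← hψz]; exact hR.2
  have dig : ∃ k' : ℕ, ENNReal.ofReal (1 - 1 / 10 ^ 10) ≤
      (trM (G := G) n Ξ ζ) (HX q k') := by
    classical
    let F : P × Mn K n → ℕ := fun y => if 1 / 2 < dn Z l' (γ y) then 1 else 0
    have hF : Measurable F := by
      refine Measurable.ite ?_ measurable_const measurable_const
      exact measurableSet_lt measurable_const ((dn Z l').continuous.measurable.comp hγ)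
    obtain ⟨k, hk⟩ := hA (P × Mn K n) ρ hρp F hF (1 / 10 ^ 12) (by norm_num)
    refine ⟨k, trM_ge hT hC.mΞ hζp _ _ (hfin _ ?_)⟩
    refine cut ζ (by norm_num) (by norm_num) hζ.dig (bad k _ 1 hk) ?_
    intro ω hn1 hω
    simp only [mem_union, mem_ofPred_eq, not_or, not_lt] at hω
    obtain ⟨hω1, hω2, hω3⟩ := hω
    refine ⟨?_, hω1⟩
    show |dn (P × Mn K n) k (β (ω.2 1)) - b2r (q ω.1)| ≤ 1 / 4
    have hF2 : ((F (β (ω.2 1)) : ℕ) : ℝ) = b2r (q ω.1) := by
      show (((if 1 / 2 < dn Z l' (γ (β (ω.2 1))) then 1 else 0 : ℕ)) : ℝ) = _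
      rw [hγβ _ hω1]
      have hn1' : |dn Z l' (ω.2 1) - b2r (q ω.1)| ≤ 1 / 4 := hn1
      rw [abs_le] at hn1'
      cases hq : q ω.1
      · rw [hq] at hn1'
        simp only [b2r] at hn1' ⊢
        rw [if_neg (by simp at hn1'; linarith)]
        simp
      · rw [hq] at hn1'
        simp only [b2r] at hn1' ⊢
        rw [if_pos (by simp at hn1'; linarith)]
        simp
    rw [← hF2]
    exact hω3
  choose k hk using gen
  obtain ⟨k', hk'⟩ := dig
  refine ⟨n, k, k', ?_, hk, hk'⟩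
  intro h0
  have h1 : ζ univ ≤ ζ {ω | (Ξ (ω.2 1)).2 ≤ n} + ζ {ω | n < (Ξ (ω.2 1)).2} := by
    refine le_trans (measure_mono ?_) (measure_union_le _ _)
    intro ω _
    by_cases h : (Ξ (ω.2 1)).2 ≤ n
    · exact Or.inl h
    · exact Or.inr (not_le.1 h)
  rw [h0, zero_add, measure_univ] at h1
  have h2 := h1.trans hn
  rw [ENNReal.one_le_ofReal] at h2
  norm_num at h2

end Pool.Agent.H597.CStrc
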