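import Pool.Agent.H646.CS.Defs

set_option autoImplicit false

/-!
# The lemmas

Every statement `S_X` has a paper proof in its docstring.  A subtask (prove `S_X`) means: a module
with a theorem `S_X_holds : S_X` (or with the hypotheses explicitly allowed in the docstring).
Most of them are generalisations of lemmas of `Pool.Agent.H646.CR`, whose proofs
(`Pool/Agent/H646/CR/P*.lean`) can be adapted.
-/

namespace Pool.Agent.H646.CS

open MeasureTheory ProbabilityTheory Set Topology TopologicalSpace Filter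
open Pool.Agent.H646.CR (P en en_surj dn b2r IsPD mu IsSys)
open scoped ENNReal

/-- **Topological lemma** (template: `CR/PTopo.lean`).

Proof.  For `i` and a nonempty basic open set `O` (countable basis of `P`) the set of all `t`
with `O ⊆ {s | R i t s}` is countable (take a point of `O`).  So the set `N` of all `t` such that
for some `i` the closed set `{s | R i t s}` has nonempty interior is countable.  `P` is a Baire
space without isolated points, hence the complement of `N` is dense; take a countable dense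
subset of it and enumerate it as `D j`.  `B := ⋂ i j, {s | R i (D j) s}ᶜ` is a
countable intersection of dense open sets. -/
def S_topo : Prop :=
  ∀ (ι : Type) [Countable ι] (R : ι → P → P → Prop),
    (∀ i t, IsClosed {s | R i t s}) → (∀ i s, {t | R i t s}.Countable) →
    ∃ D : ℕ → P, DenseRange D ∧ ∃ B : Set P, IsGδ B ∧ Dense B ∧ ∀ s ∈ B, ∀ i j, ¬ R i (D j) s

/-- **Positive definiteness, general form** (template: `CR/PPd.lean`).

Proof.  Given `g : Fin n → G`, `a : Fin n → ℝ`, let `S i ω = {j | ∃ u, ω ∈ N (g j * (g i)⁻¹) u}`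
(a `Finset (Fin n)`), which contains `i` a.s.  Claim: `C (S i = S) = C (S k = S)` if `i, k ∈ S`.
With `h = g k * (g i)⁻¹`: the event `S i = S` is contained in `⋃ u, N h u` and is the disjoint (a.s.)
union over `u` of `N h u ∩ {S i = S}`, and on `N h u` one has `S k (T h u ω) = S i ω` (first
hypothesis: `T h u ω ∈ N (g j * (g k)⁻¹) w ↔ ω ∈ N (g j * (g i)⁻¹) (w * u)`).  Apply the invariance
with `D = {S k = S}` and sum over `u` (`h⁻¹ = g i * (g k)⁻¹`, `i ∈ S`).
Now `∑ i j, a i a j Φ (g j * (g i)⁻¹) = ∑ i, a i ∑ S, C (S i = S) ∑ j ∈ S, a j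
= ∑ S, p S * (∑ j ∈ S, a j) ^ 2 ≥ 0`, where `p S` is the common value of `C (S i = S)`, `i ∈ S`
(and `C (S i = S) = 0` if `i ∉ S`).  `symm`: invariance with `D = univ`, summed over `u`. -/
def S_pd : Prop :=
  ∀ (G H Ω : Type) [Group G] [Group H] [Countable H] [MeasurableSpace Ω] (C : Measure Ω)
    (N : G → H → Set Ω) (T : G → H → Ω → Ω), IsFiniteMeasure C → C univ ≠ 0 →
    (∀ g u, MeasurableSet (N g u)) → (∀ g u, Measurable (T g u)) →
    (∀ g u h w ω, ω ∈ N g u → (T g u ω ∈ N h w ↔ ω ∈ N (h * g) (w * u))) →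
    C (N 1 1)ᶜ = 0 → (∀ g u w, u ≠ w → C (N g u ∩ N g w) = 0) →
    (∀ g u (D : Set Ω), MeasurableSet D → C (N g u ∩ T g u ⁻¹' D) = C (N g⁻¹ u⁻¹ ∩ D)) →
    IsPD fun g : G => (C (⋃ u, N g u)).toReal / (C univ).toReal

/-- **The coupling with heights** (template: `CR/PCoup.lean`).

Proof.  Let `μ = mu m s` (an `H`-invariant probability measure on the standard Borel space
`P × M`), `W = (P × K) × Lab G H`, `κ = η.condKernel`, `κ' = η'.condKernel`, so that
`η = (μ.withDensity F) ⊗ₘ κ`.  Define `C` as the image of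
`((μ.prod volume).withDensity (fun p => indicator {p | Ht F F' p.1 p.2} (F p.1 * F' p.1))) ⊗ₘ
(κ ×ₖ κ')` (kernels at the point `p.1`) under the obvious rearrangement.  (a) is clear.
(b): the `C`-measure of `{(ω.1.1, ω.1.2.1) ∈ D}` is
`∫ F x * F' x * vol {r | Ht F F' x r} * κ x (D x) ∂μ ≤ ∫ F x * κ x (D x) ∂μ = η D`, because
`F' x * vol {r | Ht F F' x r} ≤ 1` (`Ht` implies `r ≤ 1 / F' x`).
(c): put `U = {w | w.2 g u = true}`, `U' = {w | w.2 g⁻¹ u⁻¹ = true}`,
`τ w = (g • w.1, shL g u w.2)`.  Claim: for `μ`-a.e. `x`,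
`F x • ((κ x).restrict U).map τ = F (u • x) • (κ (u • x)).restrict U'` and the same for `κ'`, `F'`.  For
measurable `A, D`: `∫ x in A, F x * κ x (U ∩ τ⁻¹ D) ∂μ = η (A ×ˢ (U ∩ τ⁻¹ D))
= η ({ω.2.2 g u} ∩ T g u ⁻¹' (uA ×ˢ D)) = η ({ω.2.2 g⁻¹ u⁻¹} ∩ (uA ×ˢ D))
= ∫ x in uA, F x * κ x (U' ∩ D) ∂μ = ∫ x in A, F (u • x) * κ (u • x) (U' ∩ D) ∂μ`.
So for each `D` of a countable generating π-system the two functions of `x` agree a.e.  Integrating
the product measures (for fixed `r`, with the factor `1_{Ht x r} 1_{Ht (u • x) r}`) gives (c). -/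
def S_coup : Prop :=
  ∀ (G K H M : Type) [Group G] [Countable G] [TopologicalSpace K] [CompactSpace K]
    [MetrizableSpace K] [MeasurableSpace K] [BorelSpace K]
    [MulAction G (P × K)] [ContinuousConstSMul G (P × K)]
    [Group H] [Countable H] [TopologicalSpace M] [CompactSpace M]
    [MetrizableSpace M] [MeasurableSpace M] [BorelSpace M]
    [MulAction H (P × M)] [ContinuousConstSMul H (P × M)] (m : Measure M), IsTgt H M m →
    ∀ (s : P) (η η' : Measure (St G K H M)) (F F' : P × M → ℝ≥0∞), W0 η → W0 η' →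
    Measurable F → Measurable F' → (∀ x, F x < ⊤) → (∀ x, F' x < ⊤) →
    Measure.map Prod.fst η = (mu m s).withDensity F →
    Measure.map Prod.fst η' = (mu m s).withDensity F' →
    ∃ C : Measure (Cp G K H M),
      Measure.map (fun ω : Cp G K H M => (ω.1.1, ω.2)) C = ((mu m s).prod volume).withDensity
        (fun p => {p : (P × M) × ℝ | Ht F F' p.1 p.2}.indicator (fun p => F p.1 * F' p.1) p) ∧
      (∀ D : Set (St G K H M), MeasurableSet D → C {ω | (ω.1.1, ω.1.2.1) ∈ D} ≤ η D) ∧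
      (∀ D : Set (St G K H M), MeasurableSet D → C {ω | (ω.1.1, ω.1.2.2) ∈ D} ≤ η' D) ∧
      ∀ (g : G) (u : H) (D : Set (Cp G K H M)), MeasurableSet D →
        C (NC F F' g u ∩ TC g u ⁻¹' D) = C (NC F F' g⁻¹ u⁻¹ ∩ D)

/-- **Heights.**  Elementary.

Proof.  Finite `a, b` (if one of them is `0`, both sides of the equality are `0`): the set of all
`r` is the interval `(0, 1 / max a b)`, so the first product is
`a * b / max a b = min a b`.  Second: if `max c d ≤ max a b` the set is empty; otherwise it is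
contained in `[1 / max c d, 1 / max a b)`, and
`a b (1 / max a b - 1 / max c d) = a b (max c d - max a b) / (max a b max c d) ≤
max c d - max a b ≤ (c - a) + (d - b)`. -/
def S_ht : Prop :=
  ∀ a b c d : ℝ≥0∞, a < ⊤ → b < ⊤ → c < ⊤ → d < ⊤ →
    a * b * volume {r : ℝ | 0 < r ∧ ENNReal.ofReal r * a < 1 ∧ ENNReal.ofReal r * b < 1} = min a b ∧
    a * b * volume {r : ℝ | (0 < r ∧ ENNReal.ofReal r * a < 1 ∧ ENNReal.ofReal r * b < 1) ∧
      ¬ (0 < r ∧ ENNReal.ofReal r * c < 1 ∧ ENNReal.ofReal r * d < 1)} ≤ (c - a) + (d - b)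

/-- **Predicted labels of one process.**

Proof.  `A = {x | θ' (θ x • x) = (θ x)⁻¹}` (measurable: countable union over the values of `θ`).
First: `{x ∉ A} ⊆ {L g (θ x) = false} ∪ {x ∉ A, L g (θ x) = true}`, and the second event has measure
`∑ u, η ({L g u} ∩ {θ x = u, θ' (u • x) ≠ u⁻¹}) = ∑ u, η ({L g⁻¹ u⁻¹} ∩ {θ (u⁻¹ • x) = u, θ' x ≠ u⁻¹})`
(`inv`); the events on the right are a.s. disjoint (`lab_uniq`) and a.s. contained in
`{L g⁻¹ (θ' x) = false}`, which has measure `≤ ε`.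
Second: let `ν = map fst η = μ.withDensity F` (`μ = mu m s`, `H`-invariant),
`D = {x ∈ A | F x < F (θ x • x)}`, `D u = D ∩ {θ = u}`, `D' u = u • D u`.  The sets `D' u` are disjoint
(on `D' u` we have `θ' = u⁻¹`).  `∫ x in D, F (θ x • x) ∂μ = ∑ u, ∫ x in D u, F (u • x) ∂μ
= ∑ u, ν (D' u) = ν (⋃ u, D' u) = η {x ∈ ⋃ u, D' u} ≤ ε + η {x ∈ ⋃ u, D' u, L g⁻¹ (θ' x) = true}
= ε + ∑ u, η ({L g⁻¹ u⁻¹} ∩ {x ∈ D' u}) = ε + ∑ u, η ({L g u} ∩ {x ∈ D u}) ≤ ε + ν D
= ε + ∫ x in D, F x ∂μ`, and the last integral is finite. -/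
def S_one : Prop :=
  ∀ (G K H M : Type) [Group G] [Countable G] [TopologicalSpace K] [CompactSpace K]
    [MetrizableSpace K] [MeasurableSpace K] [BorelSpace K]
    [MulAction G (P × K)] [ContinuousConstSMul G (P × K)]
    [Group H] [Countable H] [TopologicalSpace M] [CompactSpace M]
    [MetrizableSpace M] [MeasurableSpace M] [BorelSpace M]
    [MulAction H (P × M)] [ContinuousConstSMul H (P × M)] (m : Measure M), IsTgt H M m →
    ∀ (s : P) (η : Measure (St G K H M)) (F : P × M → ℝ≥0∞), W0 η →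
    Measurable F → Measure.map Prod.fst η = (mu m s).withDensity F →
    ∀ (g : G) (θ θ' : P × M → H) (ε : ℝ≥0∞), (∀ u, MeasurableSet (θ ⁻¹' {u})) →
      (∀ u, MeasurableSet (θ' ⁻¹' {u})) →
      η {ω | ω.2.2 g (θ ω.1) = false} ≤ ε → η {ω | ω.2.2 g⁻¹ (θ' ω.1) = false} ≤ ε →
      η {ω | θ' (θ ω.1 • ω.1) ≠ (θ ω.1)⁻¹} ≤ 2 * ε ∧
      ∫⁻ x in {x | θ' (θ x • x) = (θ x)⁻¹}, (F (θ x • x) - F x) ∂(mu m s) ≤ ε

/-- **Pair lemma** (`S_pd`, `S_coup`, `S_ht`, `S_one` may be assumed; template: `CR/PUniq.lean`).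

Proof.  `ε = 1 / 10 ^ 7`, `μ = mu m s`, `C` from `S_coup`, `N = NC F F'`, `T = TC`.  By (a) and `S_ht` the total mass `T₀`
of `C` is `∫ min F F' ∂μ ≥ 99 / 100` (and `≤ 1` by (b)), and `Ht F F' ω.1.1 ω.2` holds `C`-a.s.
So the hypotheses of `S_pd` are satisfied; `Φ g = C (⋃ u, N g u) / T₀` is positive definite.
Fix `i : Fin 4`, `g = Q i`, `θ x = en H ⌊dn (P × M) (l (i, false)) x + 1 / 2⌋₊`, `θ'` the same for
`(i, true)` (`Q8 Q (i, true) = g⁻¹`).  `FX (l (i, false)) g ⊆ {L g (θ x) = true}` (if `|y - m| ≤ 1 / 4`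
then `⌊y + 1 / 2⌋₊ = m`), so the hypotheses of `S_one` hold for `η` and `η'` with `ofReal ε`.  Let
`A = {x | θ' (θ x • x) = (θ x)⁻¹}`.  The complement of `⋃ u, N g u` is a.s. contained in
`{L g (θ x) = false} ∪ {L' g (θ x) = false} ∪ {x ∉ A} ∪ {x ∈ A, Ht x r, ¬ Ht (θ x • x) r}`, and the
`C`-measures are at most `ε`, `ε`, `2 ε` (by (b)), and, by (a), `S_ht` and `S_one`,
`∫ x in A, (F (θ x • x) - F x) + (F' (θ x • x) - F' x) ∂μ ≤ 2 ε`.  So `Φ (Q i) ≥ 1 - 6 ε / T₀ ≥
1 - 2 / 10 ^ 6`, and `rt` gives `Φ (c n) ≥ 9 / 10` for all `n`.  If `t ≠ t'` take `n` with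
`t n ≠ t' n` and `a = c n`.  Let `H x = decide (1 / 2 < dn _ l' x)`; on `HX q l'` we have
`H x = q x'` (`x = ω.1`, `x' = ω.2.1`).  Under `η` the event `∃ u, L a u ∧ H (u • x) ≠ q (a • x')` has
measure `≤ ∑ u, η ({L a u} ∩ T a u ⁻¹' Bad) = ∑ u, η ({L a⁻¹ u⁻¹} ∩ Bad) ≤ η Bad ≤ ε` with
`Bad = {H x ≠ q x'}` (labels are a.s. unique).  The same for `η'`.  So with positive `C`-measure there
is `u` with `L a u`, `L' a u`, `H (u • x) = q (a • x'₁) = xor (t n) (q x'₁) = xor (t n) (H x)` and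
`H (u • x) = xor (t' n) (H x)`: contradiction. -/
def S_pair : Prop :=
  ∀ (G K H M : Type) [Group G] [Countable G] [TopologicalSpace K] [CompactSpace K]
    [MetrizableSpace K] [MeasurableSpace K] [BorelSpace K]
    [MulAction G (P × K)] [ContinuousConstSMul G (P × K)]
    [Group H] [Countable H] [TopologicalSpace M] [CompactSpace M]
    [MetrizableSpace M] [MeasurableSpace M] [BorelSpace M]
    [MulAction H (P × M)] [ContinuousConstSMul H (P × M)]
    (lam : Measure K) (q : P × K → Bool) (c : ℕ → G) (Q : Fin 4 → G) (X0 : Set (P × K)),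
    IsSys G K lam q c Q X0 → ∀ (m : Measure M), IsTgt H M m →
    ∀ (l : Ix → ℕ) (l' : ℕ) (t t' s : P) (η η' : Measure (St G K H M)) (F F' : P × M → ℝ≥0∞),
    Rel0 (1 / 10 ^ 7) q Q l l' t s η → Rel0 (1 / 10 ^ 7) q Q l l' t' s η' →
    Measurable F → Measurable F' → (∀ x, F x < ⊤) → (∀ x, F' x < ⊤) →
    Measure.map Prod.fst η = (mu m s).withDensity F →
    Measure.map Prod.fst η' = (mu m s).withDensity F' →
    ENNReal.ofReal (99 / 100) ≤ ∫⁻ x, min (F x) (F' x) ∂(mu m s) → t = t'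

/-- **Countability** (`S_pair` may be assumed).

Proof.  `μ = mu m s` is a probability measure on a standard Borel space, so `L¹ (μ)` is separable
(`MeasureTheory.Lp.SecondCountableTopology` or density of the sequence `dn (P × M)`).  For each `t` in the set
choose `η t` and a density `F t ≤ C` (Radon-Nikodym derivative of `map fst (η t) ≤ C • μ`; modify it on
a null set to be bounded), an element of `L¹`.  There is a countable set `D ⊆ L¹` such that each `F t` has
distance `< 1 / 200` from some `f t ∈ D`.  If `f t = f t'` then `∫ |F t - F t'| ∂μ ≤ 1 / 100`, so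
`∫ min (F t) (F t') ∂μ = 1 - (∫ |F t - F t'| ∂μ) / 2 ≥ 99 / 100` and `t = t'` by `S_pair`.  So
`t ↦ f t` is injective into a countable set. -/
def S_cnt : Prop :=
  ∀ (G K H M : Type) [Group G] [Countable G] [TopologicalSpace K] [CompactSpace K]
    [MetrizableSpace K] [MeasurableSpace K] [BorelSpace K]
    [MulAction G (P × K)] [ContinuousConstSMul G (P × K)]
    [Group H] [Countable H] [TopologicalSpace M] [CompactSpace M]
    [MetrizableSpace M] [MeasurableSpace M] [BorelSpace M]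
    [MulAction H (P × M)] [ContinuousConstSMul H (P × M)]
    (lam : Measure K) (q : P × K → Bool) (c : ℕ → G) (Q : Fin 4 → G) (X0 : Set (P × K)),
    IsSys G K lam q c Q X0 → ∀ (m : Measure M), IsTgt H M m →
    ∀ (C : ℕ) (l : Ix → ℕ) (l' : ℕ) (s : P),
      {t | ∃ η : Measure (St G K H M), RelC m q Q C l l' t s η}.Countable

/-- **Closedness of `Rel0`** (template: `CR/PClosed.lean`; `CR/PUsc.lean` is a proof of
`CR.S_usc`).

Proof.  `lab_one`, `lab_uniq`: the events are clopen.  `fib`, `par`: the conditions `ω.1.1 = s` and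
`ω.2.1.1 = t` a.s.: for each `n` the set `{(s, η) | η {ω | ω.1.1 n ≠ s n} = 0}` is closed (the events are
clopen and locally constant in `s`).  `gen`, `dig`: the sets `FX`, `HX` are
closed (`dn` is bounded, so the union over `m` in `FX` is finite), use upper semicontinuity
(`ProbabilityMeasure.limsup_measure_closed_le_of_tendsto`).  `inv`: equivalent
to the equality of the integrals of all bounded continuous functions `f` against the two finite
measures `(η.restrict {ω | ω.2.2 g u = true}).map (T g u)` and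
`η.restrict {ω | ω.2.2 g⁻¹ u⁻¹ = true}` (`ext_of_forall_integral_eq_of_IsFiniteMeasure`), i.e. of the
integrals against `η` of the continuous functions `1_{ω.2.2 g u} * f ∘ T g u` and
`1_{ω.2.2 g⁻¹ u⁻¹} * f` (the indicators are continuous, the events being clopen). -/
def S_cl0 : Prop :=
  ∀ (G K H M : Type) [Group G] [Countable G] [TopologicalSpace K] [CompactSpace K]
    [MetrizableSpace K] [MeasurableSpace K] [BorelSpace K]
    [MulAction G (P × K)] [ContinuousConstSMul G (P × K)]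
    [Group H] [Countable H] [TopologicalSpace M] [CompactSpace M]
    [MetrizableSpace M] [MeasurableSpace M] [BorelSpace M]
    [MulAction H (P × M)] [ContinuousConstSMul H (P × M)]
    (q : P × K → Bool) (Q : Fin 4 → G), Continuous q →
    ∀ (ε : ℝ) (l : Ix → ℕ) (l' : ℕ) (t : P),
      IsClosed {p : P × ProbabilityMeasure (St G K H M) |
        Rel0 ε q Q l l' t p.1 (p.2 : Measure (St G K H M))}

/-- **Closedness of `RelC`** (`S_cl0` may be assumed; template: `CR/PClosed.lean`).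

Proof.  `P × ProbabilityMeasure (St G K H M)` is compact (instance in
`Mathlib.MeasureTheory.Measure.Prokhorov`, see `CR/PClosed.lean`), so it is enough to show that the set of
all `(s, η)` with `RelC m q Q C l l' t s η` is closed (then take the image under the first projection).
`map fst η ≤ C • mu m s` is equivalent to `∫ f ∂(map fst η) ≤ C * ∫ f ∂(mu m s)` for all continuous
`f : P × M → ℝ≥0` (for a closed set approximate the indicator by `thickenedIndicator`, then use inner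
regularity, `Measure.InnerRegularWRT` for closed sets, for all Borel sets), both sides are
continuous functions of `(s, η)` (`s ↦ (dirac s).prod m` is continuous into `ProbabilityMeasure (P × M)`). -/
def S_clC : Prop :=
  ∀ (G K H M : Type) [Group G] [Countable G] [TopologicalSpace K] [CompactSpace K]
    [MetrizableSpace K] [MeasurableSpace K] [BorelSpace K]
    [MulAction G (P × K)] [ContinuousConstSMul G (P × K)]
    [Group H] [Countable H] [TopologicalSpace M] [CompactSpace M]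
    [MetrizableSpace M] [MeasurableSpace M] [BorelSpace M]
    [MulAction H (P × M)] [ContinuousConstSMul H (P × M)]
    (q : P × K → Bool) (Q : Fin 4 → G), Continuous q → ∀ (m : Measure M), IsTgt H M m →
    ∀ (C : ℕ) (l : Ix → ℕ) (l' : ℕ) (t : P),
      IsClosed {s | ∃ η : Measure (St G K H M), RelC m q Q C l l' t s η}

/-- **Reduction to bounded densities.**

Proof.  `μ = mu m s`, `ρ = map fst η`, `F = ρ.rnDeriv μ` (finite a.e.), `ρ = ρs + μ.withDensity F`,
`ρs ⟂ₘ μ`: a measurable set `S` with `ρs S = 0`, `μ Sᶜ = 0`.  `A = ⋂ u : H, {x | u • x ∈ S}` is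
`H`-invariant, measurable, `μ Aᶜ = 0` (`μ` is `H`-invariant), `ρs A = 0`.  For `C : ℕ` let
`A_C = {x ∈ A | F x ≤ C}`.  As `C → ∞`, `∫ x in {F > C}, F ∂μ → 0`, so choose `C'` with this integral
`≤ 1 / 10 ^ 8`; `Z = η {ω.1 ∈ A_C'} = ∫ x in A_C', F ∂μ ≥ 1 / 2 - 1 / 10 ^ 8` (total mass of `ρ` is `1`, that
of `ρs` is `< 1 / 2`).  Let
`Ψ ω = (ω.1, (ω.2.1, fun g u => L g u && decide (u • ω.1 ∈ A_C')))` (`L = ω.2.2`) and
`η' = Z⁻¹ • map Ψ (η.restrict {ω | ω.1 ∈ A_C'})`.  `Ψ` commutes with `T g u` exactly.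
`W0 η'`: `lab_one`, `lab_uniq` clear; `inv`: `η ({L g u} ∩ T g u ⁻¹' ({x ∈ A_C', u⁻¹ • x ∈ A_C'} ∩ Ψ⁻¹ D)) =
η ({L g⁻¹ u⁻¹} ∩ {x ∈ A_C', u⁻¹ • x ∈ A_C'} ∩ Ψ⁻¹ D)`.  Base law: `Z⁻¹ • ρ.restrict A_C' ≤ Z⁻¹ C' • μ ≤ C • μ` for
`C = 3 C'`.  `gen`: the failure under `η'` is at most
`Z⁻¹ (η (FX (l i) (Q8 Q i))ᶜ + η {x ∈ A_C', ∃ u, L g u, u • x ∉ A_C'})`, and the last event (`u • x ∈ A`
automatically) has measure `≤ ∑ u, η ({L g u} ∩ T g u ⁻¹' {x ∈ A, F x > C'})
= ∑ u, η ({L g⁻¹ u⁻¹} ∩ {x ∈ A, F x > C'}) ≤ η {x ∈ A, F x > C'} ≤ 1 / 10 ^ 8`.  Total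
`≤ (2 / 10 ^ 8) / 0.49 ≤ 1 / 10 ^ 7`.  `dig`, `fib`, `par`: clear. -/
def S_acx : Prop :=
  ∀ (G K H M : Type) [Group G] [Countable G] [TopologicalSpace K] [CompactSpace K]
    [MetrizableSpace K] [MeasurableSpace K] [BorelSpace K]
    [MulAction G (P × K)] [ContinuousConstSMul G (P × K)]
    [Group H] [Countable H] [TopologicalSpace M] [CompactSpace M]
    [MetrizableSpace M] [MeasurableSpace M] [BorelSpace M]
    [MulAction H (P × M)] [ContinuousConstSMul H (P × M)]
    (q : P × K → Bool) (Q : Fin 4 → G), Continuous q → ∀ (m : Measure M), IsTgt H M m →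
    ∀ (l : Ix → ℕ) (l' : ℕ) (t s : P) (η : Measure (St G K H M)),
      Rel0 (1 / 10 ^ 8) q Q l l' t s η → ¬ Sing m s η →
      ∃ (C : ℕ) (η' : Measure (St G K H M)), RelC m q Q C l l' t s η'

/-- **Minimax.**

Proof.  Let `cl f x = max 0 (min 1 (f x))`.  First we find a continuous `f : X → [0, 1]` with
`∫ f ∂μ < ε` and `∫ f ∂ρ > 1 / 4` for all `ρ ∈ 𝓜` (then, `𝓜` being compact and `ρ ↦ ∫ f ∂ρ` continuous, a
member of the dense sequence `dn X` close to `f` has the required properties, `cl` being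
1-Lipschitz).  Let `𝓐` be the convex set of all continuous `f : X → [0, 1]` with `∫ f ∂μ < ε`.
(1) For every `ρ ∈ 𝓜` there is `f ∈ 𝓐` with `∫ f ∂ρ > 1 / 4`: the singular part `ρs` has mass
`≥ 1 / 2` and is concentrated on a `μ`-null set, take a compact subset `K₀` with `ρs K₀ > 1 / 4`, an
open `U ⊇ K₀` with `μ U < ε`, and a Urysohn function.  (2) The sets `{ρ ∈ 𝓜 | ∫ f ∂ρ ≤ 1 / 4}`,
`f ∈ 𝓐`, are closed in the compact space `ProbabilityMeasure X` and have empty intersection, so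
there are `f 1, ..., f k ∈ 𝓐` such that for each `ρ ∈ 𝓜` some `∫ f i ∂ρ > 1 / 4`.  (3) The set
`V = {(∫ f i ∂ρ)_i | ρ ∈ 𝓜} ⊆ Fin k → ℝ` is compact, convex (hypothesis on `𝓜`) and disjoint from the closed convex
set `W = {w | ∀ i, w i ≤ 1 / 4}`.  By `geometric_hahn_banach_compact_closed` (or closed compact) there are
`t : Fin k → ℝ` and `α` with `∑ t i * w i < α < ∑ t i * v i` for `w ∈ W`, `v ∈ V`.  As `W` is
unbounded below, `t i ≥ 0`; if `𝓜` is nonempty then `∑ t i > 0`, normalise to `∑ t i = 1`; then `w = (1 / 4)`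
gives `1 / 4 < ∑ t i * v i`.  `f = ∑ t i • f i`.  If `𝓜` is empty take `f = 0`. -/
def S_mm : Prop :=
  ∀ (X : Type) [TopologicalSpace X] [CompactSpace X] [MetrizableSpace X] [MeasurableSpace X]
    [BorelSpace X] (μ : Measure X) (𝓜 : Set (ProbabilityMeasure X)), IsProbabilityMeasure μ →
    IsClosed 𝓜 →
    (∀ ρ ∈ 𝓜, ∀ ρ' ∈ 𝓜, ∀ a b : ℝ≥0∞, a + b = 1 →
      ∃ ρ'' ∈ 𝓜, (ρ'' : Measure X) = a • (ρ : Measure X) + b • (ρ' : Measure X)) →
    (∀ ρ ∈ 𝓜, 2⁻¹ ≤ (ρ : Measure X).singularPart μ univ) →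
    ∀ ε : ℝ, 0 < ε → ∃ k : ℕ, ∫ x, max 0 (min 1 (dn X k x)) ∂μ < ε ∧
      ∀ ρ ∈ 𝓜, 1 / 4 < ∫ x, max 0 (min 1 (dn X k x)) ∂(ρ : Measure X)

/-- **Null sets** (`S_cl0`, `S_mm` may be assumed).

Proof.  `μ s = mu m s`.  Let `R s` be the set of all `η : ProbabilityMeasure (St G K H M)` with
`Rel0 (1 / 10 ^ 8) q Q l l' t s η`, `f k = cl (dn (P × M) k)` (`cl y = max 0 (min 1 y)`).  For
`k, j : ℕ` let `U k j` be the set of all `s` with `∫ f k ∂(μ s) < 2⁻¹ ^ j` and
`∫ f k ∘ fst ∂η > 1 / 4` for all `η ∈ R s`.  It is open: the first condition is open (`s ↦ μ s` is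
continuous), and the complement of the second one is the projection to `P` of the closed set of all
`(s, η)` with `Rel0 ... t s η` and `∫ f k ∘ fst ∂η ≤ 1 / 4` (`S_cl0`; `ProbabilityMeasure (St G K H M)` is compact).
For `s ∈ B` and every `j` there is `k` with `s ∈ U k j`: apply `S_mm` with `μ = μ s` and
`𝓜 = {map fst η | η ∈ R s}` (closed: continuous image of a compact set; convex: the conditions in
`Rel0` are preserved by convex combinations; singular parts: hypothesis).  Let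
`N j = ⋃ k, {x | x.1 ∈ U k j \ ⋃ k' < k, U k' j, 1 / 8 ≤ f k x}` and
`N = ⋂ i, ⋃ j ≥ i, N j` (measurable).  `μ s (N j) ≤ 8 * 2⁻¹ ^ j` for all `s` (Markov's inequality; at most one `k`
matters for given `s`, and `μ s` is concentrated on the fibre), so `μ s N = 0` (Borel-Cantelli).
For `s ∈ B`, `η ∈ R s`, `ρ = map fst η` (concentrated on the fibre over `s`):
`ρ (N j) ≥ ρ {f k ≥ 1 / 8} ≥ ∫ f k ∂ρ - 1 / 8 ≥ 1 / 8` for the `k` of `s`, so
`ρ (⋃ j ≥ i, N j) ≥ 1 / 8` for all `i` and `ρ N ≥ 1 / 8 > 0`. -/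
def S_null : Prop :=
  ∀ (G K H M : Type) [Group G] [Countable G] [TopologicalSpace K] [CompactSpace K]
    [MetrizableSpace K] [MeasurableSpace K] [BorelSpace K]
    [MulAction G (P × K)] [ContinuousConstSMul G (P × K)]
    [Group H] [Countable H] [TopologicalSpace M] [CompactSpace M]
    [MetrizableSpace M] [MeasurableSpace M] [BorelSpace M]
    [MulAction H (P × M)] [ContinuousConstSMul H (P × M)]
    (q : P × K → Bool) (Q : Fin 4 → G), Continuous q → ∀ (m : Measure M), IsTgt H M m →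
    ∀ (l : Ix → ℕ) (l' : ℕ) (t : P) (B : Set P),
      (∀ s ∈ B, ∀ η : Measure (St G K H M), Rel0 (1 / 10 ^ 8) q Q l l' t s η → Sing m s η) →
      ∃ N : Set (P × M), MeasurableSet N ∧ (∀ s, mu m s N = 0) ∧
        ∀ s ∈ B, ∀ η : Measure (St G K H M), Rel0 (1 / 10 ^ 8) q Q l l' t s η →
          η {ω | ω.1 ∈ N} ≠ 0

/-- **The target systems.**

Proof.  `lam` is a probability measure (`IsSys.prob`) and so is the normalised counting measure on
`ZMod (n + 1)`; `lamn lam n` is the product.  `fst_smul`: from `IsSys.fst_smul`.  `pres`: the map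
`k ↦ (h • (s, k)).2` is the product of `k.1 ↦ (h.1 • (s, k.1)).2`, which preserves `lam` (`IsSys.pres`), and a
translation. -/
def S_tgt : Prop :=
  ∀ (G K : Type) [Group G] [Countable G] [TopologicalSpace K] [CompactSpace K]
    [MetrizableSpace K] [MeasurableSpace K] [BorelSpace K]
    [MulAction G (P × K)] [ContinuousConstSMul G (P × K)]
    (lam : Measure K) (q : P × K → Bool) (c : ℕ → G) (Q : Fin 4 → G) (X0 : Set (P × K)),
    IsSys G K lam q c Q X0 → ∀ n : ℕ, IsTgt (Hn G n) (Mn K n) (lamn lam n)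

/-- **Closedness on the side of the realization** (template: `CR/PYcl.lean`). -/
def S_ycl : Prop :=
  ∀ (G K : Type) [Group G] [Countable G] [TopologicalSpace K] [CompactSpace K]
    [MetrizableSpace K] [MeasurableSpace K] [BorelSpace K]
    [MulAction G (P × K)] [ContinuousConstSMul G (P × K)]
    (q : P × K → Bool) (Q : Fin 4 → G)
    (Z : Type) [TopologicalSpace Z] [CompactSpace Z] [MetrizableSpace Z] [MeasurableSpace Z]
    [BorelSpace Z] (act : ℕ → Z → Z),
    Continuous q → (∀ k, Continuous (act k)) → ∀ (l : Ix → ℕ) (l' : ℕ),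
      IsClosed {d | ∃ ζ : Measure ((P × K) × (G → Z)), LimW act q Q l l' d ζ}

/-- **Existence of the processes** (`CR.S_approx` may be assumed, it is proved in
`CR/PApprox.lean`; template: `CR/PYex.lean`).

Proof.  `μ = mu lam s`, `ζ = map (fun x => (x, fun g => Θ (g • x))) μ`.  `inv`: `μ` is `G`-invariant
(`pres`, `fst_smul`).  `par`: clear.
`gen`: let `g = Q8 Q i` and let `f z` be the least `k` with `Θ (g • Ψ z) = act k z` (`0` if there
is none), a Borel function; for `x ∈ X1` we have `Ψ (Θ x) = x` and `ω.2 g = Θ (g • x) = act (f z) z` with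
`z = Θ x = ω.2 1`.  `S_approx` for `map Θ μ`, `f` and `1 / 10 ^ 12` gives `l i`.
`dig`: the same with `f z = if q (Ψ z) then 1 else 0`. -/
def S_yex : Prop :=
  ∀ (G K : Type) [Group G] [Countable G] [TopologicalSpace K] [CompactSpace K]
    [MetrizableSpace K] [MeasurableSpace K] [BorelSpace K]
    [MulAction G (P × K)] [ContinuousConstSMul G (P × K)]
    (lam : Measure K) (q : P × K → Bool) (c : ℕ → G) (Q : Fin 4 → G) (X0 : Set (P × K)),
    IsSys G K lam q c Q X0 →
    ∀ (Z : Type) [TopologicalSpace Z] [CompactSpace Z] [MetrizableSpace Z] [MeasurableSpace Z]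
    [BorelSpace Z] (act : ℕ → Z → Z) (Θ : P × K → Z) (Ψ : Z → P × K) (X1 : Set (P × K)) (s : P),
    (∀ k, Continuous (act k)) → Measurable Θ → Measurable Ψ → MeasurableSet X1 →
    (∀ x ∈ X1, Ψ (Θ x) = x) → (∀ x ∈ X1, ∀ g : G, ∃ k, Θ (g • x) = act k (Θ x)) →
    mu lam s X1ᶜ ≤ ENNReal.ofReal (1 / 10 ^ 12) →
    ∃ (l : Ix → ℕ) (l' : ℕ) (ζ : Measure ((P × K) × (G → Z))), LimW act q Q l l' s ζ

/-- Measurability of `tr` (template: `CR/PTr1a.lean`, `holds_trm`). -/
def S_trm : Prop :=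
  ∀ (G K : Type) [Group G] [Countable G] [TopologicalSpace K] [CompactSpace K]
    [MetrizableSpace K] [MeasurableSpace K] [BorelSpace K]
    [MulAction G (P × K)] [ContinuousConstSMul G (P × K)]
    (Z : Type) [TopologicalSpace Z] [CompactSpace Z] [MetrizableSpace Z] [MeasurableSpace Z]
    [BorelSpace Z] (n : ℕ) (Ξ : Z → (P × K) × ℕ), Measurable Ξ →
    Measurable (tr (G := G) n Ξ)

/-- **Transfer, a: the labelled process satisfies `W0`** (`S_trm` may be assumed; template: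
`CR/PTr1a.lean`).

Proof.  Write `ω = (x', z)`, `E = {(Ξ (z 1)).2 ≤ n}` (of positive measure, so `trM` is a probability
measure).  `lab_one` is clear on `E`; `lab_uniq` from `X1_free` and the injectivity of
`Multiplicative.toAdd`; `inv`: let `R = (g • x', fun h => z (h * g))` (the map of `LimW.inv`, which
preserves `ζ`); for `(x', z) ∈ E` with `L g u = true` we have `R ∈ E`, and
`tr n Ξ R = T g u (tr n Ξ (x', z))`; conversely for the labels `L_R` of `R`:
`L_R g⁻¹ u⁻¹ = true ↔ L g u = true` (both contain the conditions `(Ξ (z 1)).2 ≤ n`, `(Ξ (z g)).2 ≤ n`). -/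
def S_tra : Prop :=
  ∀ (G K : Type) [Group G] [Countable G] [TopologicalSpace K] [CompactSpace K]
    [MetrizableSpace K] [MeasurableSpace K] [BorelSpace K]
    [MulAction G (P × K)] [ContinuousConstSMul G (P × K)]
    (Z : Type) [TopologicalSpace Z] [CompactSpace Z] [MetrizableSpace Z] [MeasurableSpace Z]
    [BorelSpace Z] (act : ℕ → Z → Z) (q : P × K → Bool) (Q : Fin 4 → G) (X1 : Set (P × K))
    (Ξ : Z → (P × K) × ℕ), IsCo G act X1 Ξ →
    ∀ (l : Ix → ℕ) (l' : ℕ) (d : P) (ζ : Measure ((P × K) × (G → Z))),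
      LimW act q Q l l' d ζ → ∀ n : ℕ, ζ {ω | (Ξ (ω.2 1)).2 ≤ n} ≠ 0 →
      W0 (trM (G := G) n Ξ ζ)

/-- **Transfer, c: the continuous data on the side of the system** (`CR.S_approx`, `S_trm` may be
assumed; template: `CR/PTr1c.lean`).

Proof.  Let `z = ω.2 1`, `E_n = {(Ξ z).2 ≤ n}`; choose `n` with `ζ E_nᶜ ≤ 1 / 10 ^ 12`.  Let
`β z = ((Ξ z).1.1, ((Ξ z).1.2, ((Ξ z).2 : ZMod (n + 1)))) : P × Mn K n`, the base point of `tr n Ξ ω`; it is
injective on `V = {z | (Ξ z).2 ≤ n}` and Borel, so there is a Borel map `γ : P × Mn K n → Z` with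
`γ (β z) = z` for `z ∈ V` (standard Borel spaces; e.g. `γ y = z₀` if `y ∉ β '' V`; or avoid it by using
the inverse of the injective Borel map `Ξ`: `γ y` is the inverse of `Ξ` at
`((y.1, y.2.1), y.2.2.val)`, extended by a constant).
Let `η = trM n Ξ ζ`.  Fix `i`, `g = Q8 Q i`.  Let `m z = ⌊dn Z (l i) z + 1 / 2⌋₊` and let `θ z` be the least
`k` such that `u = en (Hn G n) k` satisfies `(Ξ (act (m z) z)).1 = u.1 • (Ξ z).1` and
`((Ξ (act (m z) z)).2 : ZMod (n + 1)) = toAdd u.2 + (Ξ z).2` (it exists by `orb`), a Borel function.  On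
`FY act (l i) g`, if `(Ξ z).2 ≤ n` and `(Ξ (ω.2 g)).2 ≤ n`, the labels of `tr n Ξ ω` satisfy
`L g (en (Hn G n) (θ z)) = true`.  The event `(Ξ (ω.2 g)).2 > n` has measure `≤ 1 / 10 ^ 12` by `inv`.
`S_approx` for the law of the base point (under `ζ.restrict E_n`, normalised) and the function
`θ ∘ γ`, with `ε = 1 / 10 ^ 12`, gives `k i`.  The total failure is at most
`(1 / 10 ^ 11 + 2 / 10 ^ 12) / (1 - 1 / 10 ^ 12) + 1 / 10 ^ 12 ≤ 1 / 10 ^ 10`.  For the digit: on `HY q l'`
we have `q x' = decide (1 / 2 < dn Z l' z)`; apply `S_approx` to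
`fun y => if 1 / 2 < dn Z l' (γ y) then 1 else 0`. -/
def S_trc : Prop :=
  ∀ (G K : Type) [Group G] [Countable G] [TopologicalSpace K] [CompactSpace K]
    [MetrizableSpace K] [MeasurableSpace K] [BorelSpace K]
    [MulAction G (P × K)] [ContinuousConstSMul G (P × K)]
    (Z : Type) [TopologicalSpace Z] [CompactSpace Z] [MetrizableSpace Z] [MeasurableSpace Z]
    [BorelSpace Z] (act : ℕ → Z → Z) (q : P × K → Bool) (Q : Fin 4 → G) (X1 : Set (P × K))
    (Ξ : Z → (P × K) × ℕ), Continuous q → (∀ k, Continuous (act k)) → IsCo G act X1 Ξ →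
    ∀ (l : Ix → ℕ) (l' : ℕ) (d : P) (ζ : Measure ((P × K) × (G → Z))),
      LimW act q Q l l' d ζ → ∃ (n : ℕ) (k : Ix → ℕ) (k' : ℕ),
      ζ {ω | (Ξ (ω.2 1)).2 ≤ n} ≠ 0 ∧
      (∀ i, ENNReal.ofReal (1 - 1 / 10 ^ 10) ≤ (trM (G := G) n Ξ ζ) (FX (k i) (Q8 Q i))) ∧
      ENNReal.ofReal (1 - 1 / 10 ^ 10) ≤ (trM (G := G) n Ξ ζ) (HX q k')

/-- **Disintegration** (template: `CR/PTr2.lean`).

Proof.  Let `m = map (fun ω => ω.1.1) η`, a probability measure on `P`.  Write
`St G K H M = P × Ω` (`Ω = M × ((P × K) × Lab G H)`, standard Borel) and let `κ` be the conditional kernel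
`P → Ω` of `η`.  For `m`-a.e. `s` the measure `κ s` (put on the fibre over `s`) satisfies: `lab_one`,
`lab_uniq`, `ω.2.1.1 = d`, `ω.1 ∈ X2` (null sets); `inv`
for all `g, u` (`T g u` preserves the first coordinate `s` by `fst_smul`; compare the kernels
`P → St G K H M` `s ↦ ((δ_s × κ s).restrict {L g u}).map (T g u)` and `s ↦ (δ_s × κ s).restrict {L g⁻¹ u⁻¹}`).
The total failure `F s = ∑ i, κ s (FX (l i) (Q8 Q i))ᶜ + κ s (HX q l')ᶜ` has `∫ F ∂m ≤ 9 / 10 ^ 10`,
so `F s ≤ 1 / 10 ^ 8` on a set of positive `m`-measure; choose such an `s` with all the a.e.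
properties. -/
def S_tr2 : Prop :=
  ∀ (G K H M : Type) [Group G] [Countable G] [TopologicalSpace K] [CompactSpace K]
    [MetrizableSpace K] [MeasurableSpace K] [BorelSpace K]
    [MulAction G (P × K)] [ContinuousConstSMul G (P × K)]
    [Group H] [Countable H] [TopologicalSpace M] [CompactSpace M]
    [MetrizableSpace M] [MeasurableSpace M] [BorelSpace M]
    [MulAction H (P × M)] [ContinuousConstSMul H (P × M)]
    (q : P × K → Bool) (Q : Fin 4 → G), Continuous q →
    (∀ (h : H) (x : P × M), (h • x).1 = x.1) → ∀ X2 : Set (P × M), MeasurableSet X2 →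
    ∀ (l : Ix → ℕ) (l' : ℕ) (d : P) (η : Measure (St G K H M)), W0 η →
      η {ω | ω.2.1.1 ≠ d} = 0 → η {ω | ω.1 ∉ X2} = 0 →
      (∀ i, ENNReal.ofReal (1 - 1 / 10 ^ 10) ≤ η (FX (l i) (Q8 Q i))) →
      ENNReal.ofReal (1 - 1 / 10 ^ 10) ≤ η (HX q l') →
      ∃ (s : P) (η' : Measure (St G K H M)), Rel0 (1 / 10 ^ 8) q Q l l' d s η' ∧
        η' {ω | ω.1 ∉ X2} = 0

end Pool.Agent.H646.CS
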