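import Pool.Agent.H646.CS.Stm

set_option autoImplicit false

/-!
# The final theorem: definitions and the last steps
-/

namespace Pool.Agent.H646.CS

open MeasureTheory ProbabilityTheory Set Topology TopologicalSpace Filter
open Pool.Agent.H646.CR (P en en_surj dn b2r IsPD mu IsSys GG KK lamK qq cc QQ XX0)
open scoped ENNReal

/-- Countable Borel equivalence relations. -/
structure IsCBER {X : Type} [MeasurableSpace X] (E : X → X → Prop) : Prop where
  equiv : Equivalence E
  borel : MeasurableSet {p : X × X | E p.1 p.2}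
  ctbl : ∀ x, {y | E x y}.Countable

/-- All classes are infinite. -/
def Aperiodic {X : Type} (E : X → X → Prop) : Prop := ∀ x, {y | E x y}.Infinite

/-- There is a Borel transversal. -/
def IsSmooth {X : Type} [MeasurableSpace X] (E : X → X → Prop) : Prop :=
  ∃ T : Set X, MeasurableSet T ∧ ∀ x, ∃! y, y ∈ T ∧ E x y

/-- Borel reducibility. -/
def Reduces {X Y : Type} [MeasurableSpace X] [MeasurableSpace Y] (E : X → X → Prop)
    (F : Y → Y → Prop) : Prop :=
  ∃ f : X → Y, Measurable f ∧ ∀ x x' : X, E x x' ↔ F (f x) (f x')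

/-- `F` is Borel isomorphic to the orbit equivalence relation of a continuous action of a
countable group on a compact Polish space. -/
def CompactRealizable {Y : Type} [MeasurableSpace Y] (F : Y → Y → Prop) : Prop :=
  ∃ (Γ : Type) (_ : Group Γ) (_ : Countable Γ)
    (K : Type) (_ : TopologicalSpace K) (_ : CompactSpace K) (_ : PolishSpace K)
    (_ : MulAction Γ K) (_ : ContinuousConstSMul Γ K)
    (_ : MeasurableSpace K) (_ : BorelSpace K) (f : Y ≃ᵐ K),
    ∀ x y : Y, F x y ↔ ∃ g : Γ, g • f x = f y

/-- The final statement: a negative answer to the problem `MP_894ea6_lc`. -/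
def Final : Prop :=
  ∃ (X : Type) (_ : MeasurableSpace X) (_ : StandardBorelSpace X) (E : X → X → Prop),
    Uncountable X ∧ IsCBER E ∧ Aperiodic E ∧ ¬ IsSmooth E ∧
    ∀ (Y : Type) [MeasurableSpace Y] [StandardBorelSpace Y] (F : Y → Y → Prop),
      IsCBER F → Reduces E F → Reduces F E → ¬ CompactRealizable F

/-- The orbit relation of `G` on `X1` and that of `Γ` on `Y` are bireducible, by `α` and `β`. -/
structure IsBi (Γ Y : Type) [Group Γ] [MulAction Γ Y] [MeasurableSpace Y] {K : Type}
    [MeasurableSpace K] (G : Type) [Group G] [MulAction G (P × K)]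
    (X1 : Set (P × K)) (α : P × K → Y) (β : Y → P × K) : Prop where
  mα : Measurable α
  mβ : Measurable β
  βX : ∀ y, β y ∈ X1
  αr : ∀ x x', x ∈ X1 → x' ∈ X1 → ((∃ g : G, g • x = x') ↔ ∃ w : Γ, w • α x = α x')
  βr : ∀ y y', ((∃ w : Γ, w • y = y') ↔ ∃ g : G, g • β y = β y')

/-- **Core theorem.**  (Assembled by helper646.) -/
def Core : Prop :=
  ∃ (X0 : Set (P × KK)) (B : Set P), IsSys GG KK lamK qq cc QQ X0 ∧ MeasurableSet B ∧
    B.Nonempty ∧
    ∀ (Γ Y : Type) [Group Γ] [Countable Γ] [TopologicalSpace Y] [CompactSpace Y]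
    [MetrizableSpace Y] [MeasurableSpace Y] [BorelSpace Y] [MulAction Γ Y]
    [ContinuousConstSMul Γ Y] (α : P × KK → Y) (β : Y → P × KK),
    ¬ IsBi Γ Y GG (X0 ∩ {x | x.1 ∈ B}) α β

/-- **Final step** (template: `CR/PFin1.lean`, whose first section is stated for arbitrary `X0` and
can be imported: `import Pool.Agent.H646.CR.PFin1`, namespace `Pool.Agent.H675.CRfin1`).

Proof.  `X = {x : P × KK // x ∈ X0 ∧ x.1 ∈ B}`, `E x y := ∃ g : GG, g • x.1 = y.1`.  `X` is standard
Borel and uncountable, `E` is an aperiodic countable Borel equivalence relation which is not of the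
form `f x = f y` with `f : X → ℝ` Borel (all this as in `CR/PFin1.lean`).  If `T` were a Borel
transversal, the map `p : X → X`, `p x =` the element of `T` in the class of `x`, is Borel
(`p x = g • x` for `g = en GG n`, `n` least with `en GG n • x ∈ T`), and composing it with an injective Borel
map `X → ℝ` gives such an `f`: contradiction.  If `F` on `Y` is bireducible with `E` by `a : X → Y`,
`b : Y → X` and has the compact realization `(Γ, K, f)`, then `IsBi Γ K GG _ α β` holds with
`α x = f (a ⟨x, _⟩)` on `X` (constant elsewhere, `X` is nonempty), `β k = (b (f.symm k)).1`. -/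
def S_fin : Prop := Core → Final

/-- **Lusin-Novikov** (use `Pool.Agent.Helper281.LN.lusin_novikov` from
`Pool/Graph/R_seed8/Helper281/Sc/LN.lean`, which may be imported as
`Pool.Graph.R_seed8.Helper281.Sc.LN` after `team-store fetch`).

Proof.  Apply the theorem to `R = {(y, x) | f x = y} ⊆ Y × X` (countable sections):
`R = ⋃ n, G n`, each `G n` Borel, with at most one `x` for each `y`; `ι x` = the least `n` with `(f x, x) ∈ G n`. -/
def S_ln : Prop :=
  ∀ (X Y : Type) [MeasurableSpace X] [StandardBorelSpace X] [MeasurableSpace Y]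
    [StandardBorelSpace Y] (f : X → Y), Measurable f → (∀ y, {x | f x = y}.Countable) →
    ∃ ι : X → ℕ, Measurable ι ∧ ∀ x x', f x = f x' → ι x = ι x' → x = x'

end Pool.Agent.H646.CS
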